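import Pool.Agent.Helper78.FW.PathZ

/-!
# The path for one law with a choice of good levels (ns_notes_58, rows [XG], [P'])
-/

set_option autoImplicit false

namespace Pool.Agent.Helper78.FW

open Finset Matrix

variable {N : ℕ}

open Classical in
/-- the vectors of the levels in `G` -/
noncomputable def VG (W : ℕ → Finset (Fin N → ℝ)) (G : Finset ℕ) (m : ℕ) : Finset (Fin N → ℝ) :=
  if m ∈ G then W m else ∅

theorem VG_pos {W : ℕ → Finset (Fin N → ℝ)} {G : Finset ℕ} {m : ℕ} (h : m ∈ G) : VG W G m = W m := by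
  unfold VG
  rw [if_pos h]

theorem VG_neg {W : ℕ → Finset (Fin N → ℝ)} {G : Finset ℕ} {m : ℕ} (h : m ∉ G) : VG W G m = ∅ := by
  unfold VG
  rw [if_neg h]

theorem mem_VG {W : ℕ → Finset (Fin N → ℝ)} {G : Finset ℕ} {m : ℕ} {v : Fin N → ℝ}
    (h : v ∈ VG W G m) : m ∈ G ∧ v ∈ W m := by
  by_cases hm : m ∈ G
  · rw [VG_pos hm] at h
    exact ⟨hm, h⟩
  · rw [VG_neg hm] at h
    exact absurd h (Finset.notMem_empty v)

/-- levels of small cost -/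
noncomputable def GLv (κ : ℕ → ℝ) (M : ℕ) (θ : ℝ) : Finset ℕ := (range M).filter fun m => κ m ≤ θ

theorem mem_GLv {κ : ℕ → ℝ} {M : ℕ} {θ : ℝ} {m : ℕ} : m ∈ GLv κ M θ ↔ m < M ∧ κ m ≤ θ := by
  unfold GLv
  rw [Finset.mem_filter, Finset.mem_range]

/-- Markov: few levels are bad -/
theorem card_GLv (κ : ℕ → ℝ) (M : ℕ) (θ K : ℝ) (hθ : 0 < θ) (hκ : ∀ m < M, 0 ≤ κ m)
    (hK : ∑ m ∈ range M, κ m ≤ K) : ((range M \ GLv κ M θ).card : ℝ) ≤ K / θ := by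
  classical
  rw [le_div_iff₀ hθ]
  have h1 : range M \ GLv κ M θ ⊆ range M := Finset.sdiff_subset
  calc ((range M \ GLv κ M θ).card : ℝ) * θ = ∑ _m ∈ range M \ GLv κ M θ, θ := by
        rw [Finset.sum_const, nsmul_eq_mul]
    _ ≤ ∑ m ∈ range M \ GLv κ M θ, κ m := by
        refine Finset.sum_le_sum fun m hm => ?_
        rw [Finset.mem_sdiff, mem_GLv, not_and, not_le] at hm
        exact (hm.2 (Finset.mem_range.mp hm.1)).le
    _ ≤ ∑ m ∈ range M, κ m := Finset.sum_le_sum_of_subset_of_nonneg h1 fun m hm _ =>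
        hκ m (Finset.mem_range.mp hm)
    _ ≤ K := hK

/-- **THE PATH FOR ONE LAW, WITH COSTS OF THE SOURCE LEVELS** -/
theorem pathG {Ω δ : Type} [Fintype Ω] (μ : Ω → ℝ) (hμ : ∀ ω, 0 ≤ μ ω)
    (hm : Helper69.RK.mass μ = 1) (z : Ω → Fin N → ℝ) (Y : Ω → δ)
    (φ B : ℝ) (hφ : 0 < φ) (hφB : φ ≤ B) (g R0 R D : ℕ) (hg : R0 ≤ g) (hRR : R ≤ R0)
    (hB : B ≤ φ * 2 ^ R0) (hR : 1 ≤ R) (hRD : R ≤ D)
    (c1 : ℝ) (hc1 : Helper15.VW.cT N N ≤ c1) (M : ℕ)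
    (WA WC : ℕ → Finset (Fin N → ℝ)) (hWA : ∀ m < M, ∀ v ∈ WA m, ∀ c, |v c| ≤ B)
    (hWC : ∀ m < M, ∀ v ∈ WC m, ∀ c, |v c| ≤ B) (j0 l0 lam I Ke : ℕ)
    (κA κC : ℕ → ℝ) (hκA : ∀ m < M, 0 ≤ κA m) (hκC : ∀ m < M, 0 ≤ κC m) (cD K θ : ℝ)
    (hcD : 0 ≤ cD) (hθ : 0 < θ) (hKA : ∑ m ∈ range M, κA m ≤ K) (hKC : ∑ m ∈ range M, κC m ≤ K)
    (hA : ∀ m < M, l0 ≤ m → ∀ v ∈ WA m, ∀ G : Finset ℕ, G ⊆ range M → ∀ Z : ℕ → Multiset (Fin N → ℝ),
      (∀ t < I, Okb (fam (flr φ)) B R D WA (VG WC G) m (j0 + t * R) v (Z t)) →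
      ∑ t ∈ range I, Helper15.VW.IZ μ z Y g R0 (Z t) (((1 : ℝ) / 2) ^ (j0 + t * R) • v) ≤
        c1 * I + κA m + cD * (range M \ G).card)
    (hC : ∀ j < M, j0 ≤ j → ∀ v ∈ WC j, ∀ G : Finset ℕ, G ⊆ range M → ∀ k < Ke,
      ∀ Z : ℕ → Multiset (Fin N → ℝ),
      (∀ u < lam, Okb (fam (flr φ)) B R D WC (VG WA G) j (l0 + (u + k) * R) v (Z u)) →
      ∑ u ∈ range lam, Helper15.VW.IZ μ z Y g R0 (Z u) (((1 : ℝ) / 2) ^ (l0 + (u + k) * R) • v) ≤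
        c1 * lam + κC j + cD * (range M \ G).card)
    (s E : ℝ) (hs : ∀ Z, fam (flr φ) ≤ Z → Adm (fam (flr φ)) B Z → ∀ v ∈ Z, ∀ c, v c ≠ 0 →
      Real.logb 2 |v c| - s ≤ Helper15.VW.SZ μ z Y Z) (hE : Helper15.VW.SZ μ z Y (fam (flr φ)) ≤ -E)
    (hlam : 0 < lam)
    (hJ : ((1 : ℝ) / 2) ^ (j0 + I * R) * B ≤ φ) (hK : ((1 : ℝ) / 2) ^ (Ke * R) * B ≤ φ) :
    (∀ m < M, l0 + lam * R ≤ m → κA m ≤ θ → ∀ v ∈ WA m, ∀ c,
        |v c| ≤ N * (2 : ℝ) ^ ((j0 : ℝ) +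
          XY N I Ke R lam B φ (Helper15.VW.cP N) c1 (θ + cD * (K / θ)) s E)) ∧
      (∀ j < M, j0 ≤ j → κC j ≤ θ → ∀ v ∈ WC j, ∀ c,
        |v c| ≤ N * (2 : ℝ) ^ (((l0 + lam * R : ℕ) : ℝ) +
          XY N I Ke R lam B φ (Helper15.VW.cP N) c1 (θ + cD * (K / θ)) s E)) := by
  classical
  set GA := GLv κA M θ with hGA
  set GC := GLv κC M θ with hGC
  have hbA := card_GLv κA M θ K hθ hκA hKA
  have hbC := card_GLv κC M θ K hθ hκC hKC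
  have hsubA : GA ⊆ range M := Finset.filter_subset _ _
  have hsubC : GC ⊆ range M := Finset.filter_subset _ _
  have hK0 : 0 ≤ K := le_trans (Finset.sum_nonneg fun m hm => hκA m (Finset.mem_range.mp hm)) hKA
  obtain ⟨u, hu, h1, h2⟩ := pathZ μ hμ hm z Y φ B hφ hφB g R0 R D hg hRR hB hR hRD c1 hc1 M
    (VG WA GA) (VG WC GC)
    (fun m hm => VG_neg fun h => by
      have := Finset.mem_range.mp (hsubA h)
      omega)
    (fun m hm => VG_neg fun h => by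
      have := Finset.mem_range.mp (hsubC h)
      omega)
    (fun m v hv c => hWA m (mem_GLv.mp (mem_VG hv).1).1 v (mem_VG hv).2 c)
    (fun m v hv c => hWC m (mem_GLv.mp (mem_VG hv).1).1 v (mem_VG hv).2 c)
    j0 l0 lam I Ke (θ + cD * (K / θ)) (by positivity)
    (fun m hlm v hv Z hZ => by
      obtain ⟨hmG, hvW⟩ := mem_VG hv
      obtain ⟨hmM, hmθ⟩ := mem_GLv.mp hmG
      have h3 := hA m hmM hlm v hvW GC hsubC Z (fun t ht => by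
        obtain ⟨a1, a2, a3, a4⟩ := hZ t ht
        refine ⟨a1, a2, a3, fun w hw => a4 w ?_⟩
        rw [VG_pos hmG]
        exact hw)
      have h4 : cD * ((range M \ GC).card : ℝ) ≤ cD * (K / θ) := mul_le_mul_of_nonneg_left hbC hcD
      linarith)
    (fun j hlj v hv k hk Z hZ => by
      obtain ⟨hmG, hvW⟩ := mem_VG hv
      obtain ⟨hmM, hmθ⟩ := mem_GLv.mp hmG
      have h3 := hC j hmM hlj v hvW GA hsubA k hk Z (fun t ht => by
        obtain ⟨a1, a2, a3, a4⟩ := hZ t ht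
        refine ⟨a1, a2, a3, fun w hw => a4 w ?_⟩
        rw [VG_pos hmG]
        exact hw)
      have h4 : cD * ((range M \ GA).card : ℝ) ≤ cD * (K / θ) := mul_le_mul_of_nonneg_left hbA hcD
      linarith)
    s E hs hE hlam hJ hK
  have huR : l0 + u * R ≤ l0 + lam * R := by
    have := Nat.mul_le_mul_right R hu.le
    omega
  refine ⟨fun m hmM hlm hmθ v hv c => ?_, fun j hjM hlj hjθ v hv c => ?_⟩
  · refine h1 m (by omega) v ?_ c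
    rw [VG_pos (mem_GLv.mpr ⟨hmM, hmθ⟩)]
    exact hv
  · refine (h2 j hlj v (by rw [VG_pos (mem_GLv.mpr ⟨hjM, hjθ⟩)]; exact hv) c).trans ?_
    refine mul_le_mul_of_nonneg_left ?_ (Nat.cast_nonneg N)
    refine Real.rpow_le_rpow_of_exponent_le (by norm_num) ?_
    have h5 : ((l0 + u * R : ℕ) : ℝ) ≤ ((l0 + lam * R : ℕ) : ℝ) := by exact_mod_cast huR
    linarith

end Pool.Agent.Helper78.FW
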