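import Pool.Agent.Helper78.FW.FinT

/-!
# Theorem FW in finite form from the costs of the levels (ns_notes_58, rows [PX], [FIN])

`l` is the law of the array, `π a` the edge of the row `a` (with a fixed column), `nd m ω` the node of level `m` of
the point of the edge, `V m y` the frame of the body of the node, `a m y`, `o m y` its line.  `S` are the rows of the
spectators, `c` is one more row.
-/

set_option autoImplicit false

namespace Pool.Agent.Helper78.FW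

open Finset Matrix Pool.Agent.Helper69.RK Pool.Agent.Helper61.GL Pool.Agent.Helper15.VW
open Pool.Agent.Helper46.WF Pool.Agent.Helper99.FW Pool.Agent.Helper70.FW

variable {N : ℕ}

open Classical in
/-- all frame vectors of the bodies of the elements of `S` -/
noncomputable def WS {β : Type} {B' : ℕ} (V : β → Fin N → Fin N → ℝ) (x : Fin B' → β) (S : Finset (Fin B')) :
    Finset (Fin N → ℝ) := (S ×ˢ (univ : Finset (Fin N))).image fun q => V (x q.1) q.2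

theorem mem_WS {β : Type} {B' : ℕ} {V : β → Fin N → Fin N → ℝ} {x : Fin B' → β} {S : Finset (Fin B')}
    {v : Fin N → ℝ} : v ∈ WS V x S ↔ ∃ a ∈ S, ∃ i, V (x a) i = v := by
  classical
  unfold WS
  rw [Finset.mem_image]
  constructor
  · rintro ⟨⟨a, i⟩, h, rfl⟩
    exact ⟨a, (Finset.mem_product.mp h).1, i, rfl⟩
  · rintro ⟨a, ha, i, rfl⟩
    exact ⟨(a, i), Finset.mem_product.mpr ⟨ha, Finset.mem_univ i⟩, rfl⟩

/-- **THEOREM FW, FINITE FORM, FROM THE COSTS** -/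
theorem finA {Λ Ω χ ψ β β' : Type} [Fintype Λ] [Fintype Ω] {B' B'' n : ℕ} {ε κ : ℝ}
    (l : Λ → ℝ) (hl : ∀ w, 0 ≤ l w) (hlm : mass l = 1) (Fp : Λ → χ) (z : Λ → Fin N → ℝ)
    -- the edge law
    (μ : Ω → ℝ) (π : Fin B' → Λ → Ω) (hπ : ∀ a, push (π a) l = μ)
    (F : Ω → ψ) (T : Ω → ℝ) (A : Ω → Fin N → ℝ)
    -- the nodes of the left side
    (nd : ℕ → Ω → β) (a o : ℕ → β → Fin N → ℝ) (V : ℕ → β → Fin N → Fin N → ℝ)
    (p : ℕ → β → Seminorm ℝ (Fin N → ℝ)) (hFr : ∀ m y, FrOf (p m y) (V m y)) (r bd : ℝ)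
    (hinv : ∀ (m : ℕ) (c c' : Fin B') (Q : (Fin B' → β) → Prop),
      Pw l (fun w => Q ((fun b => nd m (π b w)) ∘ Equiv.swap c c')) =
        Pw l (fun w => Q (fun b => nd m (π b w))))
    -- the nodes of the right side
    (nd' : ℕ → Fin B'' → Λ → β') (V' : ℕ → β' → Fin N → Fin N → ℝ)
    (S : Finset (Fin B')) (S' : Finset (Fin B'')) (c : Fin B') (hc : c ∉ S)
    (φ B : ℝ) (hφ : 0 < φ) (hφB : φ ≤ B) (g R0 R D : ℕ) (hg : R0 ≤ g)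
    (hRR : R ≤ R0) (hB : B ≤ φ * 2 ^ R0) (hR : 1 ≤ R) (hRD : R ≤ D) (c1 : ℝ) (hc1 : cT N N ≤ c1) (M : ℕ)
    (hVB : ∀ m < M, ∀ y i j, |V m y i j| ≤ B) (hVB' : ∀ m < M, ∀ y i j, |V' m y i j| ≤ B)
    (j0 l0 lam I Ke : ℕ)
    (κA κC : Λ → ℕ → ℝ) (hκA : ∀ w, l w ≠ 0 → ∀ m < M, 0 ≤ κA w m)
    (hκC : ∀ w, l w ≠ 0 → ∀ m < M, 0 ≤ κC w m) (cD K θ : ℝ)
    (hcD : 0 ≤ cD) (hθ : 0 < θ) (hK : 0 < K)
    (hA : ∀ w, l w ≠ 0 → ∀ m < M, l0 ≤ m → ∀ v ∈ WS (V m) (fun b => nd m (π b w)) S,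
      ∀ G : Finset ℕ, G ⊆ range M → ∀ Z : ℕ → Multiset (Fin N → ℝ),
      (∀ t < I, Okb (fam (flr φ)) B R D (fun m' => WS (V m') (fun b => nd m' (π b w)) S)
        (VG (fun m' => WS (V' m') (fun b => nd' m' b w) S') G) m (j0 + t * R) v (Z t)) →
      ∑ t ∈ range I, IZ (cw l Fp w) z (fun _ => ()) g R0 (Z t) (((1 : ℝ) / 2) ^ (j0 + t * R) • v) ≤
        c1 * I + κA w m + cD * (range M \ G).card)
    (hC : ∀ w, l w ≠ 0 → ∀ j < M, j0 ≤ j → ∀ v ∈ WS (V' j) (fun b => nd' j b w) S',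
      ∀ G : Finset ℕ, G ⊆ range M → ∀ k < Ke, ∀ Z : ℕ → Multiset (Fin N → ℝ),
      (∀ u < lam, Okb (fam (flr φ)) B R D (fun m' => WS (V' m') (fun b => nd' m' b w) S')
        (VG (fun m' => WS (V m') (fun b => nd m' (π b w)) S) G) j (l0 + (u + k) * R) v (Z u)) →
      ∑ u ∈ range lam, IZ (cw l Fp w) z (fun _ => ()) g R0 (Z u)
        (((1 : ℝ) / 2) ^ (l0 + (u + k) * R) • v) ≤ c1 * lam + κC w j + cD * (range M \ G).card)
    (s E δ1 δ2 : ℝ) (St : Λ → Prop)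
    (hs : ∀ w, l w ≠ 0 → St w → ∀ Z, fam (flr φ) ≤ Z → Adm (fam (flr φ)) B Z → ∀ v ∈ Z, ∀ j, v j ≠ 0 →
      Real.logb 2 |v j| - s ≤ SZ (cw l Fp w) z (fun _ => ()) Z)
    (hE : ∀ w, l w ≠ 0 → St w → SZ (cw l Fp w) z (fun _ => ()) (fam (flr φ)) ≤ -E)
    (hSt : Pw l (fun w => ¬ St w) ≤ δ1)
    (hKA : ∑ w, l w * ∑ m ∈ range M, κA w m ≤ δ2 * K)
    (hKC : ∑ w, l w * ∑ m ∈ range M, κC w m ≤ δ2 * K)
    (hlam : 0 < lam)
    (hJ : ((1 : ℝ) / 2) ^ (j0 + I * R) * B ≤ φ) (hKe : ((1 : ℝ) / 2) ^ (Ke * R) * B ≤ φ)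
    -- the level of the tubes
    (Sm : Finset ℕ) (hne : Sm.Nonempty) (hSM : ∀ m ∈ Sm, m < M ∧ l0 + lam * R ≤ m)
    (hR' : ∀ m ∈ Sm, CH μ (nd m) F ≤ ε * n) (δ3 δ4 : ℝ)
    (hsz : ∀ m ∈ Sm, Pw μ (fun ω => ¬ ∀ i, |a m (nd m ω) i| ≤ (2 : ℝ) ^ (ε * n) ∧
      |o m (nd m ω) i| ≤ (2 : ℝ) ^ (ε * n)) ≤ δ3)
    (htb : ∑ m ∈ Sm, Pw μ (fun ω => r < p m (nd m ω) (A ω - T ω • a m (nd m ω) - o m (nd m ω))) ≤
      δ4 * Sm.card)
    (hbd : φ ≤ bd)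
    (hbX : N * (2 : ℝ) ^ ((j0 : ℝ) + XY N I Ke R lam B φ (cP N) c1 (θ + cD * (K / θ)) s E) ≤ bd)
    (hbr : N * (r * (N * bd)) ≤ (2 : ℝ) ^ (-(κ * n)))
    (hδ : δ3 + (δ2 * K / θ / Sm.card + δ4) + (δ1 + 2 * δ2 + (δ2 * K / θ / Sm.card + δ4) +
      N / (S.card + 1)) ≤ ε) :
    TubF N n ε 0 κ μ F T A := by
  classical
  have hμ : ∀ ω, 0 ≤ μ ω := by
    intro ω
    rw [← hπ c, Pool.Agent.Helper31.EC.push_ind]
    exact Finset.sum_nonneg fun w _ => mul_nonneg (Pool.Agent.Helper31.EC.ind_nonneg _) (hl w)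
  have hcard : (0 : ℝ) < Sm.card := by exact_mod_cast hne.card_pos
  obtain ⟨m, hm, hpm, hshort⟩ := pathA l hl Fp z φ B hφ hφB g R0 R D hg hRR hB hR hRD c1 hc1 M
    (fun w m' => WS (V m') (fun b => nd m' (π b w)) S) (fun w m' => WS (V' m') (fun b => nd' m' b w) S')
    (fun w _ m' hm' v hv j => by
      obtain ⟨b, _, i, rfl⟩ := mem_WS.mp hv
      exact hVB m' hm' _ i j)
    (fun w _ m' hm' v hv j => by
      obtain ⟨b, _, i, rfl⟩ := mem_WS.mp hv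
      exact hVB' m' hm' _ i j)
    j0 l0 lam I Ke κA κC hκA hκC cD K θ hcD hθ hK hA hC s E δ1 δ2 St hs hE hSt hKA hKC hlam hJ hKe
    Sm hne hSM (fun m => Pw μ (fun ω => r < p m (nd m ω) (A ω - T ω • a m (nd m ω) - o m (nd m ω))))
    (fun m _ => by
      unfold Pw
      exact Finset.sum_nonneg fun ω _ => by split_ifs <;> [exact hμ ω; exact le_rfl])
  have hq : (δ2 * K / θ + ∑ m ∈ Sm, Pw μ (fun ω => r < p m (nd m ω)
      (A ω - T ω • a m (nd m ω) - o m (nd m ω)))) / Sm.card ≤ δ2 * K / θ / Sm.card + δ4 := by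
    rw [add_div]
    have h1 : (∑ m ∈ Sm, Pw μ (fun ω => r < p m (nd m ω)
      (A ω - T ω • a m (nd m ω) - o m (nd m ω)))) / Sm.card ≤ δ4 := by
      rw [div_le_iff₀ hcard]
      exact htb
    linarith
  have hmono : Pw l (fun w => ¬ ∀ v ∈ WS (V m) (fun b => nd m (π b w)) S, ∀ j, |v j| ≤ bd) ≤
      δ1 + 2 * δ2 + (δ2 * K / θ / Sm.card + δ4) := by
    refine le_trans (Pw_mono l hl (B := fun w => ¬ ∀ v ∈ WS (V m) (fun b => nd m (π b w)) S, ∀ c,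
      |v c| ≤ N * (2 : ℝ) ^ ((j0 : ℝ) + XY N I Ke R lam B φ (cP N) c1 (θ + cD * (K / θ)) s E)) ?_) ?_
    · intro w _ hbad hgood
      exact hbad fun v hv j => (hgood v hv j).trans hbX
    · exact hshort.trans (by linarith)
  refine finT l hl μ π hπ F T A (nd m) (a m) (o m) (hinv m) hφ (V m) (p m) (hFr m) r bd hbd hbr S c hc
    (fun w => WS (V m) (fun b => nd m (π b w)) S) (fun w _ b hb i => mem_WS.mpr ⟨b, hb, i, rfl⟩)
    (δ1 + 2 * δ2 + (δ2 * K / θ / Sm.card + δ4)) δ3 (δ2 * K / θ / Sm.card + δ4) hmono (hR' m hm) (hsz m hm)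
    (hpm.trans hq) ?_
  rw [hlm, mul_one]
  linarith

end Pool.Agent.Helper78.FW
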