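import Pool.Agent.Helper78.FW.Frm

/-!
# The path of bodies (ns_notes_78d, sect. 2)

`S Z` is an abstract functional of finite families of vectors (think of the differential entropy of
`zeta + U_Z`), `inc Z v` an abstract increment.  `PF` lists what is used: monotonicity, absorption,
Kaimanovich-Vershik, the trivial bound.  Given maximal determinant frames `fa l` (left sources of level at
least `l`) and `fc j` (right sources of level at least `j`) and the one source inequalities `hA`, `hC` for all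
but `β` partner levels, the path

  K_j = 2^(-j) fa(l*) + 2^(-l*) fc(j) + floor

shows `S (K_(j_0)) ≤ S floor + small`.
-/

set_option autoImplicit false

namespace Pool.Agent.Helper78.FW

open Finset Matrix

variable {N : ℕ}

/-- admissible families: they contain the floor, at most `5 N` vectors, bounded by `B` -/
def Adm (Fl : Multiset (Fin N → ℝ)) (B : ℝ) (Z : Multiset (Fin N → ℝ)) : Prop :=
  Fl ≤ Z ∧ Z.card ≤ 5 * N ∧ ∀ v ∈ Z, ∀ i, |v i| ≤ B

theorem Adm.sub {Fl : Multiset (Fin N → ℝ)} {B : ℝ} {Z Z' : Multiset (Fin N → ℝ)}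
    (h : Adm Fl B Z) (hF : Fl ≤ Z') (hZ : Z' ≤ Z) : Adm Fl B Z' :=
  ⟨hF, (Multiset.card_le_card hZ).trans h.2.1, fun v hv i => h.2.2 v (Multiset.mem_of_le hZ hv) i⟩

/-- the functional of the path -/
structure PF (Fl : Multiset (Fin N → ℝ)) (B : ℝ) (S : Multiset (Fin N → ℝ) → ℝ)
    (inc : Multiset (Fin N → ℝ) → (Fin N → ℝ) → ℝ) (R : ℕ) (c0 c2 : ℝ) : Prop where
  /-- monotone -/
  mono : ∀ Z v, Adm Fl B (Z + {v}) → Fl ≤ Z → S Z ≤ S (Z + {v}) + c0
  /-- absorption -/
  abs : ∀ Z v, Adm Fl B (Z + {v}) → Fl ≤ Z → InB Z v → S (Z + {v}) ≤ S Z + c0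
  /-- Kaimanovich-Vershik -/
  kv : ∀ Z (w : Fin N → Fin N → ℝ), Adm Fl B (Z + fam w) → Fl ≤ Z →
    S (Z + fam w) ≤ S Z + ∑ i, inc Z (w i) + c0
  /-- trivial bound of an increment -/
  triv : ∀ Z v, Adm Fl B (Z + {v}) → Fl ≤ Z → InB Z (((1 : ℝ) / 2) ^ R • v) → inc Z v ≤ c2
  c0_nonneg : 0 ≤ c0
  c2_nonneg : 0 ≤ c2

section

variable {Fl : Multiset (Fin N → ℝ)} {B : ℝ} {S : Multiset (Fin N → ℝ) → ℝ}
    {inc : Multiset (Fin N → ℝ) → (Fin N → ℝ) → ℝ} {R : ℕ} {c0 c2 : ℝ}

theorem PF.mono_fam (h : PF Fl B S inc R c0 c2) (Z : Multiset (Fin N → ℝ)) (w : Fin N → Fin N → ℝ)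
    (hA : Adm Fl B (Z + fam w)) (hF : Fl ≤ Z) : S Z ≤ S (Z + fam w) + N * c0 := by
  classical
  have key : ∀ s : Finset (Fin N), S Z ≤ S (Z + s.val.map w) + s.card * c0 := by
    intro s
    induction s using Finset.induction_on with
    | empty => simp
    | @insert a s ha ih =>
      have h1 : (insert a s).val.map w = s.val.map w + {w a} := by
        rw [Finset.insert_val_of_notMem ha, Multiset.map_cons, ← Multiset.singleton_add, add_comm]
      have h2 : Z + (s.val.map w + {w a}) ≤ Z + fam w := by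
        rw [← h1]
        refine add_le_add_right (Multiset.map_le_map ?_) _
        exact Finset.val_le_iff.mpr (Finset.subset_univ _)
      have hA' : Adm Fl B (Z + s.val.map w + {w a}) := by
        rw [add_assoc]
        exact hA.sub (hF.trans (Multiset.le_add_right _ _)) h2
      have h3 := h.mono (Z + s.val.map w) (w a) hA' (hF.trans (Multiset.le_add_right _ _))
      rw [h1, Finset.card_insert_of_notMem ha, ← add_assoc]
      push_cast
      linarith
  have h1 := key univ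
  rw [Finset.card_fin] at h1
  exact h1

theorem PF.abs_fam (h : PF Fl B S inc R c0 c2) (Z : Multiset (Fin N → ℝ)) (w : Fin N → Fin N → ℝ)
    (hA : Adm Fl B (Z + fam w)) (hF : Fl ≤ Z) (hw : ∀ i, InB Z (w i)) :
    S (Z + fam w) ≤ S Z + N * c0 := by
  classical
  have key : ∀ s : Finset (Fin N), S (Z + s.val.map w) ≤ S Z + s.card * c0 := by
    intro s
    induction s using Finset.induction_on with
    | empty => simp
    | @insert a s ha ih =>
      have h1 : (insert a s).val.map w = s.val.map w + {w a} := by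
        rw [Finset.insert_val_of_notMem ha, Multiset.map_cons, ← Multiset.singleton_add, add_comm]
      have h2 : Z + (s.val.map w + {w a}) ≤ Z + fam w := by
        rw [← h1]
        refine add_le_add_right (Multiset.map_le_map ?_) _
        exact Finset.val_le_iff.mpr (Finset.subset_univ _)
      have hA' : Adm Fl B (Z + s.val.map w + {w a}) := by
        rw [add_assoc]
        exact hA.sub (hF.trans (Multiset.le_add_right _ _)) h2
      have h3 := h.abs (Z + s.val.map w) (w a) hA' (hF.trans (Multiset.le_add_right _ _))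
        ((hw a).mono (Multiset.le_add_right _ _))
      rw [h1, Finset.card_insert_of_notMem ha, ← add_assoc]
      push_cast
      linarith
  have h1 := key univ
  rw [Finset.card_fin] at h1
  exact h1

/-- the scaled frame -/
noncomputable def sc (k : ℕ) (w : Fin N → Fin N → ℝ) : Fin N → Fin N → ℝ :=
  fun i => ((1 : ℝ) / 2) ^ k • w i

theorem sc_abs {k : ℕ} {w : Fin N → Fin N → ℝ} (hw : ∀ i c, |w i c| ≤ B) :
    ∀ v ∈ fam (sc k w), ∀ c, |v c| ≤ B := by
  intro v hv c
  obtain ⟨i, rfl⟩ := (mem_fam_iff _ _).mp hv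
  unfold sc
  rw [Pi.smul_apply, smul_eq_mul, abs_mul, abs_of_nonneg (by positivity)]
  have h1 : ((1 : ℝ) / 2) ^ k ≤ 1 := pow_le_one₀ (by norm_num) (by norm_num)
  have h2 := hw i c
  have h3 : 0 ≤ |w i c| := abs_nonneg _
  have h4 : 0 ≤ ((1 : ℝ) / 2) ^ k := by positivity
  nlinarith

/-- one refinement of a scaled frame: from `2^(-k) w` to `2^(-k-R) w` -/
theorem PF.refine (h : PF Fl B S inc R c0 c2) (Z : Multiset (Fin N → ℝ)) (w : Fin N → Fin N → ℝ)
    (k : ℕ) (e : ℝ) (hF : Fl ≤ Z) (hA : Adm Fl B (Z + fam (sc (k + R) w) + fam (sc k w)))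
    (hinc : ∀ i, inc (Z + fam (sc (k + R) w)) (((1 : ℝ) / 2) ^ k • w i) ≤ e) :
    S (Z + fam (sc k w)) ≤ S (Z + fam (sc (k + R) w)) + N * e + (N + 1) * c0 := by
  have hA1 : Adm Fl B (Z + fam (sc k w) + fam (sc (k + R) w)) := by
    rw [add_right_comm]
    exact hA
  have h1 := h.mono_fam (Z + fam (sc k w)) (sc (k + R) w) hA1 (hF.trans (Multiset.le_add_right _ _))
  have h2 := h.kv (Z + fam (sc (k + R) w)) (sc k w) hA (hF.trans (Multiset.le_add_right _ _))
  have h3 : ∑ i, inc (Z + fam (sc (k + R) w)) (sc k w i) ≤ N * e := by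
    calc ∑ i, inc (Z + fam (sc (k + R) w)) (sc k w i) ≤ ∑ _i : Fin N, e :=
          Finset.sum_le_sum fun i _ => hinc i
      _ = N * e := by
          rw [Finset.sum_const, Finset.card_fin, nsmul_eq_mul]
  rw [add_right_comm] at h1
  linarith

theorem abs_half (k : ℕ) : |((1 : ℝ) / 2) ^ k| = (1 / 2) ^ k := abs_of_nonneg (by positivity)

/-- members are in the box -/
theorem InB.mem {Z : Multiset (Fin N → ℝ)} {v : Fin N → ℝ} (i : Fin N) (hv : v ∈ Z) : InB Z v := by
  classical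
  refine ⟨fun _ => v, fun _ => hv, Pi.single i 1, fun k => ?_, ?_⟩
  · by_cases hk : k = i
    · subst hk
      simp
    · rw [Pi.single_eq_of_ne hk]
      simp
  · rw [Finset.sum_eq_single i]
    · simp
    · intro k _ hk
      rw [Pi.single_eq_of_ne hk, zero_smul]
    · intro h
      exact absurd (Finset.mem_univ i) h

/-- the data of the path -/
structure PD (Fl : Multiset (Fin N → ℝ)) (B φ : ℝ)
    (inc : Multiset (Fin N → ℝ) → (Fin N → ℝ) → ℝ) (R D : ℕ) (c1 c2 : ℝ)
    (SA SC : ℕ → (Fin N → ℝ) → Prop) (fa fc : ℕ → Fin N → Fin N → ℝ)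
    (BA BC : ℕ → Finset ℕ) : Prop where
  hFl : Fl = fam (flr φ)
  hφ : 0 < φ
  hφB : φ ≤ B
  hRD : R ≤ D
  hc1 : 0 ≤ c1
  /-- frames are bounded -/
  fab : ∀ l i c, |fa l i c| ≤ B
  fcb : ∀ j i c, |fc j i c| ≤ B
  /-- sources are bounded -/
  sab : ∀ l a, SA l a → ∀ c, |a c| ≤ B
  /-- sources of higher level have small coordinates -/
  cova : ∀ l m a, l ≤ m → SA m a → ∃ x : Fin N → ℝ, a = ∑ k, x k • fa l k ∧ ∀ k, |x k| ≤ 1
  covc : ∀ j c, SC j c → ∃ x : Fin N → ℝ, c = ∑ k, x k • fc j k ∧ ∀ k, |x k| ≤ 1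
  /-- one left source -/
  hA : ∀ l j i, j ∉ BA l → ∀ Z, Fl ≤ Z → Adm Fl B (Z + {((1 : ℝ) / 2) ^ j • fa l i}) →
    (∀ c, SC j c → InB Z (((1 : ℝ) / 2) ^ (l + D) • c)) → InB Z (((1 : ℝ) / 2) ^ (j + R) • fa l i) →
    inc Z (((1 : ℝ) / 2) ^ j • fa l i) ≤ c1
  /-- one right source -/
  hC : ∀ j l i, l ∉ BC j → ∀ Z, Fl ≤ Z → Adm Fl B (Z + {((1 : ℝ) / 2) ^ l • fc j i}) →
    (∀ a, SA l a → InB Z (((1 : ℝ) / 2) ^ (j + D) • a)) → InB Z (((1 : ℝ) / 2) ^ (l + R) • fc j i) →
    inc Z (((1 : ℝ) / 2) ^ l • fc j i) ≤ c1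

theorem sc_sub_adm {Z : Multiset (Fin N → ℝ)} {w : Fin N → Fin N → ℝ} {k : ℕ} (i : Fin N)
    (hF : Fl ≤ Z) (hA : Adm Fl B (Z + fam (sc k w))) : Adm Fl B (Z + {((1 : ℝ) / 2) ^ k • w i}) := by
  refine hA.sub (hF.trans (Multiset.le_add_right _ _)) (add_le_add_right ?_ _)
  exact Multiset.singleton_le.mpr (mem_fam (sc k w) i)

variable {φ : ℝ} {D : ℕ} {c1 : ℝ} {SA SC : ℕ → (Fin N → ℝ) → Prop}
    {fa fc : ℕ → Fin N → Fin N → ℝ} {BA BC : ℕ → Finset ℕ}

theorem PD.flB (d : PD Fl B φ inc R D c1 c2 SA SC fa fc BA BC) : ∀ v ∈ Fl, ∀ c, |v c| ≤ B := by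
  classical
  intro v hv c
  rw [d.hFl] at hv
  obtain ⟨i, rfl⟩ := (mem_fam_iff _ _).mp hv
  unfold flr
  have h0 : (0 : ℝ) ≤ B := d.hφ.le.trans d.hφB
  by_cases h : c = i
  · subst h
    rw [Pi.single_eq_same, abs_of_pos d.hφ]
    exact d.hφB
  · rw [Pi.single_eq_of_ne h, abs_zero]
    exact h0

theorem PD.cardFl (d : PD Fl B φ inc R D c1 c2 SA SC fa fc BA BC) : Fl.card = N := by
  rw [d.hFl, card_fam]

/-- admissibility of the families of the path -/
theorem PD.adm4 (d : PD Fl B φ inc R D c1 c2 SA SC fa fc BA BC) (a b c e : ℕ) (l j1 j2 j3 : ℕ) :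
    Adm Fl B (Fl + fam (sc a (fa l)) + fam (sc b (fc j1)) + fam (sc c (fc j2)) +
      fam (sc e (fc j3))) := by
  refine ⟨?_, ?_, ?_⟩
  · rw [add_assoc, add_assoc, add_assoc]
    exact Multiset.le_add_right _ _
  · simp only [Multiset.card_add, card_fam, d.cardFl]
    omega
  · intro v hv i
    simp only [Multiset.mem_add] at hv
    rcases hv with (((hv | hv) | hv) | hv) | hv
    · exact d.flB v hv i
    · exact sc_abs (d.fab l) v hv i
    · exact sc_abs (d.fcb j1) v hv i
    · exact sc_abs (d.fcb j2) v hv i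
    · exact sc_abs (d.fcb j3) v hv i

theorem PD.adm3 (d : PD Fl B φ inc R D c1 c2 SA SC fa fc BA BC) (a a' b : ℕ) (l j1 : ℕ) :
    Adm Fl B (Fl + fam (sc b (fc j1)) + fam (sc a (fa l)) + fam (sc a' (fa l))) := by
  refine ⟨?_, ?_, ?_⟩
  · rw [add_assoc, add_assoc]
    exact Multiset.le_add_right _ _
  · simp only [Multiset.card_add, card_fam, d.cardFl]
    omega
  · intro v hv i
    simp only [Multiset.mem_add] at hv
    rcases hv with ((hv | hv) | hv) | hv
    · exact d.flB v hv i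
    · exact sc_abs (d.fcb j1) v hv i
    · exact sc_abs (d.fab l) v hv i
    · exact sc_abs (d.fab l) v hv i

/-- the bodies of the path -/
noncomputable def KK (Fl : Multiset (Fin N → ℝ)) (fa fc : ℕ → Fin N → Fin N → ℝ) (l j : ℕ) :
    Multiset (Fin N → ℝ) := Fl + fam (sc l (fc j)) + fam (sc j (fa l))

/-- the cost of a bad partner -/
noncomputable def bad (c2 : ℝ) (T : Finset ℕ) (k : ℕ) : ℝ := if k ∈ T then c2 else 0

/-- STEP A -/
theorem stepA (h : PF Fl B S inc R c0 c2) (d : PD Fl B φ inc R D c1 c2 SA SC fa fc BA BC)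
    (l j : ℕ) :
    S (KK Fl fa fc l j) ≤ S (Fl + fam (sc l (fc j)) + fam (sc (j + R) (fa l))) +
      N * (c1 + bad c2 (BA l) j) + (N + 1) * c0 := by
  have hF : Fl ≤ Fl + fam (sc l (fc j)) := Multiset.le_add_right _ _
  have hA := d.adm3 (j + R) j l l j
  refine h.refine (Fl + fam (sc l (fc j))) (fa l) j _ hF hA fun i => ?_
  have hF' : Fl ≤ Fl + fam (sc l (fc j)) + fam (sc (j + R) (fa l)) :=
    hF.trans (Multiset.le_add_right _ _)
  have hadm := sc_sub_adm i hF' hA
  have hown : InB (Fl + fam (sc l (fc j)) + fam (sc (j + R) (fa l)))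
      (((1 : ℝ) / 2) ^ (j + R) • fa l i) :=
    InB.mem i (Multiset.mem_add.mpr (Or.inr (mem_fam (sc (j + R) (fa l)) i)))
  unfold bad
  split_ifs with hb
  · have h1 := h.triv _ _ hadm hF' (by
      have h2 : ((1 : ℝ) / 2) ^ R • (((1 : ℝ) / 2) ^ j • fa l i) = ((1 : ℝ) / 2) ^ (j + R) • fa l i := by
        rw [smul_smul, ← pow_add, add_comm R j]
      rw [h2]
      exact hown)
    linarith [d.hc1]
  · have h1 := d.hA l j i hb _ hF' hadm ?_ hown
    · linarith
    · intro c hc
      obtain ⟨x, hx, hx1⟩ := d.covc j c hc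
      refine InB.of_coord (fc j) (((1 : ℝ) / 2) ^ l) ?_ x hx fun k => ?_
      · intro i'
        exact Multiset.mem_add.mpr (Or.inl (Multiset.mem_add.mpr (Or.inr (mem_fam (sc l (fc j)) i'))))
      · rw [abs_mul, abs_half, abs_half]
        have h3 := half_le (show l ≤ l + D by omega)
        have h4 := hx1 k
        have h5 := abs_nonneg (x k)
        have h6 : (0 : ℝ) ≤ (1 / 2) ^ (l + D) := by positivity
        nlinarith

/-- the intermediate bodies of STEP C -/
noncomputable def ZC (Fl : Multiset (Fin N → ℝ)) (fa fc : ℕ → Fin N → Fin N → ℝ) (R l j : ℕ) :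
    Multiset (Fin N → ℝ) := Fl + fam (sc (j + R) (fa l)) + fam (sc l (fc (j + R)))

/-- STEP C, one refinement -/
theorem stepC1 (h : PF Fl B S inc R c0 c2) (d : PD Fl B φ inc R D c1 c2 SA SC fa fc BA BC)
    (l j l' : ℕ) (hl : l ≤ l') :
    S (ZC Fl fa fc R l j + fam (sc l' (fc j))) ≤ S (ZC Fl fa fc R l j + fam (sc (l' + R) (fc j))) +
      N * (c1 + bad c2 (BC j) l') + (N + 1) * c0 := by
  have hF : Fl ≤ ZC Fl fa fc R l j := by
    unfold ZC
    rw [add_assoc]
    exact Multiset.le_add_right _ _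
  have hA : Adm Fl B (ZC Fl fa fc R l j + fam (sc (l' + R) (fc j)) + fam (sc l' (fc j))) := by
    unfold ZC
    exact d.adm4 (j + R) l (l' + R) l' l (j + R) j j
  refine h.refine (ZC Fl fa fc R l j) (fc j) l' _ hF hA fun i => ?_
  have hF' : Fl ≤ ZC Fl fa fc R l j + fam (sc (l' + R) (fc j)) :=
    hF.trans (Multiset.le_add_right _ _)
  have hadm := sc_sub_adm i hF' hA
  have hown : InB (ZC Fl fa fc R l j + fam (sc (l' + R) (fc j)))
      (((1 : ℝ) / 2) ^ (l' + R) • fc j i) :=
    InB.mem i (Multiset.mem_add.mpr (Or.inr (mem_fam (sc (l' + R) (fc j)) i)))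
  unfold bad
  split_ifs with hb
  · have h1 := h.triv _ _ hadm hF' (by
      have h2 : ((1 : ℝ) / 2) ^ R • (((1 : ℝ) / 2) ^ l' • fc j i) =
          ((1 : ℝ) / 2) ^ (l' + R) • fc j i := by
        rw [smul_smul, ← pow_add, add_comm R l']
      rw [h2]
      exact hown)
    linarith [d.hc1]
  · have h1 := d.hC j l' i hb _ hF' hadm ?_ hown
    · linarith
    · intro a ha
      obtain ⟨x, hx, hx1⟩ := d.cova l l' a hl ha
      refine InB.of_coord (fa l) (((1 : ℝ) / 2) ^ (j + R)) ?_ x hx fun k => ?_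
      · intro i'
        refine Multiset.mem_add.mpr (Or.inl ?_)
        unfold ZC
        exact Multiset.mem_add.mpr (Or.inl (Multiset.mem_add.mpr (Or.inr
          (mem_fam (sc (j + R) (fa l)) i'))))
      · rw [abs_mul, abs_half, abs_half]
        have h3 := half_le (show j + R ≤ j + D by have := d.hRD; omega)
        have h4 := hx1 k
        have h5 := abs_nonneg (x k)
        have h6 : (0 : ℝ) ≤ (1 / 2) ^ (j + D) := by positivity
        nlinarith

/-- STEP C, `K` refinements -/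
theorem stepCK (h : PF Fl B S inc R c0 c2) (d : PD Fl B φ inc R D c1 c2 SA SC fa fc BA BC)
    (l j K : ℕ) :
    S (ZC Fl fa fc R l j + fam (sc l (fc j))) ≤ S (ZC Fl fa fc R l j + fam (sc (l + K * R) (fc j))) +
      ∑ k ∈ range K, (N * (c1 + bad c2 (BC j) (l + k * R)) + (N + 1) * c0) := by
  induction K with
  | zero => simp
  | succ K ih =>
    have h1 := stepC1 h d l j (l + K * R) (by omega)
    rw [Finset.sum_range_succ]
    have h2 : l + (K + 1) * R = l + K * R + R := by ring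
    rw [h2]
    linarith

/-- STEPS A and C together -/
theorem stepAC (h : PF Fl B S inc R c0 c2) (d : PD Fl B φ inc R D c1 c2 SA SC fa fc BA BC)
    (l j K : ℕ)
    (hK : ∀ i, ∃ x : Fin N → ℝ, fc j i = ∑ k, x k • fc (j + R) k ∧ ∀ k, |x k| ≤ 2 ^ (K * R)) :
    S (KK Fl fa fc l j) ≤ S (KK Fl fa fc l (j + R)) +
      (N * (c1 + bad c2 (BA l) j) + (3 * N + 1) * c0) +
      ∑ k ∈ range K, (N * (c1 + bad c2 (BC j) (l + k * R)) + (N + 1) * c0) := by
  have h1 := stepA h d l j
  -- insertion of the next frame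
  have hF : Fl ≤ Fl + fam (sc l (fc j)) + fam (sc (j + R) (fa l)) := by
    rw [add_assoc]
    exact Multiset.le_add_right _ _
  have e1 : Fl + fam (sc l (fc j)) + fam (sc (j + R) (fa l)) + fam (sc l (fc (j + R))) =
      ZC Fl fa fc R l j + fam (sc l (fc j)) := by
    unfold ZC
    abel
  have hA1 : Adm Fl B (Fl + fam (sc l (fc j)) + fam (sc (j + R) (fa l)) + fam (sc l (fc (j + R)))) := by
    rw [e1]
    unfold ZC
    exact (d.adm4 (j + R) l l l l (j + R) j j).sub
      (by rw [add_assoc, add_assoc]; exact Multiset.le_add_right _ _) (Multiset.le_add_right _ _)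
  have h2 := h.mono_fam _ (sc l (fc (j + R))) hA1 hF
  rw [e1] at h2
  have h3 := stepCK h d l j K
  -- absorption of the refined frame
  have hF3 : Fl ≤ ZC Fl fa fc R l j := by
    unfold ZC
    rw [add_assoc]
    exact Multiset.le_add_right _ _
  have hA3 : Adm Fl B (ZC Fl fa fc R l j + fam (sc (l + K * R) (fc j))) := by
    unfold ZC
    exact (d.adm4 (j + R) l (l + K * R) l l (j + R) j j).sub
      (by rw [add_assoc, add_assoc]; exact Multiset.le_add_right _ _) (Multiset.le_add_right _ _)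
  have h4 := h.abs_fam (ZC Fl fa fc R l j) (sc (l + K * R) (fc j)) hA3 hF3 (fun i => by
    obtain ⟨x, hx, hx1⟩ := hK i
    unfold sc
    refine InB.of_coord (fc (j + R)) (((1 : ℝ) / 2) ^ l) ?_ x hx fun k => ?_
    · intro i'
      unfold ZC
      exact Multiset.mem_add.mpr (Or.inr (mem_fam (sc l (fc (j + R))) i'))
    · rw [abs_mul, abs_half, abs_half, pow_add]
      have h5 := hx1 k
      have h6 : ((1 : ℝ) / 2) ^ (K * R) * 2 ^ (K * R) = 1 := by
        rw [← mul_pow]
        norm_num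
      have h7 : (0 : ℝ) ≤ (1 / 2) ^ l := by positivity
      have h8 : (0 : ℝ) ≤ (1 / 2) ^ (K * R) := by positivity
      calc ((1 : ℝ) / 2) ^ l * (1 / 2) ^ (K * R) * |x k|
          ≤ ((1 : ℝ) / 2) ^ l * (1 / 2) ^ (K * R) * 2 ^ (K * R) :=
            mul_le_mul_of_nonneg_left h5 (mul_nonneg h7 h8)
        _ = (1 / 2) ^ l := by rw [mul_assoc, h6, mul_one])
  have e2 : KK Fl fa fc l (j + R) = ZC Fl fa fc R l j := by
    unfold KK ZC
    abel
  rw [e2]
  linarith

/-- the last part of the path -/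
theorem stepE (h : PF Fl B S inc R c0 c2) (d : PD Fl B φ inc R D c1 c2 SA SC fa fc BA BC)
    (l J K : ℕ) (hJ : ((1 : ℝ) / 2) ^ J * B ≤ φ) (hK : ((1 : ℝ) / 2) ^ (l + K * R) * B ≤ φ) :
    S (KK Fl fa fc l J) ≤ S Fl + 2 * N * c0 +
      ∑ k ∈ range K, (N * (c1 + bad c2 (BC J) (l + k * R)) + (N + 1) * c0) := by
  have hB0 : 0 ≤ B := d.hφ.le.trans d.hφB
  have hF1 : Fl ≤ Fl + fam (sc l (fc J)) := Multiset.le_add_right _ _
  have hA1 : Adm Fl B (Fl + fam (sc l (fc J)) + fam (sc J (fa l))) :=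
    (d.adm3 J J l l J).sub (by rw [add_assoc]; exact Multiset.le_add_right _ _)
      (Multiset.le_add_right _ _)
  have hFl0 : fam (flr (N := N) φ) ≤ Fl := by rw [d.hFl]
  have h1 := h.abs_fam (Fl + fam (sc l (fc J))) (sc J (fa l)) hA1 hF1 (fun i => by
    refine InB.flr d.hφ (hFl0.trans hF1) fun c => ?_
    unfold sc
    rw [Pi.smul_apply, smul_eq_mul, abs_mul, abs_of_nonneg (by positivity)]
    have h2 := d.fab l i c
    have h3 : (0 : ℝ) ≤ (1 / 2) ^ J := by positivity
    nlinarith)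
  have hAd : ∀ a b : ℕ, Adm Fl B (Fl + fam (sc a (fc J)) + fam (sc b (fc J))) := by
    intro a b
    have h3 := d.adm4 0 a b 0 l J J J
    refine h3.sub (by rw [add_assoc]; exact Multiset.le_add_right _ _) ?_
    have e1 : Fl + fam (sc 0 (fa l)) + fam (sc a (fc J)) + fam (sc b (fc J)) + fam (sc 0 (fc J)) =
        Fl + fam (sc a (fc J)) + fam (sc b (fc J)) + (fam (sc 0 (fa l)) + fam (sc 0 (fc J))) := by
      abel
    rw [e1]
    exact Multiset.le_add_right _ _
  have key : ∀ K : ℕ, S (Fl + fam (sc l (fc J))) ≤ S (Fl + fam (sc (l + K * R) (fc J))) +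
      ∑ k ∈ range K, (N * (c1 + bad c2 (BC J) (l + k * R)) + (N + 1) * c0) := by
    intro K
    induction K with
    | zero => simp
    | succ K ih =>
      rw [Finset.sum_range_succ]
      have e2 : l + (K + 1) * R = l + K * R + R := by ring
      rw [e2]
      set l' := l + K * R with hl'
      have h4 : S (Fl + fam (sc l' (fc J))) ≤ S (Fl + fam (sc (l' + R) (fc J))) +
          N * (c1 + bad c2 (BC J) l') + (N + 1) * c0 := by
        refine h.refine Fl (fc J) l' _ le_rfl (hAd _ _) fun i => ?_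
        have hF' : Fl ≤ Fl + fam (sc (l' + R) (fc J)) := Multiset.le_add_right _ _
        have hadm := sc_sub_adm i hF' (hAd (l' + R) l')
        have hown : InB (Fl + fam (sc (l' + R) (fc J))) (((1 : ℝ) / 2) ^ (l' + R) • fc J i) :=
          InB.mem i (Multiset.mem_add.mpr (Or.inr (mem_fam (sc (l' + R) (fc J)) i)))
        unfold bad
        split_ifs with hb
        · have h1 := h.triv _ _ hadm hF' (by
            have h2 : ((1 : ℝ) / 2) ^ R • (((1 : ℝ) / 2) ^ l' • fc J i) =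
                ((1 : ℝ) / 2) ^ (l' + R) • fc J i := by
              rw [smul_smul, ← pow_add, add_comm R l']
            rw [h2]
            exact hown)
          linarith [d.hc1]
        · have h1 := d.hC J l' i hb _ hF' hadm ?_ hown
          · linarith
          · intro a ha
            refine InB.flr d.hφ (hFl0.trans hF') fun c => ?_
            rw [Pi.smul_apply, smul_eq_mul, abs_mul, abs_of_nonneg (by positivity)]
            have h2 := d.sab l' a ha c
            have h3 := half_le (show J ≤ J + D by omega)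
            have h5 : (0 : ℝ) ≤ (1 / 2) ^ (J + D) := by positivity
            calc ((1 : ℝ) / 2) ^ (J + D) * |a c| ≤ (1 / 2) ^ (J + D) * B :=
                  mul_le_mul_of_nonneg_left h2 h5
              _ ≤ (1 / 2) ^ J * B := mul_le_mul_of_nonneg_right h3 hB0
              _ ≤ φ := hJ
      linarith
  have h5 := key K
  have h6 := h.abs_fam Fl (sc (l + K * R) (fc J))
    ((hAd (l + K * R) 0).sub (Multiset.le_add_right _ _) (Multiset.le_add_right _ _)) le_rfl
    (fun i => by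
      refine InB.flr d.hφ hFl0 fun c => ?_
      unfold sc
      rw [Pi.smul_apply, smul_eq_mul, abs_mul, abs_of_nonneg (by positivity)]
      have h2 := d.fcb J i c
      have h3 : (0 : ℝ) ≤ (1 / 2) ^ (l + K * R) := by positivity
      nlinarith)
  have e3 : S (KK Fl fa fc l J) = S (Fl + fam (sc l (fc J)) + fam (sc J (fa l))) := rfl
  rw [e3]
  linarith

/-- **THE PATH**, for one root `l` -/
theorem path (h : PF Fl B S inc R c0 c2) (d : PD Fl B φ inc R D c1 c2 SA SC fa fc BA BC)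
    (l j0 I Ke : ℕ) (Ki : ℕ → ℕ)
    (hKi : ∀ i < I, ∀ i', ∃ x : Fin N → ℝ, fc (j0 + i * R) i' = ∑ k, x k • fc (j0 + i * R + R) k ∧
      ∀ k, |x k| ≤ 2 ^ (Ki i * R))
    (hJ : ((1 : ℝ) / 2) ^ (j0 + I * R) * B ≤ φ) (hK : ((1 : ℝ) / 2) ^ (l + Ke * R) * B ≤ φ) :
    S (KK Fl fa fc l j0) ≤ S Fl +
      (∑ i ∈ range I, ((N * (c1 + bad c2 (BA l) (j0 + i * R)) + (3 * N + 1) * c0) +
        ∑ k ∈ range (Ki i), (N * (c1 + bad c2 (BC (j0 + i * R)) (l + k * R)) + (N + 1) * c0))) +
      (2 * N * c0 +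
        ∑ k ∈ range Ke, (N * (c1 + bad c2 (BC (j0 + I * R)) (l + k * R)) + (N + 1) * c0)) := by
  have key : ∀ I' ≤ I, S (KK Fl fa fc l j0) ≤ S (KK Fl fa fc l (j0 + I' * R)) +
      (∑ i ∈ range I', ((N * (c1 + bad c2 (BA l) (j0 + i * R)) + (3 * N + 1) * c0) +
        ∑ k ∈ range (Ki i), (N * (c1 + bad c2 (BC (j0 + i * R)) (l + k * R)) + (N + 1) * c0))) := by
    intro I' hI'
    induction I' with
    | zero => simp
    | succ I' ih =>
      have h1 := ih (by omega)
      have h2 := stepAC h d l (j0 + I' * R) (Ki I') (hKi I' (by omega))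
      have e1 : j0 + (I' + 1) * R = j0 + I' * R + R := by ring
      rw [Finset.sum_range_succ, e1]
      linarith
  have h1 := key I le_rfl
  have h2 := stepE h d l (j0 + I * R) Ke hJ hK
  linarith

end

end Pool.Agent.Helper78.FW
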