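import Pool.Agent.Helper78.FW.FinA

/-!
# The costs of the rows: gap levels, sum over the spectators (ns_notes_58, row [PX])

`triv_row` : the trivial bound of the sum of the increments.  `rows_hA` : the hypothesis `hA` of `finA` from the
bounds for the single rows at the node levels.
-/

set_option autoImplicit false

namespace Pool.Agent.Helper78.FW

open Finset Matrix Pool.Agent.Helper69.RK Pool.Agent.Helper61.GL Pool.Agent.Helper15.VW
open Pool.Agent.Helper46.WF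

variable {N : ℕ}

/-- the trivial bound of a row -/
theorem triv_row {Ω δ : Type} [Fintype Ω] (μ : Ω → ℝ) (hμ : ∀ ω, 0 ≤ μ ω) (hm : mass μ = 1)
    (z : Ω → Fin N → ℝ) (Y : Ω → δ) {φ B : ℝ} (hφ : 0 < φ) {g R0 R D : ℕ} (hg : R0 ≤ g) (hRR : R ≤ R0)
    (hB : B ≤ φ * 2 ^ R0) {V W : ℕ → Finset (Fin N → ℝ)} {m j0 I : ℕ} {v : Fin N → ℝ} (hv : v ∈ V m)
    (Z : ℕ → Multiset (Fin N → ℝ))
    (h : ∀ t < I, Okb (fam (flr φ)) B R D V W m (j0 + t * R) v (Z t)) :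
    ∑ t ∈ range I, IZ μ z Y g R0 (Z t) (((1 : ℝ) / 2) ^ (j0 + t * R) • v) ≤ I * (R + cT N N) := by
  have hpf := pf_inst μ hμ hm z Y φ B hφ g R0 R hg hRR hB
  have h1 : ∀ t ∈ range I, IZ μ z Y g R0 (Z t) (((1 : ℝ) / 2) ^ (j0 + t * R) • v) ≤ R + cT N N := by
    intro t ht
    have h2 := h t (Finset.mem_range.mp ht)
    refine hpf.triv (Z t) _ h2.adm h2.fl ?_
    have h3 := h2.own v hv
    rw [smul_smul, ← pow_add, add_comm R]
    exact h3
  refine (Finset.sum_le_sum h1).trans (le_of_eq ?_)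
  rw [Finset.sum_const, Finset.card_range, nsmul_eq_mul]

/-- **THE COSTS OF THE LEVELS**: node levels `NL` and gap levels; `κ0` are the costs which are common to all
spectators -/
theorem rows_hA {Λ χ β : Type} [Fintype Λ] {B' : ℕ} (l : Λ → ℝ) (hl : ∀ w, 0 ≤ l w) (Fp : Λ → χ)
    (z : Λ → Fin N → ℝ) (x : ℕ → Λ → Fin B' → β) (V : ℕ → β → Fin N → Fin N → ℝ) (S : Finset (Fin B'))
    (WC : Λ → ℕ → Finset (Fin N → ℝ)) (φ B : ℝ) (hφ : 0 < φ) (g R0 R D : ℕ) (hg : R0 ≤ g)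
    (hRR : R ≤ R0) (hB : B ≤ φ * 2 ^ R0) (c1 : ℝ) (hc1 : cT N N ≤ c1) (M j0 l0 I : ℕ) (cD : ℝ) (hcD : 0 ≤ cD)
    (NL : ℕ → Prop) [DecidablePred NL] (κ0 : Λ → ℕ → ℝ) (κ : Fin B' → Λ → ℕ → ℝ)
    (hκ : ∀ w, l w ≠ 0 → ∀ m < M, NL m → ∀ a ∈ S, 0 ≤ κ a w m)
    (hrow : ∀ w, l w ≠ 0 → ∀ m < M, NL m → l0 ≤ m → ∀ a ∈ S, ∀ i, ∀ G : Finset ℕ, G ⊆ range M →
      ∀ Z : ℕ → Multiset (Fin N → ℝ),
      (∀ t < I, Okb (fam (flr φ)) B R D (fun m' => WS (V m') (x m' w) S) (VG (WC w) G) m (j0 + t * R)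
        (V m (x m w a) i) (Z t)) →
      ∑ t ∈ range I, IZ (cw l Fp w) z (fun _ => ()) g R0 (Z t) (((1 : ℝ) / 2) ^ (j0 + t * R) • V m (x m w a) i) ≤
        c1 * I + (κ0 w m + κ a w m) + cD * (range M \ G).card) :
    ∀ w, l w ≠ 0 → ∀ m < M, l0 ≤ m → ∀ v ∈ WS (V m) (x m w) S, ∀ G : Finset ℕ, G ⊆ range M →
      ∀ Z : ℕ → Multiset (Fin N → ℝ),
      (∀ t < I, Okb (fam (flr φ)) B R D (fun m' => WS (V m') (x m' w) S) (VG (WC w) G) m (j0 + t * R) v (Z t)) →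
      ∑ t ∈ range I, IZ (cw l Fp w) z (fun _ => ()) g R0 (Z t) (((1 : ℝ) / 2) ^ (j0 + t * R) • v) ≤
        c1 * I + (if NL m then κ0 w m + ∑ a ∈ S, κ a w m else R * I) + cD * (range M \ G).card := by
  intro w hw m hm hlm v hv G hG Z hZ
  have hcd : 0 ≤ cD * (range M \ G).card := mul_nonneg hcD (Nat.cast_nonneg _)
  by_cases h : NL m
  · rw [if_pos h]
    obtain ⟨a, ha, i, rfl⟩ := mem_WS.mp hv
    have h1 := hrow w hw m hm h hlm a ha i G hG Z hZ
    have h2 := Finset.single_le_sum (f := fun a => κ a w m) (fun b hb => hκ w hw m hm h b hb) ha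
    beta_reduce at h2
    linarith
  · rw [if_neg h]
    have h1 := triv_row (cw l Fp w) (fun ω => cw_nonneg l Fp hl w ω) (cw_sum l Fp hl w hw) z (fun _ => ()) hφ
      hg hRR hB hv Z hZ
    have h2 : (I : ℝ) * (R + cT N N) ≤ c1 * I + R * I := by
      have h3 := mul_le_mul_of_nonneg_left hc1 (Nat.cast_nonneg I : (0 : ℝ) ≤ I)
      nlinarith
    linarith

/-- the mean of the costs of the levels -/
theorem rows_mean {Λ : Type} [Fintype Λ] {B' : ℕ} (l : Λ → ℝ) (hlm : mass l = 1)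
    (S : Finset (Fin B')) (M I R : ℕ) (NL : ℕ → Prop) [DecidablePred NL] (κ0 : Λ → ℕ → ℝ)
    (κ : Fin B' → Λ → ℕ → ℝ) :
    ∑ w, l w * ∑ m ∈ range M, (if NL m then κ0 w m + ∑ a ∈ S, κ a w m else (R : ℝ) * I) =
      ∑ m ∈ (range M).filter NL, ∑ w, l w * κ0 w m + ∑ a ∈ S, ∑ m ∈ (range M).filter NL, ∑ w, l w * κ a w m +
        ((range M).filter fun m => ¬ NL m).card * (R * I) := by
  have h0 : ∀ w, ∑ m ∈ range M, (if NL m then κ0 w m + ∑ a ∈ S, κ a w m else (R : ℝ) * I) =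
      ∑ m ∈ (range M).filter NL, κ0 w m + ∑ a ∈ S, ∑ m ∈ (range M).filter NL, κ a w m +
        ((range M).filter fun m => ¬ NL m).card * (R * I) := by
    intro w
    rw [← Finset.sum_filter_add_sum_filter_not (range M) NL]
    congr 1
    · rw [Finset.sum_congr rfl fun m hm => if_pos (Finset.mem_filter.mp hm).2, Finset.sum_add_distrib]
      congr 1
      exact Finset.sum_comm
    · rw [Finset.sum_congr rfl fun m hm => if_neg (Finset.mem_filter.mp hm).2, Finset.sum_const, nsmul_eq_mul]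
  rw [Finset.sum_congr rfl fun w _ => by rw [h0 w]]
  simp only [mul_add, Finset.sum_add_distrib]
  have h1 : mass l = ∑ w, l w := rfl
  rw [← Finset.sum_mul, ← h1, hlm, one_mul]
  congr 1
  simp only [Finset.mul_sum]
  congr 1
  · rw [Finset.sum_comm]
  · rw [Finset.sum_comm]
    refine Finset.sum_congr rfl fun a _ => ?_
    rw [Finset.sum_comm]

end Pool.Agent.Helper78.FW
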