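import Pool.Agent.Helper61.FW.Cfin
import Pool.Agent.Helper78.FW.Row
import Pool.Agent.Helper25.FA.Win

/-!
# One side and its mirror image: the hypotheses `hA`, `hC` of `cfin`

`RowsOK` : the bound of the rows of the left side, along the progression of levels `j0 + t R`.  `RowsOK.hA`,
`RowsOK.hC` : the two hypotheses of `cfin`, the second from the same statement for the mirror image.
-/

set_option autoImplicit false

namespace Pool.Agent.Helper78.FW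

open Finset Pool.Agent.Helper69.RK Pool.Agent.Helper46.WF Pool.Agent.Helper58.VW Pool.Agent.Helper15.VW
open Pool.Agent.Helper25.FA Pool.Agent.Helper61.FW Pool.Agent.Helper99.FW
open Pool.Agent.Helper61.GL hiding fl

variable {Ω φ α β R R' : Type} [Fintype Ω] {N k K : ℕ} {D : ED Ω φ α β N} {Λ : Type} [Fintype Λ] {l : Λ → ℝ}
  {en : Fin (k + 2 * K) → Fin (k + 2 * K) → Λ → Ω}

/-- the label of the spectators of the mirror image is equivalent -/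
theorem cw_mir (a0 b0 : Fin (k + 2 * K)) {w : Λ} (hw : l w ≠ 0) :
    cw l (Fp D.mir (fun b a => en a b) b0 a0) w = cw l (Fp D en a0 b0) w := by
  refine cw_iff l _ _ ?_ w hw
  intro w w' _ _
  have h1 : ∀ x, Fp D.mir (fun b a => en a b) b0 a0 x =
      ((fun b => D.Q (en a0 b.1 x), fun a => D.P (en a.1 b0 x)), D.F (en a0 b0 x)) := fun x => rfl
  have h2 : ∀ x, Fp D en a0 b0 x =
      ((fun a => D.P (en a.1 b0 x), fun b => D.Q (en a0 b.1 x)), D.F (en a0 b0 x)) := fun x => rfl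
  rw [h1, h1, h2, h2]
  simp only [Prod.mk.injEq]
  tauto

/-- the bound of the rows of the left side along the levels `j0 + t R` -/
def RowsOK (D : ED Ω φ α β N) (l : Λ → ℝ) (en : Fin (k + 2 * K) → Fin (k + 2 * K) → Λ → Ω)
    (a0 b0 : Fin (k + 2 * K)) (SL : Sd φ α R N) (SR : Sd φ β R' N) (F b R₀ I j0 M : ℕ) (c1 cD : ℝ)
    (κ : Λ → ℕ → ℝ) : Prop :=
  ∀ w, l w ≠ 0 → ∀ m < M, ∀ v ∈ WSd SL (spc k K) (fun a => D.P (en a b0 w)) m,
    ∀ G : Finset ℕ, G ⊆ range M → ∀ Z : ℕ → Multiset (Fin N → ℝ),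
    (∀ t < I, Okb (fam (flr ((1 / 2) ^ F))) (2 ^ b) R₀ R₀ (WSd SL (spc k K) (fun a => D.P (en a b0 w)))
      (VG (WSd SR (spc k K) (fun b => D.Q (en a0 b w))) G) m (j0 + t * R₀) v (Z t)) →
    ∑ t ∈ range I, IZ (cw l (Fp D en a0 b0) w) (fun w => D.z (en a0 b0 w)) (fun _ => ()) (F + b + R₀) (F + b + R₀)
      (Z t) (((1 : ℝ) / 2) ^ (j0 + t * R₀) • v) ≤ c1 * I + κ w m + cD * (range M \ G).card

/-- the hypothesis `hA` of `cfin` -/
theorem RowsOK.hA {a0 b0 : Fin (k + 2 * K)} {SL : Sd φ α R N} {SR : Sd φ β R' N} {F b R₀ I M : ℕ} {c1 cD : ℝ}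
    {κ : Λ → ℕ → ℝ} (h : RowsOK D l en a0 b0 SL SR F b R₀ I 0 M c1 cD κ) :
    ∀ w, l w ≠ 0 → ∀ m < M, 0 ≤ m → ∀ v ∈ WSd SL (spc k K) (fun a => D.P (en a b0 w)) m,
      ∀ G : Finset ℕ, G ⊆ range M → ∀ Z : ℕ → Multiset (Fin N → ℝ),
      (∀ t < I, Okb (fam (flr ((1 / 2) ^ F))) (2 ^ b) R₀ R₀ (WSd SL (spc k K) (fun a => D.P (en a b0 w)))
        (VG (WSd SR (spc k K) (fun b => D.Q (en a0 b w))) G) m (0 + t * R₀) v (Z t)) →
      ∑ t ∈ range I, IZ (cw l (Fp D en a0 b0) w) (fun w => D.z (en a0 b0 w)) (fun _ => ()) (F + b + R₀) (F + b + R₀)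
        (Z t) (((1 : ℝ) / 2) ^ (0 + t * R₀) • v) ≤ c1 * I + κ w m + cD * (range M \ G).card :=
  fun w hw m hm _ v hv G hG Z hZ => h w hw m hm v hv G hG Z hZ

/-- the hypothesis `hC` of `cfin` -/
theorem RowsOK.hC {a0 b0 : Fin (k + 2 * K)} {SL : Sd φ α R N} {SR : Sd φ β R' N} {F b R₀ lam Ke M : ℕ}
    {c1 cD : ℝ} {κ : Λ → ℕ → ℝ}
    (h : ∀ k₁ < Ke, RowsOK D.mir l (fun b a => en a b) b0 a0 SR SL F b R₀ lam (k₁ * R₀) M c1 cD κ) :
    ∀ w, l w ≠ 0 → ∀ j < M, 0 ≤ j → ∀ v ∈ WSd SR (spc k K) (fun b => D.Q (en a0 b w)) j,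
      ∀ G : Finset ℕ, G ⊆ range M → ∀ k₁ < Ke, ∀ Z : ℕ → Multiset (Fin N → ℝ),
      (∀ u < lam, Okb (fam (flr ((1 / 2) ^ F))) (2 ^ b) R₀ R₀ (WSd SR (spc k K) (fun b => D.Q (en a0 b w)))
        (VG (WSd SL (spc k K) (fun a => D.P (en a b0 w))) G) j (0 + (u + k₁) * R₀) v (Z u)) →
      ∑ u ∈ range lam, IZ (cw l (Fp D en a0 b0) w) (fun w => D.z (en a0 b0 w)) (fun _ => ()) (F + b + R₀)
        (F + b + R₀) (Z u) (((1 : ℝ) / 2) ^ (0 + (u + k₁) * R₀) • v) ≤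
        c1 * lam + κ w j + cD * (range M \ G).card := by
  intro w hw j hj _ v hv G hG k₁ hk Z hZ
  have e : ∀ u, 0 + (u + k₁) * R₀ = k₁ * R₀ + u * R₀ := fun u => by ring
  simp only [e] at hZ ⊢
  have h1 := h k₁ hk w hw j hj v hv G hG Z hZ
  rw [cw_mir a0 b0 hw] at h1
  exact h1

/-- **the rows of one side**: gap levels, sum over the spectators -/
theorem rowsOK_of (hl : ∀ w, 0 ≤ l w) {a0 b0 : Fin (k + 2 * K)} {SL : Sd φ α R N} {SR : Sd φ β R' N}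
    {F b R₀ I j0 M : ℕ} {c1 cD : ℝ} (hc1 : cT N N ≤ c1) (hcD : 0 ≤ cD) (NL : ℕ → Prop) [DecidablePred NL]
    (κ0 : Λ → ℕ → ℝ) (κ : Fin (k + 2 * K) → Λ → ℕ → ℝ)
    (hκ : ∀ w, l w ≠ 0 → ∀ m < M, NL m → ∀ a ∈ spc k K, 0 ≤ κ a w m)
    (hrow : ∀ w, l w ≠ 0 → ∀ m < M, NL m → ∀ a ∈ spc k K, ∀ i, ∀ G : Finset ℕ, G ⊆ range M →
      ∀ Z : ℕ → Multiset (Fin N → ℝ),
      (∀ t < I, Okb (fam (flr ((1 / 2) ^ F))) (2 ^ b) R₀ R₀ (WSd SL (spc k K) (fun a => D.P (en a b0 w)))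
        (VG (WSd SR (spc k K) (fun b => D.Q (en a0 b w))) G) m (j0 + t * R₀)
        ((SL.bL m (D.P (en a b0 w))).fr i) (Z t)) →
      ∑ t ∈ range I, IZ (cw l (Fp D en a0 b0) w) (fun w => D.z (en a0 b0 w)) (fun _ => ()) (F + b + R₀)
        (F + b + R₀) (Z t) (((1 : ℝ) / 2) ^ (j0 + t * R₀) • (SL.bL m (D.P (en a b0 w))).fr i) ≤
        c1 * I + (κ0 w m + κ a w m) + cD * (range M \ G).card) :
    RowsOK D l en a0 b0 SL SR F b R₀ I j0 M c1 cD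
      (fun w m => if NL m then κ0 w m + ∑ a ∈ spc k K, κ a w m else R₀ * I) := by
  have hφ : (0 : ℝ) < (1 / 2) ^ F := by positivity
  have hB : (2 : ℝ) ^ b ≤ (1 / 2) ^ F * 2 ^ (F + b + R₀) := by
    rw [one_div, inv_pow, pow_add, pow_add]
    have h5 : (1 : ℝ) ≤ 2 ^ R₀ := one_le_pow₀ (by norm_num)
    have h6 : (0 : ℝ) < 2 ^ F := by positivity
    have h7 : (0 : ℝ) < 2 ^ b := by positivity
    field_simp
    nlinarith
  intro w hw m hm v hv G hG Z hZ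
  exact rows_hA l hl (Fp D en a0 b0) (fun w => D.z (en a0 b0 w)) (fun _ w a => D.P (en a b0 w))
    (fun m q => (SL.bL m q).fr) (spc k K) (fun w => WSd SR (spc k K) (fun b => D.Q (en a0 b w)))
    ((1 / 2) ^ F) (2 ^ b) hφ (F + b + R₀) (F + b + R₀) R₀ R₀ le_rfl (by omega) hB c1 hc1 M j0 0 I cD hcD NL κ0 κ hκ
    (fun w hw m hm hNL _ a ha i G hG Z hZ => hrow w hw m hm hNL a ha i G hG Z hZ) w hw m hm (Nat.zero_le m) v hv G
    hG Z hZ

end Pool.Agent.Helper78.FW
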