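import Pool.Agent.Helper78.FW.Badg
import Pool.Agent.Helper9.FW.Seenx

/-!
# The bad levels of a selected block of the chain

`shift_bad` : along a progression which is shifted by a function of the point, every level is met at most once.
`bad_all` : the block is a function of the windows of the chain; `G` any set of levels.
-/

set_option autoImplicit false

namespace Pool.Agent.Helper78.FW

open Finset Pool.Agent.Helper69.RK Pool.Agent.Helper46.WF Pool.Agent.Helper58.VW Pool.Agent.Helper58.TR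
open Pool.Agent.Helper25.FA Pool.Agent.Helper61.FW Pool.Agent.Helper99.FW Pool.Agent.Helper58.FW
open Pool.Agent.Helper61.GL hiding fl
open Pool.Agent.Helper9.FW

/-- a shifted progression -/
theorem shift_bad {Ω : Type} [Fintype Ω] (μ : Ω → ℝ) (hμ : ∀ ω, 0 ≤ μ ω) (VV : Ω → Prop) (X : Ω → ℕ)
    (l0 D L M : ℕ) (hD : 1 ≤ D) (hX : ∀ ω, μ ω ≠ 0 → VV ω → l0 + L * D + X ω ≤ M) (B : ℕ → Ω → Prop) :
    ∑ t ∈ range L, mass (res μ (fun ω => ¬ (VV ω ∧ ¬ B (l0 + t * D + X ω) ω))) ≤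
      L * Pw μ (fun ω => ¬ VV ω) + ∑ J ∈ range M, Pw μ (B J) := by
  classical
  have h1 : ∑ t ∈ range L, mass (res μ (fun ω => ¬ (VV ω ∧ ¬ B (l0 + t * D + X ω) ω))) =
      ∑ ω, ∑ t ∈ range L, (if ¬ (VV ω ∧ ¬ B (l0 + t * D + X ω) ω) then μ ω else 0) := by
    rw [Finset.sum_comm]
    refine Finset.sum_congr rfl fun t _ => ?_
    unfold mass
    refine Finset.sum_congr rfl fun ω _ => ?_
    unfold res
    split_ifs <;> rfl
  have h2 : L * Pw μ (fun ω => ¬ VV ω) + ∑ J ∈ range M, Pw μ (B J) =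
      ∑ ω, ((L : ℝ) * (if ¬ VV ω then μ ω else 0) + ∑ J ∈ range M, (if B J ω then μ ω else 0)) := by
    rw [Finset.sum_add_distrib, ← Finset.mul_sum, Finset.sum_comm (s := (univ : Finset Ω))]
    congr 1
    · congr 1
      unfold Pw
      refine Finset.sum_congr rfl fun ω _ => ?_
      by_cases h : VV ω
      · rw [if_neg (not_not.2 h), if_neg (not_not.2 h)]
      · rw [if_pos h, if_pos h]
  rw [h1, h2]
  refine Finset.sum_le_sum fun ω _ => ?_
  have h0 := hμ ω
  have hs : 0 ≤ ∑ J ∈ range M, (if B J ω then μ ω else 0) :=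
    Finset.sum_nonneg fun J _ => by split_ifs <;> [exact h0; exact le_rfl]
  by_cases hz : μ ω = 0
  · rw [hz]
    simp
  by_cases hv : VV ω
  · rw [if_neg (not_not.2 hv), mul_zero, zero_add]
    have h3 : ∀ t ∈ range L, (if ¬ (VV ω ∧ ¬ B (l0 + t * D + X ω) ω) then μ ω else 0) =
        (if B (l0 + t * D + X ω) ω then μ ω else 0) := by
      intro t _
      by_cases hb : B (l0 + t * D + X ω) ω
      · rw [if_pos hb, if_pos fun h => h.2 hb]
      · rw [if_neg hb, if_neg (not_not.2 ⟨hv, hb⟩)]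
    rw [Finset.sum_congr rfl h3]
    have hinj : Set.InjOn (fun t => l0 + t * D + X ω) (range L : Set ℕ) := by
      intro t _ t' _ e
      have e1 : t * D = t' * D := by
        have : l0 + t * D + X ω = l0 + t' * D + X ω := e
        omega
      exact Nat.eq_of_mul_eq_mul_right hD e1
    rw [← Finset.sum_image (f := fun J => if B J ω then μ ω else 0) hinj]
    refine Finset.sum_le_sum_of_subset_of_nonneg ?_ fun J _ _ => by split_ifs <;> [exact h0; exact le_rfl]
    intro J hJ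
    rw [Finset.mem_image] at hJ
    obtain ⟨t, ht, rfl⟩ := hJ
    rw [Finset.mem_range] at ht ⊢
    have h4 := hX ω hz hv
    have h5 : (t + 1) * D ≤ L * D := Nat.mul_le_mul_right D ht
    rw [add_mul, one_mul] at h5
    omega
  · rw [if_pos hv]
    have h3 : ∀ t ∈ range L, (if ¬ (VV ω ∧ ¬ B (l0 + t * D + X ω) ω) then μ ω else 0) ≤ μ ω := by
      intro t _
      split_ifs
      · exact h0
      · exact le_rfl
    have h4 := Finset.sum_le_sum h3
    rw [Finset.sum_const, Finset.card_range, nsmul_eq_mul] at h4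
    linarith

variable {Ω φ α β R R' : Type} [Fintype Ω] {N k K : ℕ} {D : ED Ω φ α β N} {Λ : Type} [Fintype Λ] {l : Λ → ℝ}
  {en : Fin (k + 2 * K) → Fin (k + 2 * K) → Λ → Ω} {E : ℝ}

/-- one level of a fixed block -/
theorem bad_lvl (hr : AR D l en E) (hx : XA l en) {SR : Sd φ β R N} {S' C₀ : ℕ} {r g : ℝ}
    (a0 b0 a : Fin (k + 2 * K)) (G : Finset ℕ) (w : Λ) (hw : l w ≠ 0) (b b1 : Fin K) (J : ℕ) :
    Pw (cw l (Fp D en a0 b0) w)
      (fun x => J ∉ G ∨ BdQ SR S' C₀ r g D en a0 w J (D.Q (en a (car b 0) x)) (D.Q (en a (car b 1) x))) ≤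
    (if J ∈ G then 0 else 1) + bt SR S' C₀ r g D l en a0 b0 (car b1 0) (car b1 1) J w := by
  classical
  have hn : ∀ x, 0 ≤ cw l (Fp D en a0 b0) w x := fun x => cw_nonneg l _ hr.nn w x
  have hs : ∑ x, cw l (Fp D en a0 b0) w x = 1 := cw_sum l _ hr.nn w hw
  refine (Pw_or _ hn _ _).trans (add_le_add ?_ ?_)
  · by_cases hG : J ∈ G
    · rw [if_pos hG]
      refine le_of_eq ?_
      unfold Pw
      exact Finset.sum_eq_zero fun v _ => if_neg fun h => h hG
    · rw [if_neg hG]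
      exact Pw_le_one _ hn hs _
  · rw [bt_ex hr hx a0 b0 J w b1 b]
    unfold bt
    refine le_of_eq ?_
    unfold Pw
    refine Finset.sum_congr rfl fun x _ => ?_
    by_cases h0 : cw l (Fp D en a0 b0) w x = 0
    · rw [h0]
      split_ifs <;> rfl
    · have h3 := (cw_ne_zero _ _ h0).2
      beta_reduce
      rw [hr.sQ x h3 a a0 (car b 0), hr.sQ x h3 a a0 (car b 1)]

/-- **the bad levels of a selected block of the chain** -/
theorem bad_all [Fintype α] [Fintype R'] (hr : AR D l en E) (hx : XA l en) {SR : Sd φ β R N} {S' C₀ : ℕ} {r g : ℝ}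
    (a0 b0 a : Fin (k + 2 * K)) (ha : a ∈ spc k K) (T : ℕ → (α → Lb φ R') → α → R') (F : α → φ) (Tp : α → ℝ)
    (P ρ : ℕ) (o : ℕ → ℕ) (i0 s : ℕ) {δ : ℝ} (hδ : 0 ≤ δ) (mv : ℕ → Option (Fin (k + 2 * K))) (n : ℕ)
    (bl : (Fin n → Fin (2 ^ ρ) × R') → Fin K) (M : ℕ) (G : Finset ℕ) (w : Λ) (hw : l w ≠ 0) (b1 : Fin K)
    (VV : Lam Λ (Fin (k + 2 * K) → Ω) n → Prop) (X : Lam Λ (Fin (k + 2 * K) → Ω) n → ℕ) (l0 D' L : ℕ) (hD : 1 ≤ D')
    (hX : ∀ v, cb (chl D l en (nd T F Tp P o i0 s) b0 mv a n) (bs n) l (Fp D en a0 b0) w v ≠ 0 → VV v →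
      l0 + L * D' + X v ≤ M) :
    ∑ t ∈ range L, mass (res (cb (chl D l en (nd T F Tp P o i0 s) b0 mv a n) (bs n) l (Fp D en a0 b0) w)
      (fun v => ¬ (VV v ∧ ¬ (l0 + t * D' + X v ∉ G ∨ BdQ SR S' C₀ r g D en a0 w (l0 + t * D' + X v)
        (Qp D en a n (bl (Wch D en T F Tp P ρ o i0 s b0 a n v)) v 0)
        (Qp D en a n (bl (Wch D en T F Tp P ρ o i0 s b0 a n v)) v 1))))) ≤
    L * Pw (cb (chl D l en (nd T F Tp P o i0 s) b0 mv a n) (bs n) l (Fp D en a0 b0) w) (fun v => ¬ VV v) +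
      ((range M \ G).card + ∑ J ∈ range M, bt SR S' C₀ r g D l en a0 b0 (car b1 0) (car b1 1) J w +
        M * Ers D l en T F Tp P ρ o i0 s δ b0 mv a n (Fp D en a0 b0) w) := by
  classical
  have hν := chl_nonneg hr (nd T F Tp P o i0 s) b0 mv a n
  have hb := chl_bs hr (nd T F Tp P o i0 s) b0 mv a n
  have hcb := cb_nonneg hb (Fp D en a0 b0) hν w
  refine (shift_bad _ hcb VV X l0 D' L M hD hX (fun J v => J ∉ G ∨ BdQ SR S' C₀ r g D en a0 w J
        (Qp D en a n (bl (Wch D en T F Tp P ρ o i0 s b0 a n v)) v 0)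
        (Qp D en a n (bl (Wch D en T F Tp P ρ o i0 s b0 a n v)) v 1))).trans (add_le_add le_rfl ?_)
  have h1 := sel_x hr T F Tp P ρ o i0 s hδ b0 mv a n (Fp D en a0 b0)
    (fun w w' _ _ e => by rw [fp_P D en a0 b0 ha e]) hw (fun x : Λ => x) bl (range M)
    (fun J b x => J ∉ G ∨ BdQ SR S' C₀ r g D en a0 w J (D.Q (en a (car b 0) x)) (D.Q (en a (car b 1) x)))
    (fun J => (if J ∈ G then 0 else 1) + bt SR S' C₀ r g D l en a0 b0 (car b1 0) (car b1 1) J w)
    (fun J _ b => bad_lvl hr hx a0 b0 a G w hw b b1 J)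
  refine h1.trans (le_of_eq ?_)
  rw [Finset.sum_add_distrib, Finset.card_range]
  congr 2
  have h2 : ∀ J ∈ range M, (if J ∈ G then (0 : ℝ) else 1) = if J ∈ range M \ G then 1 else 0 := by
    intro J hJ
    by_cases hG : J ∈ G
    · rw [if_pos hG, if_neg fun h => (mem_sdiff.mp h).2 hG]
    · rw [if_neg hG, if_pos (mem_sdiff.mpr ⟨hJ, hG⟩)]
  rw [Finset.sum_congr rfl h2, Finset.sum_ite_mem, Finset.sum_const, nsmul_eq_mul, mul_one]
  congr 2
  exact Finset.inter_eq_right.mpr Finset.sdiff_subset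

end Pool.Agent.Helper78.FW
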