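import Pool.Agent.Helper78.FW.HA
import Pool.Agent.Helper6.FW.RowKI
import Pool.Agent.Helper58.FW.KA

/-!
# The rows of one side with the costs `kAF`
-/

set_option autoImplicit false

namespace Pool.Agent.Helper78.FW

open Finset Pool.Agent.Helper69.RK Pool.Agent.Helper46.WF Pool.Agent.Helper58.VW Pool.Agent.Helper58.TR
open Pool.Agent.Helper25.FA Pool.Agent.Helper61.FW Pool.Agent.Helper99.FW Pool.Agent.Helper58.FW
open Pool.Agent.Helper61.GL hiding fl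
open Pool.Agent.Helper92.W (fl)
open Pool.Agent.Helper9.FW Pool.Agent.Helper9.ND Pool.Agent.Helper92.FW
open Pool.Agent.Helper22.FW hiding cN
open Pool.Agent.Helper15.VW Pool.Agent.Helper15.VG
open Pool.Agent.Helper6.FW (by8 G0K off off_eq CK rowKI pvK psK)
open scoped Matrix

variable {Ω φ α β : Type} [Fintype Ω] [Fintype α] [Fintype β] {N k K : ℕ} {D : ED Ω φ α β N} {ρe η εQ ηQ c : ℝ}
  {tp : α → ℝ} {tq : β → ℝ} {Ap : α → Fin N → ℝ} {Cq : β → Fin N → ℝ} {Λ : Type} [Fintype Λ] {l : Λ → ℝ}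
  {en : Fin (k + 2 * K) → Fin (k + 2 * K) → Λ → Ω} {E : ℝ}

/-- **THE ROWS OF ONE SIDE** with the costs `kAF` -/
theorem rows_kAF (h : EdgD D ρe η εQ ηQ c tp tq Ap Cq) (FP : α → φ) {FQ : β → φ} (hFQ : ∀ ω, FQ (D.Q ω) = D.F ω)
    (hr : AR D l en E) (hx : XA l en) (a0 b0 : Fin (k + 2 * K)) (hK : 0 < K) {P ρw r S' L F b R : ℕ} {κ : ℝ}
    (hc : Cst N R ρw r ((1 / 2) ^ F) κ) (oL oR : ℕ → ℕ) {C₀ : ℕ} {δ : ℝ} (hδ : 0 ≤ δ) (hb : Bfr N ≤ 2 ^ b)
    (hLP : L * P ≤ D.n) {I j0 Xm : ℕ} (hX : 416 * (N : ℝ) ≤ (1 / 2) ^ F * 2 ^ Xm) (hM : j0 + I * R + Xm ≤ L * P)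
    (hn1 : N * (24 * K + 2) ≤ ((1 : ℝ) / 2) ^ F * 2 ^ D.n)
    (hn2 : N * (Kas N * 2 ^ (L * P)) ≤ ((1 : ℝ) / 2) ^ F * 2 ^ D.n) :
    RowsOK D l en a0 b0 (sdL D FP tp Ap P ρw R r ((1 / 2) ^ F) κ oL) (sdL D.mir FQ tq Cq P ρw R r ((1 / 2) ^ F) κ oR)
      F b R I j0 (L * P) (N * cF2 N 1 (CK N C₀) + cP N + cN N ((N + N + 1) * CK N C₀))
      (N * (R + cF3 N 1 (CK N C₀)))
      (kAF D l en FP tp Ap FQ tq Cq P ρw R r ((1 / 2) ^ F) κ oL oR S' C₀ L (mvs k K)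
        (fun a _ b v => (G0K D en a b0 v, off b (fun b v => Qp D en a (8 * K) b v) v)) δ
        (N * (R + cF3 N 1 (CK N C₀)))
        (N * (2 * (L * Real.logb 2 (Fintype.card (Rc N r))) + cF1 1 (CK N C₀)) +
          N * (R + cF3 N 1 (CK N C₀)) * (I * pvK R K) +
          (R + cT N ((N + N + 1) * CK N C₀)) * (I * psK N R K κ))
        (N * K) 0
        (N * (R + cF3 N 1 (CK N C₀)) * (I + (L * P : ℕ)) + (R + cT N ((N + N + 1) * CK N C₀)) * I)
        (R * I) R I a0 b0 ⟨0, hK⟩) := by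
  classical
  have hNr : (1 : ℝ) ≤ N := by exact_mod_cast hc.hN
  have hφ0 : (0 : ℝ) < (1 / 2) ^ F := by positivity
  have hpp : ((1 : ℝ) / 2) ^ F * 2 ^ F = 1 := by rw [← mul_pow]; norm_num
  have hC1' : (1 : ℝ) ≤ CK N C₀ := by
    have h1 := (Pool.Agent.Helper6.FW.CK_big (C₀ := C₀) hc.hN).1
    linarith
  have hC0 : 0 ≤ CK N C₀ := by linarith
  have hC1 : 0 ≤ (N + N + 1 : ℝ) * CK N C₀ := by positivity
  have hF3 : 0 ≤ cF3 N 1 (CK N C₀) := Pool.Agent.Helper6.FW.cF3_nonneg N 1 hC0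
  have hF1 : 0 ≤ cF1 1 (CK N C₀) := Pool.Agent.Helper70.FW.kcF1_nn hC0
  have hT0 : 0 ≤ cT N ((N + N + 1) * CK N C₀) := Pool.Agent.Helper6.FW.cT_nonneg N hC1
  have hRr : (0 : ℝ) ≤ R := Nat.cast_nonneg R
  have hIr : (0 : ℝ) ≤ I := Nat.cast_nonneg I
  have hcT1 : cT N N ≤ N * cF2 N 1 (CK N C₀) + cP N + cN N ((N + N + 1) * CK N C₀) :=
    Pool.Agent.Helper70.FW.kc1_ge N hC1'
  have hlog : 0 ≤ Real.logb 2 (Fintype.card (Rc N r)) := by
    have : Nonempty (Rc N r) := ⟨Pool.Agent.Helper9.ND.rc r 0⟩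
    have h2 : (1 : ℝ) ≤ Fintype.card (Rc N r) := by exact_mod_cast Fintype.card_pos
    exact Real.logb_nonneg (by norm_num) h2
  have hpv : 0 ≤ pvK R K := by
    unfold pvK
    have q2 : (1 : ℝ) ≤ 2 ^ R := one_le_pow₀ (by norm_num)
    have q3 : 1 / (2048 * (2 : ℝ) ^ R) ≤ 1 := by
      rw [div_le_one (by positivity)]
      linarith
    have q4 : (0 : ℝ) ≤ 1 / (2048 * (2 : ℝ) ^ R) := by positivity
    have q5 : (0 : ℝ) ≤ 1 - (1 / (2048 * (2 : ℝ) ^ R)) ^ 2 := by nlinarith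
    positivity
  have hps : 0 ≤ psK N R K κ := by
    unfold psK
    have q2 : (0 : ℝ) ≤ 1 - κ / (2 ^ 25 * ((N : ℝ) + 1) * ((2 : ℝ) ^ R) ^ 2) := by
      linarith [cst_p hc]
    positivity
  have hBR : (2 : ℝ) ^ b ≤ (1 / 2) ^ F * 2 ^ (F + b + R) := by
    rw [pow_add, pow_add, ← mul_assoc, ← mul_assoc, hpp, one_mul]
    exact le_mul_of_one_le_right (by positivity) (one_le_pow₀ (by norm_num))
  have hB512 : (512 : ℝ) ≤ 2 ^ b := by
    refine le_trans ?_ hb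
    unfold Bfr
    nlinarith
  have hi0 : ∀ Q : Prop, 0 ≤ e1_ind Q := fun Q => Pool.Agent.Helper31.EC.ind_nonneg _
  set c3 : ℝ := N * (R + cF3 N 1 (CK N C₀)) with hc3
  have hc3n : 0 ≤ c3 := by positivity
  refine rowsOK_of hr.nn hcT1 hc3n (fun m => m % P < S')
    (fun w m => c3 * ∑ J ∈ range (L * P), bt (sdL D.mir FQ tq Cq P ρw R r ((1 / 2) ^ F) κ oR) S' C₀ 270000
        ((1 / 2) ^ F) D l en a0 b0 (car ⟨0, hK⟩ 0) (car ⟨0, hK⟩ 1) J w +
      (N * (2 * (L * Real.logb 2 (Fintype.card (Rc N r))) + cF1 1 (CK N C₀)) + c3 * (I * pvK R K) +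
          (R + cT N ((N + N + 1) * CK N C₀)) * (I * psK N R K κ)))
    (fun a w m => kaF D l en FP tp Ap tq P ρw R r ((1 / 2) ^ F) κ oL (mvs k K)
        (fun a _ b v => (G0K D en a b0 v, off b (fun b v => Qp D en a (8 * K) b v) v)) δ (N * K) 0
        (c3 * (I + (L * P : ℕ)) + (R + cT N ((N + N + 1) * CK N C₀)) * I) (R * I) a0 b0 a w m) ?_ ?_
  · intro w hw m hm hNL a ha
    exact kaF_nonneg h hr FP P ρw R r ((1 / 2) ^ F) κ oL (mvs k K) _ hδ (by positivity) le_rfl (by positivity)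
      (by positivity) a0 b0 a hw m
  · intro w hw m hm hNL a ha i G hG Z hZ
    have hcard : (0 : ℝ) ≤ (range (L * P) \ G).card := Nat.cast_nonneg _
    have hbtn : 0 ≤ ∑ J ∈ range (L * P), bt (sdL D.mir FQ tq Cq P ρw R r ((1 / 2) ^ F) κ oR) S' C₀ 270000
        ((1 / 2) ^ F) D l en a0 b0 (car ⟨0, hK⟩ 0) (car ⟨0, hK⟩ 1) J w :=
      Finset.sum_nonneg fun J _ => bt_nonneg hr.nn _ S' C₀ _ _ a0 b0 _ _ J w
    have hEr : 0 ≤ Ers D l en (EG N ρw R r ((1 / 2) ^ F) κ (push D.P D.μ) tp Ap) FP tp P ρw oL (m / P) (m % P) δ b0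
        (mvs k K) a (8 * K) (Fp D en a0 b0) w :=
      ers_nonneg _ FP tp P ρw oL (m / P) (m % P) b0 (mvs k K) a (8 * K) (Fp D en a0 b0) hr hδ w
    have hdn1 : ∀ b : Fin K, 0 ≤ dfc D tq l en ((sdL D FP tp Ap P ρw R r ((1 / 2) ^ F) κ oL).nL m) (mvs k K) a0 b0 a b
        (fun v => (G0K D en a b0 v, off b (fun b v => Qp D en a (8 * K) b v) v)) w :=
      fun b => dfc_nonneg h hr _ (mvs k K) a0 b0 a b _ hw
    set d : ℝ := ∑ b, dfc D tq l en ((sdL D FP tp Ap P ρw R r ((1 / 2) ^ F) κ oL).nL m) (mvs k K) a0 b0 a b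
        (fun v => (G0K D en a b0 v, off b (fun b v => Qp D en a (8 * K) b v) v)) w with hd
    have hdn : 0 ≤ d := Finset.sum_nonneg fun b _ => hdn1 b
    have hka : kaF D l en FP tp Ap tq P ρw R r ((1 / 2) ^ F) κ oL (mvs k K)
        (fun a _ b v => (G0K D en a b0 v, off b (fun b v => Qp D en a (8 * K) b v) v)) δ (N * K) 0
        (c3 * (I + (L * P : ℕ)) + (R + cT N ((N + N + 1) * CK N C₀)) * I) (R * I) a0 b0 a w m =
        N * K * d + 0 + (c3 * (I + (L * P : ℕ)) + (R + cT N ((N + N + 1) * CK N C₀)) * I) *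
          Ers D l en (EG N ρw R r ((1 / 2) ^ F) κ (push D.P D.μ) tp Ap) FP tp P ρw oL (m / P) (m % P) δ b0
            (mvs k K) a (8 * K) (Fp D en a0 b0) w +
        R * I * e1_ind (¬ IsNd (cw (push D.P D.μ) ((sdL D FP tp Ap P ρw R r ((1 / 2) ^ F) κ oL).nL m)
          (D.P (en a b0 w))) tp m R ρw (cl m (tp (D.P (en a b0 w))))) := rfl
    by_cases hNd : IsNd (cw (push D.P D.μ) ((sdL D FP tp Ap P ρw R r ((1 / 2) ^ F) κ oL).nL m)
        (D.P (en a b0 w))) tp m R ρw (cl m (tp (D.P (en a b0 w))))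
    · have key := rowKI h FP hFQ hr hx a0 b0 ha hK hc oL oR hw hNd (S' := S') (C₀ := C₀) (B := 2 ^ b)
        (g := F + b + R) (R0 := F + b + R) le_rfl (by omega) hBR (by linarith) (L := L) (M := L * P) (I := I)
        (l0 := j0) (Xm := Xm) le_rfl hLP hX hM hn1 hn2 (i0 := i) hG Z hZ (d := d) (δ := δ) hdn hδ
        (fun b => by
          have h1 := Finset.single_le_sum (f := fun b => dfc D tq l en
            ((sdL D FP tp Ap P ρw R r ((1 / 2) ^ F) κ oL).nL m) (mvs k K) a0 b0 a b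
            (fun v => (G0K D en a b0 v, off b (fun b v => Qp D en a (8 * K) b v) v)) w)
            (fun b _ => hdn1 b) (Finset.mem_univ b)
          beta_reduce at h1
          rw [← hd] at h1
          have h2 : dfc D tq l en ((sdL D FP tp Ap P ρw R r ((1 / 2) ^ F) κ oL).nL m) (mvs k K) a0 b0 a b
            (fun v => (G0K D en a b0 v, off b (fun b v => Qp D en a (8 * K) b v) v)) w =
            2 * D.n - CH (cb (chl D l en
              ((sdL D FP tp Ap P ρw R r ((1 / 2) ^ F) κ oL).nL m) b0 (mvs k K) a (8 * K)) (bs (8 * K)) l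
                (Fp D en a0 b0) w)
              (fun v => fun e => fl D.n (tq (Qp D en a (8 * K) b v e)))
              (fun v => (G0K D en a b0 v, off b (fun b v => Qp D en a (8 * K) b v) v)) := rfl
          rw [h2] at h1
          linarith)
      rw [← hc3] at key
      refine key.trans ?_
      rw [hka]
      have h3 : 0 ≤ (R : ℝ) * I * e1_ind (¬ IsNd (cw (push D.P D.μ)
          ((sdL D FP tp Ap P ρw R r ((1 / 2) ^ F) κ oL).nL m)
          (D.P (en a b0 w))) tp m R ρw (cl m (tp (D.P (en a b0 w))))) := mul_nonneg (by positivity) (hi0 _)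
      linarith
    · have h1 := triv_row (cw l (Fp D en a0 b0) w) (fun x => cw_nonneg l _ hr.nn w x) (cw_sum l _ hr.nn w hw)
        (fun w => D.z (en a0 b0 w)) (fun _ => ()) hφ0 (g := F + b + R) (R0 := F + b + R) le_rfl (by omega) hBR
        (mem_WS.mpr ⟨a, ha, i, rfl⟩) Z hZ
      have h2 := mul_le_mul_of_nonneg_right hcT1 hIr
      have h5 : e1_ind (¬ IsNd (cw (push D.P D.μ)
          ((sdL D FP tp Ap P ρw R r ((1 / 2) ^ F) κ oL).nL m) (D.P (en a b0 w))) tp m R ρw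
            (cl m (tp (D.P (en a b0 w))))) = 1 := by
        unfold e1_ind
        rw [if_pos hNd]
      rw [hka, h5, mul_one]
      have p1 : 0 ≤ (N : ℝ) * K * d := by positivity
      have p2 : 0 ≤ (c3 * (I + (L * P : ℕ)) + (R + cT N ((N + N + 1) * CK N C₀)) * I) *
          Ers D l en (EG N ρw R r ((1 / 2) ^ F) κ (push D.P D.μ) tp Ap) FP tp P ρw oL (m / P) (m % P) δ b0
            (mvs k K) a (8 * K) (Fp D en a0 b0) w := mul_nonneg (by positivity) hEr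
      have p3 := mul_nonneg hc3n hbtn
      have p4 := mul_nonneg hc3n hcard
      have p5 : 0 ≤ (N : ℝ) * (2 * (L * Real.logb 2 (Fintype.card (Rc N r))) + cF1 1 (CK N C₀)) := by positivity
      have p6 : 0 ≤ c3 * (I * pvK R K) := by positivity
      have p7 : 0 ≤ (R + cT N ((N + N + 1) * CK N C₀)) * (I * psK N R K κ) := by positivity
      linarith

end Pool.Agent.Helper78.FW
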