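import Pool.Agent.Helper78.FW.Beta
import Pool.Agent.Helper25.FA.Kin

/-!
# The bad levels of a fixed block of the chain

The carriers of the block `b` of the chain which starts at row `a`, given the label of the spectators of the base point:
the sum over the levels of the probability that the level is not in `G` or that the pair of carriers is bad.
-/

set_option autoImplicit false

namespace Pool.Agent.Helper78.FW

open Finset Pool.Agent.Helper69.RK Pool.Agent.Helper46.WF Pool.Agent.Helper58.VW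
open Pool.Agent.Helper25.FA Pool.Agent.Helper61.FW Pool.Agent.Helper99.FW Pool.Agent.Helper58.FW
open Pool.Agent.Helper61.GL hiding fl

variable {Ω φ α β R η : Type} [Fintype Ω] {N k K : ℕ} {D : ED Ω φ α β N} {Λ : Type} [Fintype Λ] {l : Λ → ℝ}
  {en : Fin (k + 2 * K) → Fin (k + 2 * K) → Λ → Ω} {E : ℝ}

/-- the base of the chain of the array -/
theorem chl_bs (hr : AR D l en E) (nd : α → η) (b0 : Fin (k + 2 * K)) (mv : ℕ → Option (Fin (k + 2 * K)))
    (a : Fin (k + 2 * K)) (M : ℕ) : push (bs M) (chl D l en nd b0 mv a M) = l :=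
  law_bs l (row en a) _ _ hr.nn rfl M

theorem chl_nonneg (hr : AR D l en E) (nd : α → η) (b0 : Fin (k + 2 * K)) (mv : ℕ → Option (Fin (k + 2 * K)))
    (a : Fin (k + 2 * K)) (M : ℕ) (v : Lam Λ (Fin (k + 2 * K) → Ω) M) : 0 ≤ chl D l en nd b0 mv a M v :=
  law_nonneg l (row en a) _ _ hr.nn rfl M v

/-- **the bad levels of a fixed block** -/
theorem bad_hex (hr : AR D l en E) (hx : XA l en) {SR : Sd φ β R N} {S' C₀ : ℕ} {r g : ℝ} (nd : α → η)
    (a0 b0 a : Fin (k + 2 * K)) (mv : ℕ → Option (Fin (k + 2 * K))) (M' M : ℕ) (G : Finset ℕ) (w : Λ)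
    (hw : l w ≠ 0) (b b1 : Fin K) :
    ∑ J ∈ range M, Pw (cb (chl D l en nd b0 mv a M') (bs M') l (Fp D en a0 b0) w)
      (fun v => J ∉ G ∨ BdQ SR S' C₀ r g D en a0 w J (Qp D en a M' b v 0) (Qp D en a M' b v 1)) ≤
    (range M \ G).card + ∑ J ∈ range M, bt SR S' C₀ r g D l en a0 b0 (car b1 0) (car b1 1) J w := by
  classical
  have hν := chl_nonneg hr nd b0 mv a M'
  have hb := chl_bs hr nd b0 mv a M'
  set ν := chl D l en nd b0 mv a M' with hνd
  have hcb := cb_nonneg hb (Fp D en a0 b0) hν w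
  have hcs := cb_sum hb (Fp D en a0 b0) hν w hw
  have h1 : ∀ J ∈ range M, Pw (cb ν (bs M') l (Fp D en a0 b0) w)
      (fun v => J ∉ G ∨ BdQ SR S' C₀ r g D en a0 w J (Qp D en a M' b v 0) (Qp D en a M' b v 1)) ≤
      (if J ∈ range M \ G then 1 else 0) + bt SR S' C₀ r g D l en a0 b0 (car b1 0) (car b1 1) J w := by
    intro J hJ
    refine (Pw_or _ hcb _ _).trans (add_le_add ?_ ?_)
    · by_cases hG : J ∈ G
      · have e1 : (if J ∈ range M \ G then (1 : ℝ) else 0) = 0 := if_neg fun h => (mem_sdiff.mp h).2 hG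
        rw [e1]
        refine le_of_eq ?_
        unfold Pw
        exact Finset.sum_eq_zero fun v _ => if_neg fun h => h hG
      · rw [if_pos (mem_sdiff.mpr ⟨hJ, hG⟩)]
        exact Pw_le_one _ hcb hcs _
    · rw [bt_ex hr hx a0 b0 J w b1 b]
      unfold bt
      have e2 := cb_base hb (Fp D en a0 b0) w hw
        (fun x => BdQ SR S' C₀ r g D en a0 w J (D.Q (en a (car b 0) x)) (D.Q (en a (car b 1) x)))
      refine le_of_eq ?_
      have e3 : Pw (cb ν (bs M') l (Fp D en a0 b0) w)
          (fun v => BdQ SR S' C₀ r g D en a0 w J (Qp D en a M' b v 0) (Qp D en a M' b v 1)) =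
          Pw (cw l (Fp D en a0 b0) w)
          (fun x => BdQ SR S' C₀ r g D en a0 w J (D.Q (en a (car b 0) x)) (D.Q (en a (car b 1) x))) := e2
      rw [e3]
      unfold Pw
      refine Finset.sum_congr rfl fun x _ => ?_
      by_cases h0 : cw l (Fp D en a0 b0) w x = 0
      · rw [h0]
        split_ifs <;> rfl
      · have h3 := (cw_ne_zero _ _ h0).2
        beta_reduce
        rw [hr.sQ x h3 a a0 (car b 0), hr.sQ x h3 a a0 (car b 1)]
  refine (Finset.sum_le_sum h1).trans (le_of_eq ?_)
  rw [Finset.sum_add_distrib]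
  congr 1
  rw [Finset.sum_ite_mem, Finset.sum_const, nsmul_eq_mul, mul_one]
  congr 2
  exact Finset.inter_eq_right.mpr Finset.sdiff_subset

end Pool.Agent.Helper78.FW
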