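import Pool.Agent.Helper78.FW.HB
import Pool.Agent.Helper6.FW.Inst

/-!
# The deficits of the counts of the blocks of a row
-/

set_option autoImplicit false

namespace Pool.Agent.Helper78.FW

open Finset Pool.Agent.Helper69.RK Pool.Agent.Helper46.WF Pool.Agent.Helper58.VW Pool.Agent.Helper58.TR
open Pool.Agent.Helper25.FA Pool.Agent.Helper61.FW Pool.Agent.Helper99.FW Pool.Agent.Helper58.FW
open Pool.Agent.Helper61.GL hiding fl
open Pool.Agent.Helper92.W (fl)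
open Pool.Agent.Helper9.FW Pool.Agent.Helper9.ND Pool.Agent.Helper92.FW Pool.Agent.Helper22.FW
open Pool.Agent.Helper6.FW (by8 G0K off ch_alph)

/-- digits of two times have at most `2 n` bits -/
theorem two_digits {Ω γ : Type} [Fintype Ω] (μ : Ω → ℝ) (hμ : ∀ ω, 0 ≤ μ ω) (hm : mass μ = 1) (T : Ω → Fin (1 + 1) → ℝ)
    (hT : ∀ ω, μ ω ≠ 0 → ∀ e, 0 ≤ T ω e ∧ T ω e < 1) (G : Ω → γ) (n : ℕ) :
    CH μ (fun ω => fun e => fl n (T ω e)) G ≤ 2 * (n : ℝ) := by
  have h1 := ch_alph (u := 1 + 1) μ hμ (fun ω => fun e => fl n (T ω e)) G n (fun ω ω' x x' k => by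
    have h1 := hT ω x k
    have h2 := hT ω' x' k
    have p1 : (0 : ℝ) < 2 ^ n := by positivity
    have a1 : (0 : ℤ) ≤ fl n (T ω k) := by
      unfold Pool.Agent.Helper92.W.fl
      rw [Int.floor_nonneg]
      exact mul_nonneg p1.le h1.1
    have a2 : (0 : ℤ) ≤ fl n (T ω' k) := by
      unfold Pool.Agent.Helper92.W.fl
      rw [Int.floor_nonneg]
      exact mul_nonneg p1.le h2.1
    have b1 : fl n (T ω k) ≤ 2 ^ n - 1 := by
      have : fl n (T ω k) < 2 ^ n := by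
        unfold Pool.Agent.Helper92.W.fl
        rw [Int.floor_lt]
        push_cast
        have := mul_lt_mul_of_pos_left h1.2 p1
        linarith
      omega
    have b2 : fl n (T ω' k) ≤ 2 ^ n - 1 := by
      have : fl n (T ω' k) < 2 ^ n := by
        unfold Pool.Agent.Helper92.W.fl
        rw [Int.floor_lt]
        push_cast
        have := mul_lt_mul_of_pos_left h2.2 p1
        linarith
      omega
    have c1 : (0 : ℝ) ≤ fl n (T ω k) := by exact_mod_cast a1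
    have c2 : (0 : ℝ) ≤ fl n (T ω' k) := by exact_mod_cast a2
    have c3 : (fl n (T ω k) : ℝ) ≤ 2 ^ n - 1 := by exact_mod_cast b1
    have c4 : (fl n (T ω' k) : ℝ) ≤ 2 ^ n - 1 := by exact_mod_cast b2
    rw [abs_le]
    constructor <;> linarith)
  rw [hm, mul_one] at h1
  refine h1.trans (le_of_eq ?_)
  push_cast
  ring

variable {Ω φ α β η : Type} [Fintype Ω] {N k K : ℕ} {D : ED Ω φ α β N} {Λ : Type} [Fintype Λ] {l : Λ → ℝ}
  {en : Fin (k + 2 * K) → Fin (k + 2 * K) → Λ → Ω} {E : ℝ}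

/-- **the deficit of the block `b`** of the chain of the row `a` at the value `w` of the label of the spectators -/
noncomputable def dKb (D : ED Ω φ α β N) (l : Λ → ℝ) (en : Fin (k + 2 * K) → Fin (k + 2 * K) → Λ → Ω) (nd' : α → η)
    (tq : β → ℝ) (a0 b0 a : Fin (k + 2 * K)) (w : Λ) (b : Fin K) : ℝ :=
  2 * (D.n : ℝ) - CH (cb (chl D l en nd' b0 (mvs k K) a (8 * K)) (bs (8 * K)) l (Fp D en a0 b0) w)
    (fun v => fun e : Fin (1 + 1) => fl D.n (tq (Qp D en a (8 * K) b v e)))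
    (fun v => (G0K D en a b0 v, off b (fun b v => fun e : Fin (1 + 1) => Qp D en a (8 * K) b v e) v))

theorem cb_ms (hr : AR D l en E) (nd' : α → η) (a0 b0 a : Fin (k + 2 * K)) {w : Λ} (hw : l w ≠ 0) :
    mass (cb (chl D l en nd' b0 (mvs k K) a (8 * K)) (bs (8 * K)) l (Fp D en a0 b0) w) = 1 :=
  cb_sum (chl_bs hr nd' b0 (mvs k K) a (8 * K)) (Fp D en a0 b0) (chl_nonneg hr nd' b0 (mvs k K) a (8 * K)) w hw

theorem dKb_nn (hr : AR D l en E) (nd' : α → η) {tq : β → ℝ} (htq : ∀ ω, 0 ≤ tq (D.Q ω) ∧ tq (D.Q ω) < 1)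
    (a0 b0 a : Fin (k + 2 * K)) {w : Λ} (hw : l w ≠ 0) (b : Fin K) : 0 ≤ dKb D l en nd' tq a0 b0 a w b := by
  have hν := chl_nonneg hr nd' b0 (mvs k K) a (8 * K)
  have hb := chl_bs hr nd' b0 (mvs k K) a (8 * K)
  have h1 := two_digits (cb (chl D l en nd' b0 (mvs k K) a (8 * K)) (bs (8 * K)) l (Fp D en a0 b0) w)
    (cb_nonneg hb (Fp D en a0 b0) hν w) (cb_ms hr nd' a0 b0 a hw)
    (fun v => fun e : Fin (1 + 1) => tq (Qp D en a (8 * K) b v e)) (fun v _ e => htq _)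
    (fun v => (G0K D en a b0 v, off b (fun b v => fun e : Fin (1 + 1) => Qp D en a (8 * K) b v e) v)) D.n
  unfold dKb
  linarith

theorem dKb_le (hr : AR D l en E) (nd' : α → η) {tq : β → ℝ} (htq : ∀ ω, 0 ≤ tq (D.Q ω) ∧ tq (D.Q ω) < 1)
    (a0 b0 a : Fin (k + 2 * K)) {w : Λ} (hw : l w ≠ 0) (b : Fin K) :
    dKb D l en nd' tq a0 b0 a w b ≤ ∑ b : Fin K, dKb D l en nd' tq a0 b0 a w b :=
  Finset.single_le_sum (f := fun b => dKb D l en nd' tq a0 b0 a w b)
    (fun b _ => dKb_nn hr nd' htq a0 b0 a hw b) (Finset.mem_univ b)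

end Pool.Agent.Helper78.FW
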