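import Pool.Agent.Helper78.FW.HC
import Pool.Agent.Helper6.FW.KiX
import Pool.Agent.Helper58.FW.KX
import Pool.Agent.Helper61.FW.CfinB
import Pool.Agent.Helper70.FW.Afg

/-!
# The costs of the rows of one side: hypothesis `RowH` of `cfinB`

`GlK` : the label of the counts, `glK_count`, `glK_fp` : its two properties.  `rowH_all` : the rows of one side for any
first level `j0` and any length `I` of the progression, in terms of the costs of row [KX].
-/

set_option autoImplicit false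

namespace Pool.Agent.Helper78.FW

open Finset Pool.Agent.Helper69.RK Pool.Agent.Helper46.WF Pool.Agent.Helper58.VW Pool.Agent.Helper58.TR
open Pool.Agent.Helper25.FA Pool.Agent.Helper61.FW Pool.Agent.Helper99.FW Pool.Agent.Helper58.FW
open Pool.Agent.Helper61.GL hiding fl
open Pool.Agent.Helper92.W (fl)
open Pool.Agent.Helper9.FW Pool.Agent.Helper9.ND Pool.Agent.Helper92.FW
open Pool.Agent.Helper22.FW hiding cN
open Pool.Agent.Helper15.VW Pool.Agent.Helper15.VG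
open Pool.Agent.Helper6.FW (by8 G0K off off_eq CK kiX yv)
open scoped Matrix

section lab

variable {Ω φ α β η' : Type} [Fintype Ω] {N k K : ℕ} {D : ED Ω φ α β N} {Λ : Type} [Fintype Λ] {l : Λ → ℝ}
  {en : Fin (k + 2 * K) → Fin (k + 2 * K) → Λ → Ω} {E : ℝ}

/-- the label of the count of the block `b` -/
noncomputable def GlK (D : ED Ω φ α β N) (en : Fin (k + 2 * K) → Fin (k + 2 * K) → Λ → Ω) (b0 a : Fin (k + 2 * K))
    (b : Fin K) (v : Lam Λ (Fin (k + 2 * K) → Ω) (8 * K)) :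
    (((Fin N → ℤ) × (Fin (8 * K) → α)) × ((({c // c ∈ (univ : Finset (Fin (k + 2 * K)))} → α) ×
      ({c // c ∈ spc k K} → β)) × φ)) × (Fin K → Option (Fin (1 + 1) → β)) :=
  (G0K D en a b0 v, off b (fun b v => Qp D en a (8 * K) b v) v)

omit [Fintype Λ] in
/-- hypothesis of the count -/
theorem glK_count (b0 a : Fin (k + 2 * K)) (b : Fin K) (w w' : Lam Λ (Fin (k + 2 * K) → Ω) (8 * K))
    (h1 : D.zd (cur (row en a) (8 * K) w b0) = D.zd (cur (row en a) (8 * K) w' b0))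
    (h2 : ∀ j, 1 ≤ j → j ≤ 8 * K → Pp D en a b0 (8 * K) j w = Pp D en a b0 (8 * K) j w')
    (h3 : ∀ a', D.P (en a' b0 (bs (8 * K) w)) = D.P (en a' b0 (bs (8 * K) w')))
    (h4 : ∀ c, (∀ e, c ≠ car b e) → D.Q (en a c (bs (8 * K) w)) = D.Q (en a c (bs (8 * K) w')))
    (h5 : D.F (en a b0 (bs (8 * K) w)) = D.F (en a b0 (bs (8 * K) w'))) :
    GlK D en b0 a b w = GlK D en b0 a b w' := by
  unfold GlK G0K
  refine Prod.ext (Prod.ext (Prod.ext h1 ?_) (Prod.ext (Prod.ext ?_ ?_) h5)) ?_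
  · funext j
    exact h2 (j.1 + 1) (by omega) (by omega)
  · funext c
    exact h3 c.1
  · funext c
    refine h4 c.1 fun e he => ?_
    exact car_notin b e (he ▸ c.2)
  · funext b'
    show off b (fun b v => Qp D en a (8 * K) b v) w b' = off b (fun b v => Qp D en a (8 * K) b v) w' b'
    unfold off
    by_cases hb : b' = b
    · rw [if_pos hb, if_pos hb]
    · rw [if_neg hb, if_neg hb]
      congr 1
      funext e
      refine h4 (car b' e) fun e' he => ?_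
      exact hb (car_inj he).1

/-- the label determines the label of the spectators -/
theorem glK_fp (hr : AR D l en E) (nd' : α → η') (mv : ℕ → Option (Fin (k + 2 * K))) (a0 b0 a : Fin (k + 2 * K))
    (b : Fin K) (w w' : Lam Λ (Fin (k + 2 * K) → Ω) (8 * K)) (hw : chl D l en nd' b0 mv a (8 * K) w ≠ 0)
    (hw' : chl D l en nd' b0 mv a (8 * K) w' ≠ 0) (h : GlK D en b0 a b w = GlK D en b0 a b w') :
    Fp D en a0 b0 (bs (8 * K) w) = Fp D en a0 b0 (bs (8 * K) w') := by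
  have l1 : l (bs (8 * K) w) ≠ 0 := (law_supp l (row en a) _ _ hr.nn rfl (8 * K) w hw).1
  have l2 : l (bs (8 * K) w') ≠ 0 := (law_supp l (row en a) _ _ hr.nn rfl (8 * K) w' hw').1
  unfold GlK G0K at h
  simp only [Prod.mk.injEq] at h
  obtain ⟨⟨-, ⟨⟨e1, e2⟩, e3⟩⟩, -⟩ := h
  unfold Fp
  refine Prod.ext (Prod.ext ?_ ?_) ?_
  · funext c
    exact congrFun e1 ⟨c.1, mem_univ _⟩
  · funext c
    show D.Q (en a0 c.1 (bs (8 * K) w)) = D.Q (en a0 c.1 (bs (8 * K) w'))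
    rw [hr.sQ _ l1 a0 a c.1, hr.sQ _ l2 a0 a c.1]
    exact congrFun e2 c
  · show D.F (en a0 b0 (bs (8 * K) w)) = D.F (en a0 b0 (bs (8 * K) w'))
    rw [hr.sF _ l1 a0 b0 a b0, hr.sF _ l2 a0 b0 a b0]
    exact e3

end lab

section main

variable {Ω φ α β : Type} [Fintype Ω] [Fintype α] [Fintype β] {N k K : ℕ} {D : ED Ω φ α β N} {ρe η εQ ηQ c : ℝ}
  {tp : α → ℝ} {tq : β → ℝ} {Ap : α → Fin N → ℝ} {Cq : β → Fin N → ℝ} {Λ : Type} [Fintype Λ] {l : Λ → ℝ}
  {en : Fin (k + 2 * K) → Fin (k + 2 * K) → Λ → Ω} {E : ℝ}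

omit [Fintype α] [Fintype β] in
/-- the deficits are nonnegative -/
theorem dfc_nn {η' : Type} (h : EdgD D ρe η εQ ηQ c tp tq Ap Cq) (hr : AR D l en E) (nd' : α → η')
    (a0 b0 a : Fin (k + 2 * K)) {w : Λ} (hw : l w ≠ 0) (b : Fin K) :
    0 ≤ dfc D tq l en nd' (mvs k K) a0 b0 a b (GlK D en b0 a b) w :=
  dKb_nn hr nd' (fun ω => h.ed.bT' ω) a0 b0 a hw b

/-- **THE ROWS OF ONE SIDE** -/
theorem rowH_all (h : EdgD D ρe η εQ ηQ c tp tq Ap Cq) {FP : α → φ} {FQ : β → φ} (hFQ : ∀ ω, FQ (D.Q ω) = D.F ω)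
    (hr : AR D l en E) (hx : XA l en) (a0 b0 : Fin (k + 2 * K)) (b1 : Fin K) {P ρw r S' L F b R : ℕ} {κ : ℝ}
    (hc : Cst N R ρw r ((1 / 2) ^ F) κ) (oL oR : ℕ → ℕ) {C₀ : ℕ} {δ : ℝ} (hδ : 0 ≤ δ) (hb : Bfr N ≤ 2 ^ b)
    (hLP : L * P ≤ D.n) {I j0 X0 : ℕ} (hX0 : 416 * N ≤ 2 ^ X0) (hM : j0 + I * R + (F + X0) ≤ L * P)
    (hn1 : N * (24 * K + 2) * (2 : ℝ) ^ F ≤ 2 ^ D.n) (hn2 : N * (Kas N * 2 ^ (L * P)) * (2 : ℝ) ^ F ≤ 2 ^ D.n)
    {c1 cD c0 k00 cd ce cT' cn : ℝ} (hc1 : N * cF2 N 1 (CK N C₀) + cP N + cN N ((N + N + 1) * CK N C₀) ≤ c1)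
    (hcT1 : cT N N ≤ c1) (hcD : N * (R + cF3 N 1 (CK N C₀)) ≤ cD) (hc0 : N * (R + cF3 N 1 (CK N C₀)) ≤ c0)
    (hk0 : N * (R + cF3 N 1 (CK N C₀)) * (I * (1 - (1 / (2048 * (2 : ℝ) ^ R)) ^ 2) ^ K) +
      (R + cT N ((N + N + 1) * CK N C₀)) * (I * ((net N (1 / (8 * N))).card *
        (1 - κ / (2 ^ 25 * ((N : ℝ) + 1) * ((2 : ℝ) ^ R) ^ 2)) ^ K)) ≤ k00)
    (hcd : (N * K : ℝ) ≤ cd) (hce : N * (2 * (L * Real.logb 2 (Fintype.card (Rc N r))) + cF1 1 (CK N C₀)) ≤ ce)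
    (hcT : N * (R + cF3 N 1 (CK N C₀)) * (I + (L * P : ℕ)) + (R + cT N ((N + N + 1) * CK N C₀)) * I ≤ cT')
    (hcn : (R : ℝ) * I ≤ cn) (κ0 : Λ → ℕ → ℝ) (κa : Fin (k + 2 * K) → Λ → ℕ → ℝ)
    (hκ0 : ∀ w, l w ≠ 0 → ∀ m < L * P, m % P < S' → c0 * ∑ J ∈ range (L * P),
      bt (sdL D.mir FQ tq Cq P ρw R r ((1 / 2) ^ F) κ oR) S' C₀ 270000 ((1 / 2) ^ F) D l en a0 b0 (car b1 0)
        (car b1 1) J w + k00 ≤ κ0 w m)
    (hκa : ∀ a ∈ spc k K, ∀ w, l w ≠ 0 → ∀ m < L * P, m % P < S' →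
      cd * ∑ b, dfc D tq l en ((sdL D FP tp Ap P ρw R r ((1 / 2) ^ F) κ oL).nL m) (mvs k K) a0 b0 a b
        (GlK D en b0 a b) w + ce +
      cT' * Ers D l en (EG N ρw R r ((1 / 2) ^ F) κ (push D.P D.μ) tp Ap) FP tp P ρw oL (m / P) (m % P) δ b0
        (mvs k K) a (8 * K) (Fp D en a0 b0) w +
      cn * e1_ind (¬ IsNd (cw (push D.P D.μ) ((sdL D FP tp Ap P ρw R r ((1 / 2) ^ F) κ oL).nL m)
        (D.P (en a b0 w))) tp m R ρw (cl m (tp (D.P (en a b0 w))))) ≤ κa a w m) :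
    RowH D l en a0 b0 (sdL D FP tp Ap P ρw R r ((1 / 2) ^ F) κ oL) (sdL D.mir FQ tq Cq P ρw R r ((1 / 2) ^ F) κ oR)
      ((1 / 2) ^ F) (2 ^ b) (F + b + R) (F + b + R) R (L * P) I j0 c1 cD
      (fun w m => if m % P < S' then κ0 w m + ∑ a ∈ spc k K, κa a w m else R * I) := by
  classical
  have hK : 0 < K := lt_of_le_of_lt (Nat.zero_le _) b1.2
  have hNr : (1 : ℝ) ≤ N := by exact_mod_cast hc.hN
  have hφ0 : (0 : ℝ) < (1 / 2) ^ F := by positivity
  have hφ1 : ((1 : ℝ) / 2) ^ F ≤ 1 := pow_le_one₀ (by norm_num) (by norm_num)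
  have hpp : ((1 : ℝ) / 2) ^ F * 2 ^ F = 1 := by rw [← mul_pow]; norm_num
  have hp2 : (0 : ℝ) < 2 ^ F := by positivity
  have hC0 : 0 ≤ CK N C₀ := by
    unfold CK
    positivity
  have hC1 : 0 ≤ (N + N + 1 : ℝ) * CK N C₀ := by positivity
  have hF3 : 0 ≤ cF3 N 1 (CK N C₀) := Pool.Agent.Helper6.FW.cF3_nonneg N 1 hC0
  have hT0 : 0 ≤ cT N ((N + N + 1) * CK N C₀) := Pool.Agent.Helper6.FW.cT_nonneg N hC1
  have hRr : (0 : ℝ) ≤ R := Nat.cast_nonneg R
  have hIr : (0 : ℝ) ≤ I := Nat.cast_nonneg I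
  have hcdn : 0 ≤ cd := le_trans (by positivity) hcd
  have hcnn : 0 ≤ cn := le_trans (by positivity) hcn
  have hcTn : 0 ≤ cT' := by
    refine le_trans ?_ hcT
    positivity
  have hcDn : 0 ≤ cD := le_trans (by positivity) hcD
  have hcen : 0 ≤ ce := by
    refine le_trans ?_ hce
    have h1 : 0 ≤ Real.logb 2 (Fintype.card (Rc N r)) := by
      have : Nonempty (Rc N r) := ⟨Pool.Agent.Helper9.ND.rc r 0⟩
      have h2 : (1 : ℝ) ≤ Fintype.card (Rc N r) := by exact_mod_cast Fintype.card_pos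
      exact Real.logb_nonneg (by norm_num) h2
    have h2 : 0 ≤ cF1 1 (CK N C₀) := Pool.Agent.Helper70.FW.kcF1_nn hC0
    positivity
  have hErn : ∀ (a : Fin (k + 2 * K)) (w : Λ) (m : ℕ), 0 ≤ Ers D l en
      (EG N ρw R r ((1 / 2) ^ F) κ (push D.P D.μ) tp Ap) FP tp P ρw oL (m / P) (m % P) δ b0
        (mvs k K) a (8 * K) (Fp D en a0 b0) w := fun a w m => ers_nonneg _ FP tp P ρw oL (m / P) (m % P) b0 (mvs k K)
          a (8 * K) (Fp D en a0 b0) hr hδ w
  have hdn : ∀ (a : Fin (k + 2 * K)) (w : Λ), l w ≠ 0 → ∀ m, 0 ≤ ∑ b, dfc D tq l en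
      ((sdL D FP tp Ap P ρw R r ((1 / 2) ^ F) κ oL).nL m) (mvs k K) a0 b0 a b (GlK D en b0 a b) w :=
    fun a w hw m => Finset.sum_nonneg fun b _ => dfc_nn h hr _ a0 b0 a hw b
  have hi0 : ∀ Q : Prop, 0 ≤ e1_ind Q := by
    intro Q
    unfold e1_ind
    split_ifs <;> norm_num
  refine rowsOK_of hr.nn hcT1 hcDn (fun m => m % P < S') κ0 κa ?_ ?_
  · intro w hw m hm hNL a ha
    refine le_trans ?_ (hκa a ha w hw m hm hNL)
    have h1 := mul_nonneg hcdn (hdn a w hw m)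
    have h2 := mul_nonneg hcTn (hErn a w m)
    have h3 := mul_nonneg hcnn (hi0 (¬ IsNd (cw (push D.P D.μ)
      ((sdL D FP tp Ap P ρw R r ((1 / 2) ^ F) κ oL).nL m) (D.P (en a b0 w))) tp m R ρw (cl m (tp (D.P (en a b0 w))))))
    linarith
  · intro w hw m hm hNL a ha i G hG Z hZ
    have hka := hκa a ha w hw m hm hNL
    have hk := hκ0 w hw m hm hNL
    have hcard : (0 : ℝ) ≤ (range (L * P) \ G).card := Nat.cast_nonneg _
    have hbtn : 0 ≤ ∑ J ∈ range (L * P), bt (sdL D.mir FQ tq Cq P ρw R r ((1 / 2) ^ F) κ oR) S' C₀ 270000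
        ((1 / 2) ^ F) D l en a0 b0 (car b1 0) (car b1 1) J w :=
      Finset.sum_nonneg fun J _ => Pw_nonneg _ (fun x => cw_nonneg l _ hr.nn w x) _
    have hk00 : 0 ≤ k00 := by
      refine le_trans ?_ hk0
      have q1 : (0 : ℝ) ≤ 1 - (1 / (2048 * (2 : ℝ) ^ R)) ^ 2 := by
        have q2 : (1 : ℝ) ≤ 2 ^ R := one_le_pow₀ (by norm_num)
        have q3 : 1 / (2048 * (2 : ℝ) ^ R) ≤ 1 := by
          rw [div_le_one (by positivity)]
          linarith
        have q4 : (0 : ℝ) ≤ 1 / (2048 * (2 : ℝ) ^ R) := by positivity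
        nlinarith only [q3, q4]
      have q2 : (0 : ℝ) ≤ 1 - κ / (2 ^ 25 * ((N : ℝ) + 1) * ((2 : ℝ) ^ R) ^ 2) := by
        linarith [cst_p hc]
      positivity
    by_cases hNd : IsNd (cw (push D.P D.μ) ((sdL D FP tp Ap P ρw R r ((1 / 2) ^ F) κ oL).nL m)
        (D.P (en a b0 w))) tp m R ρw (cl m (tp (D.P (en a b0 w))))
    · -- good node
      have e : m / P * P + m % P = m := Nat.div_add_mod' m P
      have hq : push D.P D.μ (D.P (en a b0 w)) ≠ 0 := pmu_ne hr b0 a hw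
      have hreg := hc.reg_tree (F := FP) (T := tp) (P := P) (μ := push D.P D.μ) (A := Ap) (o := oL) (m / P) (m % P)
        ((sdL D FP tp Ap P ρw R r ((1 / 2) ^ F) κ oL).nL m (D.P (en a b0 w)))
      have hB512 : (512 : ℝ) ≤ 2 ^ b := by
        refine le_trans ?_ hb
        unfold Bfr
        nlinarith only [hNr]
      have hBR : (2 : ℝ) ^ b ≤ (1 / 2) ^ F * 2 ^ (F + b + R) := by
        rw [pow_add, pow_add, ← mul_assoc, ← mul_assoc, hpp, one_mul]
        exact le_mul_of_one_le_right (by positivity) (one_le_pow₀ (by norm_num))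
      set d : ℝ := ∑ b, dfc D tq l en ((sdL D FP tp Ap P ρw R r ((1 / 2) ^ F) κ oL).nL m) (mvs k K) a0 b0 a b
        (GlK D en b0 a b) w with hd
      have key := kiX (SR := sdL D.mir FQ tq Cq P ρw R r ((1 / 2) ^ F) κ oR) (L := L) (S' := S') (C₀ := C₀)
        (ρw := ρw) (r := r) (B := 2 ^ b) (g := F + b + R) (R0 := F + b + R) (M := L * P) (I := I) (l0 := j0)
        (Xm := F + X0) (d := d)
        h hFQ hr a0 b0 ha hK hc.hN hφ0 hφ1 hc.hD
        ((sdL D FP tp Ap P ρw R r ((1 / 2) ^ F) κ oL).nL m)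
        (wf (EG N ρw R r ((1 / 2) ^ F) κ (push D.P D.μ) tp Ap) FP tp P ρw oL (m / P) (m % P))
        ((sdL D FP tp Ap P ρw R r ((1 / 2) ^ F) κ oL).bL m (D.P (en a b0 w))) hreg.det hreg.flo
        (fun v => by
          have h1 := hreg.floor hφ0 v
          rw [NB.sn_apply] at h1
          exact h1) hw (m := m)
        (fun y hy hyn hgd => by
          have h1 := hc.spec_tree (F := FP) (P := P) (o := oL) (i := m / P) (s := m % P) (fun x => pu_nn h x)
            (fun x hx => pu_A h hx) hq (by rw [e]; exact hNd) y hy hyn hgd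
          rw [e] at h1
          exact h1)
        (fun J q => sdG_frOf hc FQ tq Cq P oR (push D.mir.P D.mir.μ) J q)
        (fun J q => sdG_slo hc FQ tq Cq P oR (push D.mir.P D.mir.μ) J q) le_rfl (by omega) hBR (by linarith) le_rfl hLP
        (by
          rw [pow_add, ← mul_assoc, hpp, one_mul]
          exact_mod_cast hX0) hM
        (by
          have h1 := mul_le_mul_of_nonneg_left hn1 hφ0.le
          calc (N : ℝ) * (24 * K + 2) = (1 / 2) ^ F * 2 ^ F * (N * (24 * K + 2)) := by rw [hpp, one_mul]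
            _ = (1 / 2) ^ F * (N * (24 * K + 2) * 2 ^ F) := by ring
            _ ≤ _ := h1)
        (by
          have h1 := mul_le_mul_of_nonneg_left hn2 hφ0.le
          calc (N : ℝ) * (Kas N * 2 ^ (L * P)) = (1 / 2) ^ F * 2 ^ F * (N * (Kas N * 2 ^ (L * P))) := by
                rw [hpp, one_mul]
            _ = (1 / 2) ^ F * (N * (Kas N * 2 ^ (L * P)) * 2 ^ F) := by ring
            _ ≤ _ := h1)
        i hG Z (WSd (sdL D FP tp Ap P ρw R r ((1 / 2) ^ F) κ oL) (spc k K) (fun a => D.P (en a b0 w)))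
        (fun i => mem_WS.mpr ⟨a, ha, i, rfl⟩) hZ (hdn a w hw m)
        (fun b => by
          have h1 := Finset.single_le_sum (f := fun b => dfc D tq l en
            ((sdL D FP tp Ap P ρw R r ((1 / 2) ^ F) κ oL).nL m) (mvs k K) a0 b0 a b (GlK D en b0 a b) w)
            (fun b _ => dfc_nn h hr _ a0 b0 a hw b) (Finset.mem_univ b)
          beta_reduce at h1
          rw [← hd] at h1
          have h2 : dfc D tq l en ((sdL D FP tp Ap P ρw R r ((1 / 2) ^ F) κ oL).nL m) (mvs k K) a0 b0 a b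
            (GlK D en b0 a b) w = 2 * D.n - CH (cb (chl D l en
              ((sdL D FP tp Ap P ρw R r ((1 / 2) ^ F) κ oL).nL m) b0 (mvs k K) a (8 * K)) (bs (8 * K)) l
                (Fp D en a0 b0) w)
              (fun v => fun e => fl D.n (tq (Qp D en a (8 * K) b v e)))
              (fun v => (G0K D en a b0 v, off b (fun b v => Qp D en a (8 * K) b v) v)) := rfl
          rw [h2] at h1
          show 2 * (D.n : ℝ) - d ≤ CH (cb (chl D l en
              ((sdL D FP tp Ap P ρw R r ((1 / 2) ^ F) κ oL).nL m) b0 (mvs k K) a (8 * K)) (bs (8 * K)) l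
                (Fp D en a0 b0) w)
              (fun v => fun e => fl D.n (tq (Qp D en a (8 * K) b v e)))
              (fun v => (G0K D en a b0 v, off b (fun b v => Qp D en a (8 * K) b v) v))
          linarith)
        (fun bl VV X hX => bad_all (SR := sdL D.mir FQ tq Cq P ρw R r ((1 / 2) ^ F) κ oR) (S' := S') (C₀ := C₀)
          (r := 270000) (g := (1 / 2) ^ F) hr hx a0 b0 a ha
          (EG N ρw R r ((1 / 2) ^ F) κ (push D.P D.μ) tp Ap) FP tp P ρw oL (m / P) (m % P) hδ (mvs k K) (8 * K) bl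
          (L * P) G w hw b1 VV X j0 R I (by have := hc.hD; omega) hX)
      refine key.trans ?_
      have hs := seen_lvl hc h hr (FP := FP) oL hδ a0 b0 ha m hw hNd
      have hv := val_lvl hc h hr (FP := FP) oL hδ a0 b0 ha m hw hNd
      have hdd := hdn a w hw m
      refine row_num (n := (N : ℝ)) (K' := (K : ℝ)) (d := d) (F3 := cF3 N 1 (CK N C₀)) (R := (R : ℝ)) (I := (I : ℝ))
        (T := cT N ((N + N + 1) * CK N C₀)) (Nat.cast_nonneg N) hRr hF3 hT0 hIr hv hs hc1 hcD hcard ?_ ?_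
      · refine le_trans ?_ hk
        have h1 := mul_le_mul_of_nonneg_right hc0 hbtn
        linarith
      · refine le_trans ?_ hka
        have h1 := mul_le_mul_of_nonneg_right hcd hdd
        have h2 := mul_le_mul_of_nonneg_right hcT (hErn a w m)
        have h3 := mul_nonneg hcnn (hi0 (¬ IsNd (cw (push D.P D.μ)
          ((sdL D FP tp Ap P ρw R r ((1 / 2) ^ F) κ oL).nL m) (D.P (en a b0 w))) tp m R ρw
            (cl m (tp (D.P (en a b0 w))))))
        linarith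
    · -- bad node
      have hBR : (2 : ℝ) ^ b ≤ (1 / 2) ^ F * 2 ^ (F + b + R) := by
        rw [pow_add, pow_add, ← mul_assoc, ← mul_assoc, hpp, one_mul]
        exact le_mul_of_one_le_right (by positivity) (one_le_pow₀ (by norm_num))
      have h1 := triv_row (cw l (Fp D en a0 b0) w) (fun x => cw_nonneg l _ hr.nn w x) (cw_sum l _ hr.nn w hw)
        (fun w => D.z (en a0 b0 w)) (fun _ => ()) hφ0 (g := F + b + R) (R0 := F + b + R) le_rfl (by omega) hBR
        (mem_WS.mpr ⟨a, ha, i, rfl⟩) Z hZ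
      have h2 := mul_le_mul_of_nonneg_right hcT1 hIr
      have h3 := mul_nonneg hcdn (hdn a w hw m)
      have h4 := mul_nonneg hcTn (hErn a w m)
      have h5 : e1_ind (¬ IsNd (cw (push D.P D.μ)
          ((sdL D FP tp Ap P ρw R r ((1 / 2) ^ F) κ oL).nL m) (D.P (en a b0 w))) tp m R ρw
            (cl m (tp (D.P (en a b0 w))))) = 1 := by
        unfold e1_ind
        rw [if_pos hNd]
      rw [h5, mul_one] at hka
      have h6 := mul_nonneg (le_trans (by positivity) hc0 : 0 ≤ c0) hbtn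
      have h7 := mul_nonneg hcDn hcard
      linarith

end main

end Pool.Agent.Helper78.FW
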