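import Pool.Agent.Helper78.FW.Path

/-!
# The path: lengths by determinants, averaging over the root (ns_notes_78d, sect. 2)
-/

set_option autoImplicit false

namespace Pool.Agent.Helper78.FW

open Finset Matrix

variable {N : ℕ}

section

variable {Fl : Multiset (Fin N → ℝ)} {B : ℝ} {S : Multiset (Fin N → ℝ) → ℝ}
    {inc : Multiset (Fin N → ℝ) → (Fin N → ℝ) → ℝ} {R : ℕ} {c0 c2 : ℝ}
    {φ : ℝ} {D : ℕ} {c1 : ℝ} {SA SC : ℕ → (Fin N → ℝ) → Prop}
    {fa fc : ℕ → Fin N → Fin N → ℝ} {BA BC : ℕ → Finset ℕ}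

theorem bad_nonneg {c2 : ℝ} (h : 0 ≤ c2) (T : Finset ℕ) (k : ℕ) : 0 ≤ bad c2 T k := by
  unfold bad
  split_ifs
  · exact h
  · exact le_rfl

/-- an injective family of levels meets a set `T` at most `T.card` times -/
theorem sum_bad_le {c2 : ℝ} (h : 0 ≤ c2) (T s : Finset ℕ) (g : ℕ → ℕ)
    (hg : ∀ a ∈ s, ∀ b ∈ s, g a = g b → a = b) : ∑ a ∈ s, bad c2 T (g a) ≤ c2 * T.card := by
  classical
  have h1 : ∑ a ∈ s, bad c2 T (g a) = ∑ a ∈ s.filter (fun a => g a ∈ T), c2 := by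
    rw [Finset.sum_filter]
    rfl
  have h2 : (s.filter (fun a => g a ∈ T)).card ≤ T.card := by
    refine Finset.card_le_card_of_injOn g ?_ ?_
    · intro a ha
      exact (Finset.mem_filter.mp (Finset.mem_coe.mp ha)).2
    · intro a ha b hb hab
      exact hg a (Finset.mem_filter.mp (Finset.mem_coe.mp ha)).1 b
        (Finset.mem_filter.mp (Finset.mem_coe.mp hb)).1 hab
  rw [h1, Finset.sum_const, nsmul_eq_mul]
  have h3 : ((s.filter (fun a => g a ∈ T)).card : ℝ) ≤ T.card := by exact_mod_cast h2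
  nlinarith

/-- the number of refinements at step `i` -/
noncomputable def Kn (fc : ℕ → Fin N → Fin N → ℝ) (R j : ℕ) : ℕ :=
  ⌈Real.logb 2 (|(Matrix.of (fc j)).det| / |(Matrix.of (fc (j + R))).det|) / R⌉₊

theorem ratio_le_Kn (fc : ℕ → Fin N → Fin N → ℝ) (R j : ℕ) (hR : 1 ≤ R)
    (h0 : (Matrix.of (fc j)).det ≠ 0) (h1 : (Matrix.of (fc (j + R))).det ≠ 0) :
    |(Matrix.of (fc j)).det| / |(Matrix.of (fc (j + R))).det| ≤ 2 ^ (Kn fc R j * R) := by
  set r := |(Matrix.of (fc j)).det| / |(Matrix.of (fc (j + R))).det| with hr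
  have hr0 : 0 < r := div_pos (abs_pos.mpr h0) (abs_pos.mpr h1)
  have hR0 : (0 : ℝ) < R := by exact_mod_cast hR
  have h2 : Real.logb 2 r / R ≤ Kn fc R j := Nat.le_ceil _
  have h3 : Real.logb 2 r ≤ Kn fc R j * R := by
    rw [div_le_iff₀ hR0] at h2
    exact h2
  have h4 : r = (2 : ℝ) ^ (Real.logb 2 r) := (Real.rpow_logb (by norm_num) (by norm_num) hr0).symm
  rw [h4]
  have h5 : (2 : ℝ) ^ (Real.logb 2 r) ≤ (2 : ℝ) ^ ((Kn fc R j * R : ℕ) : ℝ) := by
    refine Real.rpow_le_rpow_of_exponent_le (by norm_num) ?_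
    push_cast
    exact h3
  rw [Real.rpow_natCast] at h5
  exact h5

theorem sum_Kn_le (fc : ℕ → Fin N → Fin N → ℝ) (R j0 I : ℕ) (hR : 1 ≤ R)
    (h0 : ∀ j, (Matrix.of (fc j)).det ≠ 0)
    (hanti : ∀ j, |(Matrix.of (fc (j + R))).det| ≤ |(Matrix.of (fc j)).det|) :
    (∑ i ∈ range I, (Kn fc R (j0 + i * R) : ℝ)) ≤ I +
      (Real.logb 2 |(Matrix.of (fc j0)).det| - Real.logb 2 |(Matrix.of (fc (j0 + I * R))).det|) / R := by
  have hR0 : (0 : ℝ) < R := by exact_mod_cast hR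
  induction I with
  | zero => simp
  | succ I ih =>
    rw [Finset.sum_range_succ]
    set j := j0 + I * R with hj
    have e1 : j0 + (I + 1) * R = j + R := by rw [hj]; ring
    rw [e1]
    have h1 : (Kn fc R j : ℝ) ≤
        Real.logb 2 (|(Matrix.of (fc j)).det| / |(Matrix.of (fc (j + R))).det|) / R + 1 := by
      refine (Nat.ceil_lt_add_one ?_).le
      refine div_nonneg (Real.logb_nonneg (by norm_num) ?_) hR0.le
      rw [le_div_iff₀ (abs_pos.mpr (h0 _)), one_mul]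
      exact hanti j
    rw [Real.logb_div (abs_pos.mpr (h0 _)).ne' (abs_pos.mpr (h0 _)).ne'] at h1
    have h2 : (Real.logb 2 |(Matrix.of (fc j0)).det| - Real.logb 2 |(Matrix.of (fc (j + R))).det|) / R =
        (Real.logb 2 |(Matrix.of (fc j0)).det| - Real.logb 2 |(Matrix.of (fc j)).det|) / R +
        (Real.logb 2 |(Matrix.of (fc j)).det| - Real.logb 2 |(Matrix.of (fc (j + R))).det|) / R := by
      rw [← add_div]
      congr 1
      ring
    rw [h2]
    push_cast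
    linarith

/-- **THE PATH, averaged over the root** -/
theorem path_avg (h : PF Fl B S inc R c0 c2) (d : PD Fl B φ inc R D c1 c2 SA SC fa fc BA BC)
    (hR : 1 ≤ R) (P : ℕ → Set (Fin N → ℝ)) (hP : ∀ j, P (j + R) ⊆ P j)
    (hfr : ∀ j, IsFr (fc j) (P j)) (hdet : ∀ j, (Matrix.of (fc j)).det ≠ 0)
    (β : ℝ) (hBA : ∀ l, ((BA l).card : ℝ) ≤ β) (hBC : ∀ j, ((BC j).card : ℝ) ≤ β)
    (l0 lam j0 I Ke : ℕ) (hlam : 0 < lam)
    (hJ : ((1 : ℝ) / 2) ^ (j0 + I * R) * B ≤ φ) (hK : ((1 : ℝ) / 2) ^ (Ke * R) * B ≤ φ) :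
    ∃ l, l0 ≤ l ∧ l < l0 + lam ∧ S (KK Fl fa fc l j0) ≤ S Fl +
      (I + 1) * (N * c1 + (3 * N + 1) * c0) +
      (∑ i ∈ range I, (Kn fc R (j0 + i * R) : ℝ) + Ke) * (N * c1 + (N + 1) * c0) +
      N * c2 * β * (1 + (∑ i ∈ range I, (Kn fc R (j0 + i * R) : ℝ) + Ke) / lam) := by
  classical
  have hB0 : 0 ≤ B := d.hφ.le.trans d.hφB
  have hc2 := h.c2_nonneg
  have hc0 := h.c0_nonneg
  have hc1 := d.hc1
  have hβ : 0 ≤ β := le_trans (Nat.cast_nonneg _) (hBA 0)
  set KT : ℝ := ∑ i ∈ range I, (Kn fc R (j0 + i * R) : ℝ) + Ke with hKT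
  have hlam0 : (0 : ℝ) < lam := by exact_mod_cast hlam
  -- the bad cost of a root
  set bc : ℕ → ℝ := fun l => (∑ i ∈ range I, ∑ k ∈ range (Kn fc R (j0 + i * R)),
      bad c2 (BC (j0 + i * R)) (l + k * R)) + ∑ k ∈ range Ke, bad c2 (BC (j0 + I * R)) (l + k * R)
    with hbc
  have havg : ∃ l ∈ Finset.Ico l0 (l0 + lam), bc l * lam ≤ c2 * β * KT := by
    by_contra hcon
    push Not at hcon
    have h1 : ∑ l ∈ Finset.Ico l0 (l0 + lam), c2 * β * KT < ∑ l ∈ Finset.Ico l0 (l0 + lam), bc l * lam := by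
      refine Finset.sum_lt_sum_of_nonempty ?_ hcon
      rw [Finset.nonempty_Ico]
      omega
    rw [Finset.sum_const, Nat.card_Ico, nsmul_eq_mul, ← Finset.sum_mul] at h1
    have h2 : ∑ l ∈ Finset.Ico l0 (l0 + lam), bc l ≤ c2 * β * KT := by
      rw [hbc]
      simp only
      rw [Finset.sum_add_distrib, Finset.sum_comm]
      have h3 : ∀ (T : Finset ℕ) (s : ℕ), (T.card : ℝ) ≤ β →
          ∑ l ∈ Finset.Ico l0 (l0 + lam), bad c2 T (l + s) ≤ c2 * β := by
        intro T s hT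
        have h4 := sum_bad_le hc2 T (Finset.Ico l0 (l0 + lam)) (fun l => l + s) (by
          intro a _ b _ hab
          omega)
        exact h4.trans (mul_le_mul_of_nonneg_left hT hc2)
      have h5 : ∑ i ∈ range I, ∑ l ∈ Finset.Ico l0 (l0 + lam),
          ∑ k ∈ range (Kn fc R (j0 + i * R)), bad c2 (BC (j0 + i * R)) (l + k * R) ≤
          ∑ i ∈ range I, c2 * β * (Kn fc R (j0 + i * R) : ℝ) := by
        refine Finset.sum_le_sum fun i _ => ?_
        rw [Finset.sum_comm]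
        calc ∑ k ∈ range (Kn fc R (j0 + i * R)), ∑ l ∈ Finset.Ico l0 (l0 + lam),
              bad c2 (BC (j0 + i * R)) (l + k * R)
            ≤ ∑ _k ∈ range (Kn fc R (j0 + i * R)), c2 * β :=
              Finset.sum_le_sum fun k _ => h3 _ _ (hBC _)
          _ = c2 * β * (Kn fc R (j0 + i * R) : ℝ) := by
              rw [Finset.sum_const, Finset.card_range, nsmul_eq_mul]
              ring
      have h6 : ∑ l ∈ Finset.Ico l0 (l0 + lam), ∑ k ∈ range Ke,
          bad c2 (BC (j0 + I * R)) (l + k * R) ≤ c2 * β * Ke := by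
        rw [Finset.sum_comm]
        calc ∑ k ∈ range Ke, ∑ l ∈ Finset.Ico l0 (l0 + lam), bad c2 (BC (j0 + I * R)) (l + k * R)
            ≤ ∑ _k ∈ range Ke, c2 * β := Finset.sum_le_sum fun k _ => h3 _ _ (hBC _)
          _ = c2 * β * Ke := by
              rw [Finset.sum_const, Finset.card_range, nsmul_eq_mul]
              ring
      rw [← Finset.mul_sum] at h5
      rw [hKT, mul_add]
      linarith
    have h7 : ((l0 + lam - l0 : ℕ) : ℝ) = lam := by
      congr 1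
      omega
    rw [h7] at h1
    nlinarith
  obtain ⟨l, hl, hbl⟩ := havg
  rw [Finset.mem_Ico] at hl
  refine ⟨l, hl.1, hl.2, ?_⟩
  have hp := path h d l j0 I Ke (fun i => Kn fc R (j0 + i * R)) ?_ hJ ?_
  · have h1 : ∑ i ∈ range I, bad c2 (BA l) (j0 + i * R) ≤ c2 * β := by
      have h4 := sum_bad_le hc2 (BA l) (range I) (fun i => j0 + i * R) (by
        intro a _ b _ hab
        have h5 : a * R = b * R := by omega
        exact Nat.eq_of_mul_eq_mul_right (by omega) h5)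
      exact h4.trans (mul_le_mul_of_nonneg_left (hBA l) hc2)
    have e1 : (∑ i ∈ range I, ((N * (c1 + bad c2 (BA l) (j0 + i * R)) + (3 * N + 1) * c0) +
        ∑ k ∈ range (Kn fc R (j0 + i * R)),
          (N * (c1 + bad c2 (BC (j0 + i * R)) (l + k * R)) + (N + 1) * c0))) +
      (2 * N * c0 +
        ∑ k ∈ range Ke, (N * (c1 + bad c2 (BC (j0 + I * R)) (l + k * R)) + (N + 1) * c0)) =
        I * (N * c1 + (3 * N + 1) * c0) + N * ∑ i ∈ range I, bad c2 (BA l) (j0 + i * R) +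
        KT * (N * c1 + (N + 1) * c0) + 2 * N * c0 + N * bc l := by
      have e2 : ∀ (K : ℕ) (f : ℕ → ℝ), ∑ k ∈ range K, (N * (c1 + f k) + (N + 1) * c0) =
          K * (N * c1 + (N + 1) * c0) + N * ∑ k ∈ range K, f k := by
        intro K f
        have e3 : ∀ k, (N : ℝ) * (c1 + f k) + (N + 1) * c0 =
            (N * c1 + (N + 1) * c0) + N * f k := by
          intro k
          ring
        simp_rw [e3]
        rw [Finset.sum_add_distrib, Finset.sum_const, Finset.card_range, nsmul_eq_mul,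
          ← Finset.mul_sum]
      simp_rw [e2]
      rw [Finset.sum_add_distrib, Finset.sum_add_distrib, Finset.sum_add_distrib,
        ← Finset.mul_sum, Finset.sum_add_distrib, Finset.sum_const, Finset.sum_const,
        Finset.card_range, ← Finset.sum_mul, ← Finset.mul_sum, hKT, hbc]
      simp only [nsmul_eq_mul]
      ring
    have h2 : (N : ℝ) * bc l ≤ N * c2 * β * (KT / lam) := by
      have h3 : bc l ≤ c2 * β * KT / lam := by
        rw [le_div_iff₀ hlam0]
        exact hbl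
      have h4 : (0 : ℝ) ≤ N := Nat.cast_nonneg _
      calc (N : ℝ) * bc l ≤ N * (c2 * β * KT / lam) := mul_le_mul_of_nonneg_left h3 h4
        _ = N * c2 * β * (KT / lam) := by ring
    have h4 : (0 : ℝ) ≤ N := Nat.cast_nonneg _
    have h5 : (N : ℝ) * ∑ i ∈ range I, bad c2 (BA l) (j0 + i * R) ≤ N * (c2 * β) :=
      mul_le_mul_of_nonneg_left h1 h4
    have h6 : 2 * (N : ℝ) * c0 ≤ N * c1 + (3 * N + 1) * c0 := by
      have h7 : 0 ≤ (N : ℝ) * c1 := mul_nonneg h4 hc1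
      have h8 : 0 ≤ (N : ℝ) * c0 := mul_nonneg h4 hc0
      nlinarith
    rw [add_assoc, e1] at hp
    have h9 : (N : ℝ) * c2 * β * (1 + KT / lam) = N * (c2 * β) + N * c2 * β * (KT / lam) := by ring
    rw [h9]
    have h10 : ((I : ℝ) + 1) * (N * c1 + (3 * N + 1) * c0) =
        I * (N * c1 + (3 * N + 1) * c0) + (N * c1 + (3 * N + 1) * c0) := by ring
    rw [h10]
    linarith
  · intro i _ i'
    obtain ⟨x, hx, hx1⟩ := (hfr (j0 + i * R)).coord (w' := fc (j0 + i * R + R))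
      (fun k => hP _ ((hfr (j0 + i * R + R)).1 k)) (hdet _) ((hfr (j0 + i * R)).1 i')
    exact ⟨x, hx, fun k => (hx1 k).trans (ratio_le_Kn fc R _ hR (hdet _) (hdet _))⟩
  · have h1 := half_le (show Ke * R ≤ l + Ke * R by omega)
    calc ((1 : ℝ) / 2) ^ (l + Ke * R) * B ≤ (1 / 2) ^ (Ke * R) * B :=
          mul_le_mul_of_nonneg_right h1 hB0
      _ ≤ φ := hK

end

end Pool.Agent.Helper78.FW
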