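import Pool.Agent.Helper78.FW.PathV

/-!
# The path with variable costs: averaging over the root, conclusion (ns_notes_58, row [P'])
-/

set_option autoImplicit false

namespace Pool.Agent.Helper78.FW

open Finset Matrix

variable {N : ℕ}

section

variable {Fl : Multiset (Fin N → ℝ)} {B : ℝ} {S : Multiset (Fin N → ℝ) → ℝ}
    {inc : Multiset (Fin N → ℝ) → (Fin N → ℝ) → ℝ} {R : ℕ} {c0 c2 : ℝ}
    {φ : ℝ} {D T j0 l0 : ℕ} {c1 : ℝ} {SA SC : ℕ → (Fin N → ℝ) → Prop}
    {fa fc : ℕ → Fin N → Fin N → ℝ} {ea ec : ℕ → ℕ → ℝ}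

/-- the number of refinements, capped -/
noncomputable def Km (fc : ℕ → Fin N → Fin N → ℝ) (R Ke j : ℕ) : ℕ := min (Kn fc R j) Ke

/-- sums over shifted windows -/
theorem sum_shift_le (f : ℕ → ℝ) (hf : ∀ t, 0 ≤ f t) (T lam k : ℕ) (Γ : ℝ) (h : lam + k ≤ T)
    (hΓ : ∑ t ∈ range T, f t ≤ Γ) : ∑ u ∈ range lam, f (u + k) ≤ Γ := by
  classical
  have h1 : ∑ u ∈ range lam, f (u + k) = ∑ t ∈ (range lam).image (fun u => u + k), f t := by
    rw [Finset.sum_image]
    intro a _ b _ hab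
    simp only at hab
    omega
  rw [h1]
  refine le_trans ?_ hΓ
  refine Finset.sum_le_sum_of_subset_of_nonneg ?_ fun i _ _ => hf i
  intro t ht
  obtain ⟨u, hu, rfl⟩ := Finset.mem_image.mp ht
  rw [Finset.mem_range] at hu ⊢
  omega

/-- **THE PATH, averaged over the root; variable costs** -/
theorem path_avgV (h : PF Fl B S inc R c0 c2) (d : PDV Fl B φ inc R D T j0 l0 c1 SA SC fa fc ea ec)
    (hc1 : 0 ≤ c1)
    (hR : 1 ≤ R) (P : ℕ → Set (Fin N → ℝ)) (hP : ∀ j, P (j + R) ⊆ P j)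
    (hfr : ∀ j, IsFr (fc j) (P j)) (hdet : ∀ j, (Matrix.of (fc j)).det ≠ 0)
    (Γ : ℝ) (hea0 : ∀ l t, 0 ≤ ea l t) (hec0 : ∀ j t, 0 ≤ ec j t)
    (hea : ∀ l, ∑ t ∈ range T, ea l t ≤ Γ) (hec : ∀ j, ∑ t ∈ range T, ec j t ≤ Γ)
    (lam I Ke : ℕ) (hlam : 0 < lam) (hI : I ≤ T) (hT : lam + Ke ≤ T)
    (hJ : ((1 : ℝ) / 2) ^ (j0 + I * R) * B ≤ φ) (hK : ((1 : ℝ) / 2) ^ (Ke * R) * B ≤ φ) :
    ∃ u < lam, S (KK Fl fa fc (l0 + u * R) j0) ≤ S Fl +
      (I + 1) * (N * c1 + (3 * N + 1) * c0) +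
      (∑ i ∈ range I, (Km fc R Ke (j0 + i * R) : ℝ) + Ke) * (N * c1 + (N + 1) * c0) +
      N * Γ * (1 + (∑ i ∈ range I, (Km fc R Ke (j0 + i * R) : ℝ) + Ke) / lam) := by
  classical
  have hB0 : 0 ≤ B := d.hφ.le.trans d.hφB
  have hc0 := h.c0_nonneg
  have hΓ : 0 ≤ Γ := le_trans (Finset.sum_nonneg fun t _ => hea0 0 t) (hea 0)
  set KT : ℝ := ∑ i ∈ range I, (Km fc R Ke (j0 + i * R) : ℝ) + Ke with hKT
  have hlam0 : (0 : ℝ) < lam := by exact_mod_cast hlam
  have hKm : ∀ j, Km fc R Ke j ≤ Ke := fun j => min_le_right _ _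
  -- the excess cost of a root
  set bc : ℕ → ℝ := fun u => (∑ i ∈ range I, ∑ k ∈ range (Km fc R Ke (j0 + i * R)),
      ec (j0 + i * R) (u + k)) + ∑ k ∈ range Ke, ec (j0 + I * R) (u + k)
    with hbc
  have havg : ∃ u ∈ range lam, bc u * lam ≤ Γ * KT := by
    by_contra hcon
    push Not at hcon
    have h1 : ∑ u ∈ range lam, Γ * KT < ∑ u ∈ range lam, bc u * lam := by
      refine Finset.sum_lt_sum_of_nonempty ?_ hcon
      rw [Finset.nonempty_range_iff]
      omega
    rw [Finset.sum_const, Finset.card_range, nsmul_eq_mul, ← Finset.sum_mul] at h1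
    have h2 : ∑ u ∈ range lam, bc u ≤ Γ * KT := by
      rw [hbc]
      simp only
      rw [Finset.sum_add_distrib, Finset.sum_comm]
      have h3 : ∀ (j k : ℕ), k < Ke → ∑ u ∈ range lam, ec j (u + k) ≤ Γ := by
        intro j k hk
        exact sum_shift_le (ec j) (hec0 j) T lam k Γ (by omega) (hec j)
      have h5 : ∑ i ∈ range I, ∑ u ∈ range lam,
          ∑ k ∈ range (Km fc R Ke (j0 + i * R)), ec (j0 + i * R) (u + k) ≤
          ∑ i ∈ range I, Γ * (Km fc R Ke (j0 + i * R) : ℝ) := by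
        refine Finset.sum_le_sum fun i _ => ?_
        rw [Finset.sum_comm]
        calc ∑ k ∈ range (Km fc R Ke (j0 + i * R)), ∑ u ∈ range lam, ec (j0 + i * R) (u + k)
            ≤ ∑ _k ∈ range (Km fc R Ke (j0 + i * R)), Γ :=
              Finset.sum_le_sum fun k hk =>
                h3 _ _ ((Finset.mem_range.mp hk).trans_le (hKm _))
          _ = Γ * (Km fc R Ke (j0 + i * R) : ℝ) := by
              rw [Finset.sum_const, Finset.card_range, nsmul_eq_mul]
              ring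
      have h6 : ∑ u ∈ range lam, ∑ k ∈ range Ke, ec (j0 + I * R) (u + k) ≤ Γ * Ke := by
        rw [Finset.sum_comm]
        calc ∑ k ∈ range Ke, ∑ u ∈ range lam, ec (j0 + I * R) (u + k)
            ≤ ∑ _k ∈ range Ke, Γ :=
              Finset.sum_le_sum fun k hk => h3 _ _ (Finset.mem_range.mp hk)
          _ = Γ * Ke := by
              rw [Finset.sum_const, Finset.card_range, nsmul_eq_mul]
              ring
      rw [← Finset.mul_sum] at h5
      rw [hKT, mul_add]
      linarith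
    nlinarith
  obtain ⟨u, hu, hbu⟩ := havg
  rw [Finset.mem_range] at hu
  refine ⟨u, hu, ?_⟩
  have hFl0 : fam (flr (N := N) φ) ≤ Fl := by rw [d.hFl]
  have hp := pathV h d u I Ke (fun i => Km fc R Ke (j0 + i * R)) hI (by omega)
    (fun i _ => by have := hKm (j0 + i * R); omega) ?_ hJ ?_
  · have e1 : (∑ i ∈ range I, ((N * (c1 + ea (l0 + u * R) i) + (3 * N + 1) * c0) +
        ∑ k ∈ range (Km fc R Ke (j0 + i * R)),
          (N * (c1 + ec (j0 + i * R) (u + k)) + (N + 1) * c0))) +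
      (2 * N * c0 +
        ∑ k ∈ range Ke, (N * (c1 + ec (j0 + I * R) (u + k)) + (N + 1) * c0)) =
        I * (N * c1 + (3 * N + 1) * c0) + N * ∑ i ∈ range I, ea (l0 + u * R) i +
        KT * (N * c1 + (N + 1) * c0) + 2 * N * c0 + N * bc u := by
      have e2 : ∀ (K : ℕ) (f : ℕ → ℝ), ∑ k ∈ range K, (N * (c1 + f k) + (N + 1) * c0) =
          K * (N * c1 + (N + 1) * c0) + N * ∑ k ∈ range K, f k := by
        intro K f
        have e3 : ∀ k, (N : ℝ) * (c1 + f k) + (N + 1) * c0 =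
            (N * c1 + (N + 1) * c0) + N * f k := by
          intro k
          ring
        simp_rw [e3]
        rw [Finset.sum_add_distrib, Finset.sum_const, Finset.card_range, nsmul_eq_mul,
          ← Finset.mul_sum]
      simp_rw [e2]
      rw [Finset.sum_add_distrib, Finset.sum_add_distrib, Finset.sum_add_distrib,
        ← Finset.mul_sum, Finset.sum_add_distrib, Finset.sum_const, Finset.sum_const,
        Finset.card_range, ← Finset.sum_mul, ← Finset.mul_sum, hKT, hbc]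
      simp only [nsmul_eq_mul]
      ring
    have h1 : ∑ i ∈ range I, ea (l0 + u * R) i ≤ Γ := by
      refine le_trans ?_ (hea (l0 + u * R))
      exact Finset.sum_le_sum_of_subset_of_nonneg
        (Finset.range_subset_range.mpr hI) fun i _ _ => hea0 _ i
    have h2 : (N : ℝ) * bc u ≤ N * Γ * (KT / lam) := by
      have h3 : bc u ≤ Γ * KT / lam := by
        rw [le_div_iff₀ hlam0]
        exact hbu
      have h4 : (0 : ℝ) ≤ N := Nat.cast_nonneg _
      calc (N : ℝ) * bc u ≤ N * (Γ * KT / lam) := mul_le_mul_of_nonneg_left h3 h4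
        _ = N * Γ * (KT / lam) := by ring
    have h4 : (0 : ℝ) ≤ N := Nat.cast_nonneg _
    have h5 : (N : ℝ) * ∑ i ∈ range I, ea (l0 + u * R) i ≤ N * Γ :=
      mul_le_mul_of_nonneg_left h1 h4
    have h6 : 2 * (N : ℝ) * c0 ≤ N * c1 + (3 * N + 1) * c0 := by
      have h7 : 0 ≤ (N : ℝ) * c1 := mul_nonneg h4 hc1
      have h8 : 0 ≤ (N : ℝ) * c0 := mul_nonneg h4 hc0
      nlinarith
    rw [add_assoc, e1] at hp
    have h9 : (N : ℝ) * Γ * (1 + KT / lam) = N * Γ + N * Γ * (KT / lam) := by ring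
    rw [h9]
    have h10 : ((I : ℝ) + 1) * (N * c1 + (3 * N + 1) * c0) =
        I * (N * c1 + (3 * N + 1) * c0) + (N * c1 + (3 * N + 1) * c0) := by ring
    rw [h10]
    linarith
  · intro i _ i'
    by_cases hmin : Kn fc R (j0 + i * R) ≤ Ke
    · have e0 : Km fc R Ke (j0 + i * R) = Kn fc R (j0 + i * R) := min_eq_left hmin
      rw [e0]
      obtain ⟨x, hx, hx1⟩ := (hfr (j0 + i * R)).coord (w' := fc (j0 + i * R + R))
        (fun k => hP _ ((hfr (j0 + i * R + R)).1 k)) (hdet _) ((hfr (j0 + i * R)).1 i')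
      have hx2 := fun k => (hx1 k).trans (ratio_le_Kn fc R _ hR (hdet _) (hdet _))
      set K := Kn fc R (j0 + i * R) with hKdef
      have e1 : l0 + (u + K) * R = l0 + u * R + K * R := by ring
      unfold sc
      rw [e1]
      refine InB.of_coord (fc (j0 + i * R + R)) (((1 : ℝ) / 2) ^ (l0 + u * R)) ?_ x hx fun k => ?_
      · intro i''
        unfold ZC
        exact Multiset.mem_add.mpr (Or.inr (mem_fam (sc (l0 + u * R) (fc (j0 + i * R + R))) i''))
      · rw [abs_mul, abs_half, abs_half, pow_add]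
        have h5 := hx2 k
        have h6 : ((1 : ℝ) / 2) ^ (K * R) * 2 ^ (K * R) = 1 := by
          rw [← mul_pow]
          norm_num
        have h7 : (0 : ℝ) ≤ (1 / 2) ^ (l0 + u * R) := by positivity
        have h8 : (0 : ℝ) ≤ (1 / 2) ^ (K * R) := by positivity
        calc ((1 : ℝ) / 2) ^ (l0 + u * R) * (1 / 2) ^ (K * R) * |x k|
            ≤ ((1 : ℝ) / 2) ^ (l0 + u * R) * (1 / 2) ^ (K * R) * 2 ^ (K * R) :=
              mul_le_mul_of_nonneg_left h5 (mul_nonneg h7 h8)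
          _ = (1 / 2) ^ (l0 + u * R) := by rw [mul_assoc, h6, mul_one]
    · have e0 : Km fc R Ke (j0 + i * R) = Ke := min_eq_right (by omega)
      rw [e0]
      refine InB.flr d.hφ (hFl0.trans ?_) fun c => ?_
      · unfold ZC
        rw [add_assoc]
        exact Multiset.le_add_right _ _
      · unfold sc
        rw [Pi.smul_apply, smul_eq_mul, abs_mul, abs_of_nonneg (by positivity)]
        have h1 := half_le (show Ke * R ≤ l0 + (u + Ke) * R by nlinarith)
        calc ((1 : ℝ) / 2) ^ (l0 + (u + Ke) * R) * |fc (j0 + i * R) i' c|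
            ≤ (1 / 2) ^ (l0 + (u + Ke) * R) * B :=
              mul_le_mul_of_nonneg_left (d.fcb _ _ _) (by positivity)
          _ ≤ (1 / 2) ^ (Ke * R) * B := mul_le_mul_of_nonneg_right h1 hB0
          _ ≤ φ := hK
  · have h1 := half_le (show Ke * R ≤ l0 + (u + Ke) * R by nlinarith)
    calc ((1 : ℝ) / 2) ^ (l0 + (u + Ke) * R) * B ≤ (1 / 2) ^ (Ke * R) * B :=
          mul_le_mul_of_nonneg_right h1 hB0
      _ ≤ φ := hK

end

end Pool.Agent.Helper78.FW
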