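import Pool.Agent.Helper61.FW.Cx
import Pool.Agent.Helper58.FW.Cb
import Pool.Agent.Helper99.FW.Cla

/-!
# The bad events of the blocks of carriers at one value of the spectators (row [hA])

`beta_ex` : the blocks are exchangeable given the label of the spectators.  `bt` : the probability of the bad event of
the carriers of one block at a level, at the value `w`; `bt_mean` : its mean.
-/

set_option autoImplicit false

namespace Pool.Agent.Helper78.FW

open Finset Pool.Agent.Helper69.RK Pool.Agent.Helper46.WF Pool.Agent.Helper58.VW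
open Pool.Agent.Helper25.FA Pool.Agent.Helper61.FW Pool.Agent.Helper99.FW
open Pool.Agent.Helper61.GL hiding fl

variable {Ω φ α β R : Type} [Fintype Ω] {N k K : ℕ} {D : ED Ω φ α β N} {Λ : Type} [Fintype Λ] {l : Λ → ℝ}
  {en : Fin (k + 2 * K) → Fin (k + 2 * K) → Λ → Ω} {E : ℝ}

/-- a permutation which moves a block to another block -/
theorem perm_blk (b b1 : Fin K) : ∃ σ : Equiv.Perm (Fin (k + 2 * K)),
    (∀ e, σ (car b1 e) = car b e) ∧ ∀ c ∈ spc k K, σ c = c := by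
  by_cases hb : b = b1
  · subst hb
    exact ⟨Equiv.refl _, fun _ => rfl, fun _ _ => rfl⟩
  · refine ⟨Equiv.swap (car b 0) (car b1 0) * Equiv.swap (car b 1) (car b1 1), ?_, ?_⟩
    · have h1 : car (k := k) b1 0 ≠ car b 1 := fun h => hb (car_inj h).1.symm
      have h2 : car (k := k) b1 0 ≠ car b1 1 := fun h => absurd (car_inj h).2 (by decide)
      have h3 : car (k := k) b 1 ≠ car b 0 := fun h => absurd (car_inj h).2 (by decide)
      have h4 : car (k := k) b 1 ≠ car b1 0 := fun h => hb (car_inj h).1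
      intro e
      rcases Fin.exists_fin_two.1 ⟨e, rfl⟩ with h | h
      · subst h
        rw [Equiv.Perm.mul_apply, Equiv.swap_apply_of_ne_of_ne h1 h2, Equiv.swap_apply_right]
      · subst h
        rw [Equiv.Perm.mul_apply, Equiv.swap_apply_right, Equiv.swap_apply_of_ne_of_ne h3 h4]
    · intro c hc
      have h : ∀ (b' : Fin K) (e : Fin 2), c ≠ car b' e := by
        intro b' e h
        subst h
        exact car_notin b' e hc
      rw [Equiv.Perm.mul_apply, Equiv.swap_apply_of_ne_of_ne (h b 1) (h b1 1),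
        Equiv.swap_apply_of_ne_of_ne (h b 0) (h b1 0)]

/-- **EXCHANGE OF THE BLOCKS** given the label of the spectators -/
theorem beta_ex (hr : AR D l en E) (hx : XA l en) (a0 b0 : Fin (k + 2 * K)) (w : Λ) (b b1 : Fin K)
    (Ev : ({c // c ∈ spc k K} → β) → β → β → Prop) :
    Pw (cw l (Fp D en a0 b0) w) (fun x => Ev (QC D en a0 (spc k K) x) (D.Q (en a0 (car b 0) x))
      (D.Q (en a0 (car b 1) x))) =
    Pw (cw l (Fp D en a0 b0) w) (fun x => Ev (QC D en a0 (spc k K) x) (D.Q (en a0 (car b1 0) x))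
      (D.Q (en a0 (car b1 1) x))) := by
  obtain ⟨σ, h1, h2⟩ := perm_blk (k := k) b b1
  obtain ⟨e, he, hen⟩ := hx.col σ
  have hQC : ∀ x, QC D en a0 (spc k K) (e x) = QC D en a0 (spc k K) x := by
    intro x
    funext c
    show D.Q (en a0 c.1 (e x)) = D.Q (en a0 c.1 x)
    rw [hen, h2 c.1 c.2]
  refine Pool.Agent.Helper58.FW.cw_equiv l (Fp D en a0 b0) e he ?_ w _ _ ?_
  · intro x hx0
    unfold Fp
    rw [hQC x]
    refine Prod.ext (Prod.ext ?_ rfl) ?_
    · funext a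
      show D.P (en a.1 b0 (e x)) = D.P (en a.1 b0 x)
      rw [hen]
      exact hr.sP x hx0 a.1 (σ b0) b0
    · show D.F (en a0 b0 (e x)) = D.F (en a0 b0 x)
      rw [hen]
      exact hr.sF x hx0 a0 (σ b0) a0 b0
  · intro x _
    rw [hQC x, hen, hen, h1, h1]

/-- the spectators determine their family -/
theorem fmL_congr {B : ℕ} {S : Sd φ β R N} {g : ℝ} {s : Finset (Fin B)} {x x' : Fin B → β} {J : ℕ}
    (h : ∀ b ∈ s, x b = x' b) : fmL S g s x J = fmL S g s x' J := by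
  unfold fmL famS
  congr 1
  exact Finset.sum_congr rfl fun b hb => by rw [h b hb]

/-- the bad event of a pair of right points at the level `J`, relative to the spectators of `w` -/
def BdQ (SR : Sd φ β R N) (S' C₀ : ℕ) (r g : ℝ) (D : ED Ω φ α β N)
    (en : Fin (k + 2 * K) → Fin (k + 2 * K) → Λ → Ω) (a0 : Fin (k + 2 * K)) (w : Λ) (J : ℕ) (q q' : β) : Prop :=
  BadQ SR S' C₀ r (fmL SR g (spc k K) (fun b => D.Q (en a0 b w)) J) J q q'

omit [Fintype Λ] in
theorem BdQ_congr {SR : Sd φ β R N} {S' C₀ : ℕ} {r g : ℝ} {a0 : Fin (k + 2 * K)} {w w' : Λ}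
    (h : QC D en a0 (spc k K) w = QC D en a0 (spc k K) w') (J : ℕ) (q q' : β) :
    BdQ SR S' C₀ r g D en a0 w J q q' ↔ BdQ SR S' C₀ r g D en a0 w' J q q' := by
  unfold BdQ
  rw [fmL_congr (x := fun b => D.Q (en a0 b w)) (x' := fun b => D.Q (en a0 b w')) fun b hb =>
    congrFun h ⟨b, hb⟩]

/-- the probability at `w` of the bad event of the points `c₁`, `c₂` at the level `J` -/
noncomputable def bt (SR : Sd φ β R N) (S' C₀ : ℕ) (r g : ℝ) (D : ED Ω φ α β N) (l : Λ → ℝ)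
    (en : Fin (k + 2 * K) → Fin (k + 2 * K) → Λ → Ω) (a0 b0 c₁ c₂ : Fin (k + 2 * K)) (J : ℕ) (w : Λ) : ℝ :=
  Pw (cw l (Fp D en a0 b0) w) (fun x => BdQ SR S' C₀ r g D en a0 w J (D.Q (en a0 c₁ x)) (D.Q (en a0 c₂ x)))

/-- all blocks have the same bad probability -/
theorem bt_ex (hr : AR D l en E) (hx : XA l en) {SR : Sd φ β R N} {S' C₀ : ℕ} {r g : ℝ} (a0 b0 : Fin (k + 2 * K))
    (J : ℕ) (w : Λ) (b b1 : Fin K) :
    bt SR S' C₀ r g D l en a0 b0 (car b 0) (car b 1) J w = bt SR S' C₀ r g D l en a0 b0 (car b1 0) (car b1 1) J w :=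
  beta_ex hr hx a0 b0 w b b1 (fun _ q q' => BdQ SR S' C₀ r g D en a0 w J q q')

/-- **the mean of the bad probability** -/
theorem bt_mean (hl : ∀ w, 0 ≤ l w) {SR : Sd φ β R N} {S' C₀ : ℕ} {r g : ℝ} (a0 b0 c₁ c₂ : Fin (k + 2 * K)) (J : ℕ) :
    ∑ w, l w * bt SR S' C₀ r g D l en a0 b0 c₁ c₂ J w =
      Pw l (fun w => BadQ SR S' C₀ r (fmL SR g (spc k K) (fun b => D.Q (en a0 b w)) J) J
        (D.Q (en a0 c₁ w)) (D.Q (en a0 c₂ w))) := by
  classical
  have e0 : Pw l (fun w => BadQ SR S' C₀ r (fmL SR g (spc k K) (fun b => D.Q (en a0 b w)) J) J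
        (D.Q (en a0 c₁ w)) (D.Q (en a0 c₂ w))) =
      Pw l (fun w => BdQ SR S' C₀ r g D en a0 w J (D.Q (en a0 c₁ w)) (D.Q (en a0 c₂ w))) := rfl
  rw [e0, ← Pool.Agent.Helper92.FW.xg_Pw l hl (Fp D en a0 b0)
    (fun w => BdQ SR S' C₀ r g D en a0 w J (D.Q (en a0 c₁ w)) (D.Q (en a0 c₂ w)))]
  refine Finset.sum_congr rfl fun w _ => ?_
  congr 1
  unfold bt Pw
  refine Finset.sum_congr rfl fun x _ => ?_
  by_cases h0 : cw l (Fp D en a0 b0) w x = 0
  · rw [h0]
    split_ifs <;> rfl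
  · have h1 : Fp D en a0 b0 x = Fp D en a0 b0 w := (cw_ne_zero _ _ h0).1
    have h2 : QC D en a0 (spc k K) w = QC D en a0 (spc k K) x := by
      have h3 := congrArg (fun p => p.1.2) h1
      exact h3.symm
    have h4 := BdQ_congr (SR := SR) (S' := S') (C₀ := C₀) (r := r) (g := g) h2 J (D.Q (en a0 c₁ x)) (D.Q (en a0 c₂ x))
    by_cases h5 : BdQ SR S' C₀ r g D en a0 w J (D.Q (en a0 c₁ x)) (D.Q (en a0 c₂ x))
    · rw [if_pos h5, if_pos (h4.1 h5)]
    · rw [if_neg h5, if_neg (fun h => h5 (h4.2 h))]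

end Pool.Agent.Helper78.FW
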