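import Pool.Agent.Helper78.FW.PathA
import Pool.Agent.Helper99.FW.Cls
import Pool.Agent.Helper70.FW.Top

/-!
# From short bodies of the spectators to the tubes of the theorem (ns_notes_58, section 4, row [FIN])

The body of one more row is in boxes of the bodies of the spectators (exchangeability), hence short; its law is the
law of the point of the edge; so the nodes of the level have tubes of small width.
-/

set_option autoImplicit false

namespace Pool.Agent.Helper78.FW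

open Finset Matrix Pool.Agent.Helper69.RK Pool.Agent.Helper61.GL Pool.Agent.Helper15.VW
open Pool.Agent.Helper46.WF Pool.Agent.Helper99.FW Pool.Agent.Helper70.FW
open Pool.Agent.Helper31.EC (push_ind ind_nonneg)

variable {N : ℕ}

theorem finT_push {Λ Ω : Type} [Fintype Λ] [Fintype Ω] (l : Λ → ℝ) (π : Λ → Ω) (E : Ω → Prop) :
    Pw (push π l) E = Pw l (fun w => E (π w)) := by
  classical
  unfold Pw
  have h := push_sum π l (fun ω => if E ω then (1 : ℝ) else 0)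
  calc ∑ ω, (if E ω then push π l ω else 0) = ∑ ω, push π l ω * (if E ω then (1 : ℝ) else 0) := by
        refine Finset.sum_congr rfl fun ω _ => ?_
        split_ifs <;> simp
    _ = ∑ w, l w * (if E (π w) then (1 : ℝ) else 0) := h
    _ = ∑ w, (if E (π w) then l w else 0) := by
        refine Finset.sum_congr rfl fun w _ => ?_
        split_ifs <;> simp

/-- the body of one more element is short -/
theorem short_node {Λ β : Type} [Fintype Λ] {B' : ℕ} (l : Λ → ℝ) (hl : ∀ w, 0 ≤ l w) (x : Λ → Fin B' → β)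
    (hinv : ∀ (a b : Fin B') (Q : (Fin B' → β) → Prop),
      Pw l (fun w => Q (x w ∘ Equiv.swap a b)) = Pw l (fun w => Q (x w)))
    {φ : ℝ} (hφ : 0 < φ) (V : β → Fin N → Fin N → ℝ) (S : Finset (Fin B')) (c : Fin B') (hc : c ∉ S)
    (bd δ : ℝ) (hbd : φ ≤ bd)
    (h : Pw l (fun w => ¬ ∀ a ∈ S, ∀ i j, |V (x w a) i j| ≤ bd) ≤ δ) :
    Pw l (fun w => ¬ ∀ i j, |V (x w c) i j| ≤ N * bd) ≤ δ + N / (S.card + 1) * mass l := by
  classical
  have hd := dom_exch l hl x hinv hφ V S c hc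
  have h1 : Pw l (fun w => ¬ ∀ i j, |V (x w c) i j| ≤ N * bd) ≤
      Pw l (fun w => (¬ ∀ a ∈ S, ∀ i j, |V (x w a) i j| ≤ bd) ∨
        ¬ ∀ i, InB (famS φ V (x w) S) (V (x w c) i)) := by
    refine Pw_mono l hl fun w _ hbad => ?_
    by_contra hcon
    push Not at hcon
    obtain ⟨h2, h3⟩ := hcon
    apply hbad
    intro i j
    obtain ⟨u, hu, y, hy, hV⟩ := h3 i
    rw [hV, Finset.sum_apply]
    have h4 : ∀ k ∈ (univ : Finset (Fin N)), |(y k • u k) j| ≤ bd := by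
      intro k _
      have h5 : |u k j| ≤ bd := by
        rcases mem_famS.mp (hu k) with h6 | ⟨a, ha, h6⟩
        · obtain ⟨i', hi'⟩ := (mem_fam_iff _ _).mp h6
          rw [← hi']
          refine le_trans ?_ hbd
          unfold flr
          by_cases hji : j = i'
          · subst hji
            rw [Pi.single_eq_same, abs_of_pos hφ]
          · rw [Pi.single_eq_of_ne hji, abs_zero]
            exact hφ.le
        · obtain ⟨i', hi'⟩ := (mem_fam_iff _ _).mp h6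
          rw [← hi']
          exact h2 a ha i' j
      rw [Pi.smul_apply, smul_eq_mul, abs_mul]
      have h7 := hy k
      have h8 := abs_nonneg (u k j)
      have h9 := abs_nonneg (y k)
      nlinarith
    calc |∑ k, (y k • u k) j| ≤ ∑ k, |(y k • u k) j| := Finset.abs_sum_le_sum_abs _ _
      _ ≤ ∑ _k : Fin N, bd := Finset.sum_le_sum h4
      _ = N * bd := by rw [Finset.sum_const, Finset.card_fin, nsmul_eq_mul]
  have h2 := Pw_or l hl (fun w => ¬ ∀ a ∈ S, ∀ i j, |V (x w a) i j| ≤ bd)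
    (fun w => ¬ ∀ i, InB (famS φ V (x w) S) (V (x w c) i))
  linarith

/-- **TUBES FROM SHORT NODES** -/
theorem tubF_of_node {Ω ψ β : Type} [Fintype Ω] {n : ℕ} {ε κ : ℝ} (μ : Ω → ℝ) (hμ : ∀ ω, 0 ≤ μ ω)
    (F : Ω → ψ) (T : Ω → ℝ) (A : Ω → Fin N → ℝ) (nd : Ω → β) (a o : β → Fin N → ℝ)
    (V : β → Fin N → Fin N → ℝ) (p : β → Seminorm ℝ (Fin N → ℝ)) (hFr : ∀ y, FrOf (p y) (V y)) (r bd : ℝ)
    (hbr : N * (r * bd) ≤ (2 : ℝ) ^ (-(κ * n))) (δ1 δ2 δ3 : ℝ)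
    (hR : CH μ nd F ≤ ε * n)
    (hsz : Pw μ (fun ω => ¬ ∀ i, |a (nd ω) i| ≤ (2 : ℝ) ^ (ε * n) ∧ |o (nd ω) i| ≤ (2 : ℝ) ^ (ε * n)) ≤ δ1)
    (htb : Pw μ (fun ω => r < p (nd ω) (A ω - T ω • a (nd ω) - o (nd ω))) ≤ δ2)
    (hsh : Pw μ (fun ω => ¬ ∀ i j, |V (nd ω) i j| ≤ bd) ≤ δ3) (hδ : δ1 + δ2 + δ3 ≤ ε) :
    TubF N n ε 0 κ μ F T A := by
  classical
  refine ⟨β, nd, fun ω => a (nd ω), fun ω => o (nd ω), hR,
    fun ω ω' _ _ _ h _ => ⟨by simp only [h], by simp only [h]⟩, ?_⟩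
  have h1 : Pw μ (fun ω => ¬ ∀ i, |a (nd ω) i| ≤ (2 : ℝ) ^ (ε * n) ∧ |o (nd ω) i| ≤ (2 : ℝ) ^ (ε * n) ∧
      |A ω i - a (nd ω) i * T ω - o (nd ω) i| ≤ (2 : ℝ) ^ (-(κ * n))) ≤
      Pw μ (fun ω => (¬ ∀ i, |a (nd ω) i| ≤ (2 : ℝ) ^ (ε * n) ∧ |o (nd ω) i| ≤ (2 : ℝ) ^ (ε * n)) ∨
        (r < p (nd ω) (A ω - T ω • a (nd ω) - o (nd ω)) ∨ ¬ ∀ i j, |V (nd ω) i j| ≤ bd)) := by
    refine Pw_mono μ hμ fun ω _ hbad => ?_
    by_contra hcon
    push Not at hcon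
    obtain ⟨h2, h3, h4⟩ := hcon
    apply hbad
    intro i
    refine ⟨(h2 i).1, (h2 i).2, ?_⟩
    obtain ⟨x, hx, hv⟩ := hFr (nd ω) _ r h3
    have h5 := congrFun hv i
    rw [Finset.sum_apply] at h5
    have h6 : A ω i - a (nd ω) i * T ω - o (nd ω) i = ∑ k, (x k • V (nd ω) k) i := by
      rw [← h5]
      simp only [Pi.sub_apply, Pi.smul_apply, smul_eq_mul]
      ring
    rw [h6]
    refine le_trans (Finset.abs_sum_le_sum_abs _ _) (le_trans ?_ hbr)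
    calc ∑ k, |(x k • V (nd ω) k) i| ≤ ∑ _k : Fin N, r * bd := by
          refine Finset.sum_le_sum fun k _ => ?_
          rw [Pi.smul_apply, smul_eq_mul, abs_mul]
          exact mul_le_mul (hx k) (h4 k i) (abs_nonneg _) ((abs_nonneg _).trans (hx k))
      _ = N * (r * bd) := by rw [Finset.sum_const, Finset.card_fin, nsmul_eq_mul]
  refine h1.trans ?_
  have o1 := Pw_or μ hμ
    (fun ω => ¬ ∀ i, |a (nd ω) i| ≤ (2 : ℝ) ^ (ε * n) ∧ |o (nd ω) i| ≤ (2 : ℝ) ^ (ε * n))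
    (fun ω => r < p (nd ω) (A ω - T ω • a (nd ω) - o (nd ω)) ∨ ¬ ∀ i j, |V (nd ω) i j| ≤ bd)
  have o2 := Pw_or μ hμ (fun ω => r < p (nd ω) (A ω - T ω • a (nd ω) - o (nd ω)))
    (fun ω => ¬ ∀ i j, |V (nd ω) i j| ≤ bd)
  linarith

/-- **[FIN]**: tubes of the edge law from the short bodies of the spectators of the array -/
theorem finT {Λ Ω ψ β : Type} [Fintype Λ] [Fintype Ω] {B' n : ℕ} {ε κ : ℝ} (l : Λ → ℝ) (hl : ∀ w, 0 ≤ l w)
    (μ : Ω → ℝ) (π : Fin B' → Λ → Ω) (hπ : ∀ a, push (π a) l = μ)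
    (F : Ω → ψ) (T : Ω → ℝ) (A : Ω → Fin N → ℝ) (nd : Ω → β) (a o : β → Fin N → ℝ)
    (hinv : ∀ (c c' : Fin B') (Q : (Fin B' → β) → Prop),
      Pw l (fun w => Q ((fun b => nd (π b w)) ∘ Equiv.swap c c')) = Pw l (fun w => Q (fun b => nd (π b w))))
    {φ : ℝ} (hφ : 0 < φ)
    (V : β → Fin N → Fin N → ℝ) (p : β → Seminorm ℝ (Fin N → ℝ)) (hFr : ∀ y, FrOf (p y) (V y)) (r bd : ℝ)
    (hbd : φ ≤ bd) (hbr : N * (r * (N * bd)) ≤ (2 : ℝ) ^ (-(κ * n)))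
    (S : Finset (Fin B')) (c : Fin B') (hc : c ∉ S) (W : Λ → Finset (Fin N → ℝ))
    (hW : ∀ w, l w ≠ 0 → ∀ b ∈ S, ∀ i, V (nd (π b w)) i ∈ W w) (δ δ1 δ2 : ℝ)
    (hW' : Pw l (fun w => ¬ ∀ v ∈ W w, ∀ j, |v j| ≤ bd) ≤ δ)
    (hR : CH μ nd F ≤ ε * n)
    (hsz : Pw μ (fun ω => ¬ ∀ i, |a (nd ω) i| ≤ (2 : ℝ) ^ (ε * n) ∧ |o (nd ω) i| ≤ (2 : ℝ) ^ (ε * n)) ≤ δ1)
    (htb : Pw μ (fun ω => r < p (nd ω) (A ω - T ω • a (nd ω) - o (nd ω))) ≤ δ2)
    (hδ : δ1 + δ2 + (δ + N / (S.card + 1) * mass l) ≤ ε) :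
    TubF N n ε 0 κ μ F T A := by
  classical
  have hμ : ∀ ω, 0 ≤ μ ω := by
    intro ω
    rw [← hπ c, push_ind]
    exact Finset.sum_nonneg fun w _ => mul_nonneg (ind_nonneg _) (hl w)
  have h1 := short_node l hl (fun w b => nd (π b w)) hinv hφ V S c hc bd δ hbd (by
    refine le_trans (Pw_mono l hl (B := fun w => ¬ ∀ v ∈ W w, ∀ j, |v j| ≤ bd) ?_) hW'
    intro w h0 hbad hgood
    apply hbad
    intro b hb i j
    exact hgood _ (hW w h0 b hb i) j)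
  have h2 : Pw μ (fun ω => ¬ ∀ i j, |V (nd ω) i j| ≤ N * bd) ≤ δ + N / (S.card + 1) * mass l := by
    rw [← hπ c, finT_push]
    exact h1
  exact tubF_of_node μ hμ F T A nd a o V p hFr r (N * bd) hbr δ1 δ2 _ hR hsz htb h2 hδ

end Pool.Agent.Helper78.FW
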