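import Mathlib

/-!
# Families of vectors, boxes and maximal determinant frames

`InB Z v`: the vector `v` is a combination, with coefficients in `[-1, 1]`, of `N` members of the family `Z`.
`IsFr w P`: `w` is a maximal determinant frame of the set `P` of vectors.  `IsFr.coord`: coordinates of the
members of a larger set in the frame of a smaller one (Cramer).  Used by the path of `ns_notes_78d`.
-/

set_option autoImplicit false

namespace Pool.Agent.Helper78.FW

open Finset Matrix

variable {N : ℕ}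

/-- `v` is in the box spanned by `N` members of `Z` -/
def InB (Z : Multiset (Fin N → ℝ)) (v : Fin N → ℝ) : Prop :=
  ∃ u : Fin N → Fin N → ℝ, (∀ k, u k ∈ Z) ∧ ∃ x : Fin N → ℝ, (∀ k, |x k| ≤ 1) ∧ v = ∑ k, x k • u k

theorem InB.mono {Z Z' : Multiset (Fin N → ℝ)} {v : Fin N → ℝ} (h : InB Z v) (hZ : Z ≤ Z') :
    InB Z' v := by
  obtain ⟨u, hu, x, hx, hv⟩ := h
  exact ⟨u, fun k => Multiset.mem_of_le hZ (hu k), x, hx, hv⟩

theorem InB.smul {Z : Multiset (Fin N → ℝ)} {v : Fin N → ℝ} (h : InB Z v) {t : ℝ} (ht : |t| ≤ 1) :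
    InB Z (t • v) := by
  obtain ⟨u, hu, x, hx, hv⟩ := h
  refine ⟨u, hu, fun k => t * x k, fun k => ?_, ?_⟩
  · rw [abs_mul]
    nlinarith [hx k, abs_nonneg t, abs_nonneg (x k)]
  · rw [hv, Finset.smul_sum]
    refine Finset.sum_congr rfl fun k _ => ?_
    rw [smul_smul]

/-- powers of one half -/
theorem half_le {a b : ℕ} (h : a ≤ b) : ((1 : ℝ) / 2) ^ b ≤ (1 / 2) ^ a :=
  pow_le_pow_of_le_one (by norm_num) (by norm_num) h

theorem InB.half {Z : Multiset (Fin N → ℝ)} {v : Fin N → ℝ} {a b : ℕ}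
    (h : InB Z (((1 : ℝ) / 2) ^ a • v)) (hab : a ≤ b) : InB Z (((1 : ℝ) / 2) ^ b • v) := by
  have h1 : ((1 : ℝ) / 2) ^ b • v = ((1 : ℝ) / 2) ^ (b - a) • (((1 : ℝ) / 2) ^ a • v) := by
    rw [smul_smul, ← pow_add]
    congr 2
    omega
  rw [h1]
  refine h.smul ?_
  rw [abs_of_nonneg (by positivity)]
  exact pow_le_one₀ (by norm_num) (by norm_num)

/-- the family of the vectors `w i` -/
def fam (w : Fin N → Fin N → ℝ) : Multiset (Fin N → ℝ) := (univ : Finset (Fin N)).val.map w

theorem mem_fam (w : Fin N → Fin N → ℝ) (i : Fin N) : w i ∈ fam w := by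
  unfold fam
  exact Multiset.mem_map.mpr ⟨i, Finset.mem_univ_val i, rfl⟩

theorem mem_fam_iff (w : Fin N → Fin N → ℝ) (v : Fin N → ℝ) : v ∈ fam w ↔ ∃ i, w i = v := by
  unfold fam
  constructor
  · intro h
    obtain ⟨i, _, hi⟩ := Multiset.mem_map.mp h
    exact ⟨i, hi⟩
  · rintro ⟨i, hi⟩
    exact Multiset.mem_map.mpr ⟨i, Finset.mem_univ_val i, hi⟩

theorem card_fam (w : Fin N → Fin N → ℝ) : (fam w).card = N := by
  unfold fam
  rw [Multiset.card_map]
  exact Finset.card_fin N

/-- combinations of a scaled frame -/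
theorem InB.of_coord {Z : Multiset (Fin N → ℝ)} (w : Fin N → Fin N → ℝ) (c : ℝ)
    (hw : ∀ i, c • w i ∈ Z) {v : Fin N → ℝ} (x : Fin N → ℝ) (hv : v = ∑ k, x k • w k) {t : ℝ}
    (hx : ∀ k, |t * x k| ≤ |c|) : InB Z (t • v) := by
  refine ⟨fun k => c • w k, hw, fun k => t * x k / c, fun k => ?_, ?_⟩
  · rw [abs_div]
    exact div_le_one_of_le₀ (hx k) (abs_nonneg c)
  · rw [hv, Finset.smul_sum]
    refine Finset.sum_congr rfl fun k _ => ?_
    rw [smul_smul, smul_smul]
    by_cases hc : c = 0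
    · have h1 := hx k
      rw [hc, abs_zero] at h1
      have h2 : t * x k = 0 := abs_eq_zero.mp (le_antisymm h1 (abs_nonneg _))
      rw [h2, hc]
      simp
    · congr 1
      field_simp

/-- `w` is a maximal determinant frame of the set `P` -/
def IsFr (w : Fin N → Fin N → ℝ) (P : Set (Fin N → ℝ)) : Prop :=
  (∀ i, w i ∈ P) ∧ ∀ u : Fin N → Fin N → ℝ, (∀ i, u i ∈ P) → |(Matrix.of u).det| ≤ |(Matrix.of w).det|

theorem exists_isFr (P : Set (Fin N → ℝ)) (hP : P.Finite) (u0 : Fin N → Fin N → ℝ)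
    (h0 : ∀ i, u0 i ∈ P) : ∃ w, IsFr w P := by
  classical
  have hfin : {u : Fin N → Fin N → ℝ | ∀ i, u i ∈ P}.Finite := by
    have h1 := Set.Finite.pi (t := fun _ : Fin N => P) (fun _ => hP)
    refine h1.subset ?_
    intro u hu
    simp only [Set.mem_pi, Set.mem_univ, forall_true_left]
    exact fun i => hu i
  obtain ⟨w, hw, hmax⟩ := Set.exists_max_image _
    (fun u : Fin N → Fin N → ℝ => |(Matrix.of u).det|) hfin ⟨u0, h0⟩
  exact ⟨w, hw, fun u hu => hmax u hu⟩

/-- **Cramer**: coordinates in a frame `w'` whose members belong to `P`, against the maximal frame of `P` -/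
theorem IsFr.coord {w w' : Fin N → Fin N → ℝ} {P : Set (Fin N → ℝ)} (hw : IsFr w P)
    (hw' : ∀ i, w' i ∈ P) (hd : (Matrix.of w').det ≠ 0) {v : Fin N → ℝ} (hv : v ∈ P) :
    ∃ x : Fin N → ℝ, v = ∑ k, x k • w' k ∧
      ∀ k, |x k| ≤ |(Matrix.of w).det| / |(Matrix.of w').det| := by
  classical
  set W : Matrix (Fin N) (Fin N) ℝ := Matrix.of w' with hW
  have hu : IsUnit W.det := isUnit_iff_ne_zero.mpr hd
  refine ⟨v ᵥ* W⁻¹, ?_, ?_⟩
  · have h1 : (v ᵥ* W⁻¹) ᵥ* W = v := by
      rw [Matrix.vecMul_vecMul, Matrix.nonsing_inv_mul W hu, Matrix.vecMul_one]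
    funext j
    have h2 := congrFun h1 j
    rw [← h2, Finset.sum_apply]
    rfl
  · intro k
    set x := v ᵥ* W⁻¹ with hx
    have h1 : x ᵥ* W = v := by
      rw [hx, Matrix.vecMul_vecMul, Matrix.nonsing_inv_mul W hu, Matrix.vecMul_one]
    have h2 : v = ∑ i, x i • W i := by
      funext j
      rw [← h1, Finset.sum_apply]
      rfl
    have h3 : (W.updateRow k v).det = x k * W.det := by
      have h4 := Matrix.det_updateRow_sum W k x
      rw [← h2] at h4
      rw [h4, smul_eq_mul]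
    have h5 : W.updateRow k v = Matrix.of (Function.update w' k v) := by
      ext a b
      by_cases hak : a = k
      · subst hak
        simp [Matrix.updateRow_self]
      · simp [hak, hW]
    have h6 : |(Matrix.of (Function.update w' k v)).det| ≤ |(Matrix.of w).det| := by
      refine hw.2 _ fun i => ?_
      by_cases hik : i = k
      · subst hik
        simpa using hv
      · rw [Function.update_of_ne hik]
        exact hw' i
    rw [← h5, h3, abs_mul] at h6
    rw [le_div_iff₀ (abs_pos.mpr hd)]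
    exact h6

/-- the floor vectors `φ e_i` -/
def flr (φ : ℝ) : Fin N → Fin N → ℝ := fun i => Pi.single i φ

theorem det_flr (φ : ℝ) : (Matrix.of (flr (N := N) φ)).det = φ ^ N := by
  classical
  have h1 : Matrix.of (flr (N := N) φ) = Matrix.diagonal (fun _ => φ) := by
    ext i j
    simp only [flr, Matrix.of_apply, Matrix.diagonal_apply]
    by_cases h : i = j
    · subst h
      simp
    · rw [if_neg h, Pi.single_eq_of_ne (fun h' => h h'.symm)]
  rw [h1, Matrix.det_diagonal]
  simp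

/-- small vectors are in the floor -/
theorem InB.flr {Z : Multiset (Fin N → ℝ)} {φ : ℝ} (hφ : 0 < φ) (hZ : fam (flr (N := N) φ) ≤ Z)
    {v : Fin N → ℝ} (hv : ∀ i, |v i| ≤ φ) : InB Z v := by
  classical
  refine ⟨FW.flr φ, fun k => Multiset.mem_of_le hZ (mem_fam _ k), fun k => v k / φ, fun k => ?_, ?_⟩
  · rw [abs_div, abs_of_pos hφ]
    exact div_le_one_of_le₀ (hv k) hφ.le
  · funext j
    rw [Finset.sum_apply, Finset.sum_eq_single j]
    · simp only [FW.flr, Pi.smul_apply, Pi.single_eq_same, smul_eq_mul]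
      field_simp
    · intro i _ hij
      simp only [FW.flr, Pi.smul_apply, smul_eq_mul]
      rw [Pi.single_eq_of_ne (fun h => hij h.symm), mul_zero]
    · intro h
      exact absurd (Finset.mem_univ j) h

end Pool.Agent.Helper78.FW
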