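import Pool.Agent.Helper78.FW.Badh
import Pool.Agent.Helper78.FW.Side
import Pool.Agent.Helper61.FW.Cy
import Pool.Agent.Helper6.FW.Blk

/-!
# The blocks of the chain of a row at a good node: seen, valid; the arithmetic of a row
-/

set_option autoImplicit false

namespace Pool.Agent.Helper78.FW

open Finset Matrix Pool.Agent.Helper69.RK Pool.Agent.Helper46.WF Pool.Agent.Helper58.VW Pool.Agent.Helper58.TR
open Pool.Agent.Helper25.FA Pool.Agent.Helper61.FW Pool.Agent.Helper99.FW Pool.Agent.Helper58.FW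
open Pool.Agent.Helper61.GL hiding fl
open Pool.Agent.Helper9.FW Pool.Agent.Helper9.ND Pool.Agent.Helper92.FW Pool.Agent.Helper22.FW
open Pool.Agent.Helper6.FW (by8)

variable {Ω φ α β : Type} [Fintype Ω] [Fintype α] {N k K : ℕ} {D : ED Ω φ α β N} {ρ η εQ ηQ c : ℝ} {tp : α → ℝ}
  {tq : β → ℝ} {Ap : α → Fin N → ℝ} {Cq : β → Fin N → ℝ} {Λ : Type} [Fintype Λ] {l : Λ → ℝ}
  {en : Fin (k + 2 * K) → Fin (k + 2 * K) → Λ → Ω} {E : ℝ}

/-- the windows of the chain of the row `a` at the level `m` -/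
noncomputable def Wnd (D : ED Ω φ α β N) (FP : α → φ) (tp : α → ℝ) (Ap : α → Fin N → ℝ)
    (P ρw Dw r : ℕ) (g κ : ℝ) (o : ℕ → ℕ) (m : ℕ)
    (en : Fin (k + 2 * K) → Fin (k + 2 * K) → Λ → Ω) (b0 a : Fin (k + 2 * K)) (n : ℕ)
    (v : Lam Λ (Fin (k + 2 * K) → Ω) n) : Fin n → Fin (2 ^ ρw) × Rc N r :=
  Wch D en (EG N ρw Dw r g κ (push D.P D.μ) tp Ap) FP tp P ρw o (m / P) (m % P) b0 a n v

/-- the one-step errors of the chain of the row `a` at the level `m` -/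
noncomputable def Erl (D : ED Ω φ α β N) (l : Λ → ℝ) (en : Fin (k + 2 * K) → Fin (k + 2 * K) → Λ → Ω)
    (FP : α → φ) (tp : α → ℝ) (Ap : α → Fin N → ℝ) (P ρw Dw r : ℕ) (g κ : ℝ) (o : ℕ → ℕ) (δ : ℝ)
    (a0 b0 a : Fin (k + 2 * K)) (m : ℕ) (w : Λ) : ℝ :=
  Ers D l en (EG N ρw Dw r g κ (push D.P D.μ) tp Ap) FP tp P ρw o (m / P) (m % P) δ b0 (mvs k K) a (8 * K)
    (Fp D en a0 b0) w

/-- **SEEN** at a good node of the level `m` -/
theorem seen_lvl {P ρw Dw r : ℕ} {g κ : ℝ} (hc : Cst N Dw ρw r g κ) (h : EdgD D ρ η εQ ηQ c tp tq Ap Cq)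
    (hr : AR D l en E) {FP : α → φ} (o : ℕ → ℕ) {δ : ℝ} (hδ : 0 ≤ δ) (a0 b0 : Fin (k + 2 * K))
    {a : Fin (k + 2 * K)} (ha : a ∈ spc k K) (m : ℕ) {w : Λ} (hw : l w ≠ 0)
    (hN : IsNd (cw (push D.P D.μ) ((sdL D FP tp Ap P ρw Dw r g κ o).nL m) (D.P (en a b0 w))) tp m Dw ρw
      (cl m (tp (D.P (en a b0 w))))) :
    Pw (cb (chl D l en ((sdL D FP tp Ap P ρw Dw r g κ o).nL m) b0 (mvs k K) a (8 * K)) (bs (8 * K)) l
        (Fp D en a0 b0) w)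
      (fun v => ¬ Seen (ThV ρw Dw r)
        (fun j => ((sdL D FP tp Ap P ρw Dw r g κ o).bL m (D.P (en a b0 w))).M *ᵥ Pi.single j g) (1 / (8 * N))
          (by8 (Wnd D FP tp Ap P ρw Dw r g κ o m en b0 a (8 * K) v))) ≤
      (net N (1 / (8 * N))).card * (1 - κ / (2 ^ 25 * ((N : ℝ) + 1) * ((2 : ℝ) ^ Dw) ^ 2)) ^ K +
        Erl D l en FP tp Ap P ρw Dw r g κ o δ a0 b0 a m w := by
  have e : m / P * P + m % P = m := Nat.div_add_mod' m P
  exact seen_tree hc hr FP tp Ap (fun x hx => pu_A h hx) P o (m / P) (m % P) hδ b0 (mvs k K) a K (Fp D en a0 b0)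
    (fun w w' _ _ e0 => fp_P D en a0 b0 ha e0) hw (by rw [e]; exact hN)

/-- **VALID** at a good node of the level `m` -/
theorem val_lvl {P ρw Dw r : ℕ} {g κ : ℝ} (hc : Cst N Dw ρw r g κ) (h : EdgD D ρ η εQ ηQ c tp tq Ap Cq)
    (hr : AR D l en E) {FP : α → φ} (o : ℕ → ℕ) {δ : ℝ} (hδ : 0 ≤ δ) (a0 b0 : Fin (k + 2 * K))
    {a : Fin (k + 2 * K)} (ha : a ∈ spc k K) (m : ℕ) {w : Λ} (hw : l w ≠ 0)
    (hN : IsNd (cw (push D.P D.μ) ((sdL D FP tp Ap P ρw Dw r g κ o).nL m) (D.P (en a b0 w))) tp m Dw ρw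
      (cl m (tp (D.P (en a b0 w))))) :
    Pw (cb (chl D l en ((sdL D FP tp Ap P ρw Dw r g κ o).nL m) b0 (mvs k K) a (8 * K)) (bs (8 * K)) l
        (Fp D en a0 b0) w)
      (fun v => ∀ b, ¬ Gdw (2 ^ (ρw - Dw)) r
        (cstV (by8 (Wnd D FP tp Ap P ρw Dw r g κ o m en b0 a (8 * K) v) b))) ≤
      (1 - (1 / (2048 * (2 : ℝ) ^ Dw)) ^ 2) ^ K + Erl D l en FP tp Ap P ρw Dw r g κ o δ a0 b0 a m w := by
  have e : m / P * P + m % P = m := Nat.div_add_mod' m P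
  exact val_tree hc hr FP tp Ap (fun x hx => pu_A h hx) P o (m / P) (m % P) hδ b0 (mvs k K) a K (Fp D en a0 b0)
    (fun w w' _ _ e0 => fp_P D en a0 b0 ha e0) hw (by rw [e]; exact hN)

/-- **the arithmetic of a row** -/
theorem row_num {n K' d e F1 F2 F3 p q T R I pv ps qv qs Er g B M c1 cD κ0 κa : ℝ} (hn : 0 ≤ n) (hR : 0 ≤ R)
    (hF3 : 0 ≤ F3) (hT : 0 ≤ T) (hI : 0 ≤ I) (hpv : pv ≤ qv + Er) (hps : ps ≤ qs + Er)
    (hc1 : n * F2 + p + q ≤ c1) (hcD : n * (R + F3) ≤ cD) (hg : 0 ≤ g)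
    (hκ0 : n * (R + F3) * B + (n * (R + F3) * (I * qv) + (R + T) * (I * qs)) ≤ κ0)
    (hκa : n * K' * d + n * (e + F1) + (n * (R + F3) * (I + M) + (R + T) * I) * Er ≤ κa) :
    (n * F2 + p + q) * I + (n * (K' * d + e + F1 + (R + F3) * (I * pv + (g + B + M * Er))) +
      (R + T) * (I * ps)) ≤ c1 * I + (κ0 + κa) + cD * g := by
  have h1 := mul_le_mul_of_nonneg_right hc1 hI
  have h2 := mul_le_mul_of_nonneg_right hcD hg
  have h3 : n * (R + F3) * (I * pv) ≤ n * (R + F3) * (I * (qv + Er)) :=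
    mul_le_mul_of_nonneg_left (mul_le_mul_of_nonneg_left hpv hI) (mul_nonneg hn (by linarith))
  have h4 : (R + T) * (I * ps) ≤ (R + T) * (I * (qs + Er)) :=
    mul_le_mul_of_nonneg_left (mul_le_mul_of_nonneg_left hps hI) (by linarith)
  linarith

end Pool.Agent.Helper78.FW
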