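import Pool.Agent.Helper78.FW.Beta
import Pool.Agent.Helper61.FW.Cy

/-!
# Means of the costs over the base: bad events of the blocks, nodes which are not good (row [KX])

`bt_total` : the bad events, all levels.  `row_law` : all rows have the same law.  `isNd_total` : nodes which are not
good.
-/

set_option autoImplicit false

namespace Pool.Agent.Helper78.FW

open Finset Pool.Agent.Helper69.RK Pool.Agent.Helper46.WF Pool.Agent.Helper58.VW
open Pool.Agent.Helper25.FA Pool.Agent.Helper61.FW Pool.Agent.Helper99.FW Pool.Agent.Helper22.FW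
open Pool.Agent.Helper61.GL hiding fl

section one

variable {Ω φ α β : Type} [Fintype Ω] {N k K : ℕ} {D : ED Ω φ α β (N + 1)} {ρ η εQ ηQ c : ℝ} {tp : α → ℝ}
  {tq : β → ℝ} {Ap : α → Fin (N + 1) → ℝ} {Cq : β → Fin (N + 1) → ℝ} {Λ : Type} [Fintype Λ] {l : Λ → ℝ}
  {en : Fin (k + 2 * K) → Fin (k + 2 * K) → Λ → Ω} {E : ℝ} {dd ρw r : ℕ} {g κ : ℝ}

/-- **the mean of the bad probabilities of a block, all levels** -/
theorem bt_total [Fintype β] (hc : Cst (N + 1) dd ρw r g κ) (h : EdgD D ρ η εQ ηQ c tp tq Ap Cq)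
    (hr : AR D l en E) (hx : XA l en) (FQ : β → φ) (hFQ : ∀ ω, FQ (D.Q ω) = D.F ω) (P : ℕ) (o : ℕ → ℕ)
    (a0 b0 : Fin (k + 2 * K)) (b : Fin K) {C₀ S' L : ℕ} (hC : 1 ≤ C₀) (hSP : S' + C₀ + 2 ≤ P) (hSρ : S' + ρw ≤ P)
    (hn : L * P + C₀ ≤ D.n) (hsl : ((N + 1 : ℕ) : ℝ) / g * (Kas (N + 1) * 2 ^ (L * P)) ≤ 270000 * 2 ^ D.n)
    (hρ : ρ ≤ N + 1) (hη : 0 ≤ η) (hd : 7 * E + 4 * (η * D.n) + 18 * (N + 1) ≤ ηQ * D.n) {k' : ℕ} (hk : k' ≤ D.n)
    (hkg : ((N + 1 : ℕ) : ℝ) / g * ((2 : ℝ) ^ k')⁻¹ ≤ 270000) (hpos : 0 < ρ * D.n - k' - (21 * N + 28)) {εA : ℝ}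
    (hεA : 6 * (η * D.n) + (N + 1) * (D.n + 5) * η + (N + 1) * εQ * D.n + 7 * E + 1 + (N + 1) * (5 * N + 25) ≤
      εA * (ρ * D.n - k' - (21 * N + 28))) :
    ∑ w, l w * ∑ J ∈ range (L * P), bt (sdL D.mir FQ tq Cq P ρw dd r g κ o) S' C₀ 270000 g D l en a0 b0 (car b 0)
      (car b 1) J w ≤ L * (P - S') + clsN (N + 1) ρw r κ L P S' C₀ k E (η * D.n) εA := by
  have h1 := cls_AR hc h hr FQ (fun ω _ => hFQ ω) P o a0 (fun b b' W => hx.mir.swap a0 D.Q b b' W)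
    (c₁ := car b 0) (c₂ := car b 1) (fun e => absurd (car_inj e).2 (by decide)) (Sp := spc k K)
    (car_notin b 0) (car_notin b 1) hC hSP hSρ hn hsl hρ hη hd hk hkg hpos hεA
  rw [card_spc] at h1
  refine le_trans (le_of_eq ?_) h1
  simp only [Finset.mul_sum]
  rw [Finset.sum_comm]
  refine Finset.sum_congr rfl fun J _ => ?_
  exact bt_mean hr.nn a0 b0 (car b 0) (car b 1) J

end one

section two

variable {Ω φ α β : Type} [Fintype Ω] {N : ℕ} {D : ED Ω φ α β N} {Λ ιr ιc : Type} [Fintype Λ] [Fintype ιr]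
  [Fintype ιc] {l : Λ → ℝ} {en : ιr → ιc → Λ → Ω} {E : ℝ}

omit [Fintype ιr] in
/-- all rows have the same law -/
theorem row_law [DecidableEq ιr] (hx : XA l en) (a a' : ιr) : push (row en a) l = push (row en a') l := by
  classical
  obtain ⟨e, he, hen⟩ := hx.row (Equiv.swap a a')
  have h1 : row en a' = fun w => row en a (e w) := by
    funext w b
    show en a' b w = en a b (e w)
    rw [hen, Equiv.swap_apply_left]
  have h2 : push e l = l := by
    have h3 := push_equiv e l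
    have h4 : (fun w => l (e w)) = l := funext he
    rw [h4] at h3
    exact h3
  rw [h1]
  have h5 := Pool.Agent.Helper6.VS.push_push (row en a) e l
  rw [h2] at h5
  exact h5

end two

section three

open Pool.Agent.Helper58.TR

variable {Ω φ α β : Type} [Fintype Ω] [Fintype α] {N k K : ℕ} {D : ED Ω φ α β N} {ρ η εQ ηQ c : ℝ} {tp : α → ℝ}
  {tq : β → ℝ} {Ap : α → Fin N → ℝ} {Cq : β → Fin N → ℝ} {Λ : Type} [Fintype Λ] {l : Λ → ℝ}
  {en : Fin (k + 2 * K) → Fin (k + 2 * K) → Λ → Ω} {E : ℝ}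

/-- **the nodes of a row which are not good**, all node levels -/
theorem isNd_total (h : EdgD D ρ η εQ ηQ c tp tq Ap Cq) {FP : α → φ} (hFP : ∀ ω, FP (D.P ω) = D.F ω)
    (hr : AR D l en E) {P ρw Dw r S' L : ℕ} {g κ : ℝ} (hDρ : Dw ≤ ρw) (o : ℕ → ℕ) (hSP : S' + ρw ≤ P)
    (hL : L * P ≤ D.n) (a b0 : Fin (k + 2 * K)) :
    ∑ m ∈ (range (L * P)).filter (fun m => m % P < S'), Pw l (fun w => ¬ IsNd (cw (push D.P D.μ)
      ((sdL D FP tp Ap P ρw Dw r g κ o).nL m) (D.P (en a b0 w))) tp m Dw ρw (cl m (tp (D.P (en a b0 w))))) ≤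
    nBad N r ρw L (η * D.n) := by
  refine le_trans (le_of_eq ?_) (sdL_nd h hFP (r := r) (g := g) (κ := κ) hDρ o hSP hL
    (Sm := (range (L * P)).filter (fun m => m % P < S')) fun m hm => by
      obtain ⟨h1, h2⟩ := Finset.mem_filter.mp hm
      exact ⟨Finset.mem_range.mp h1, h2⟩)
  refine Finset.sum_congr rfl fun m _ => ?_
  rw [← hr.pu a b0, finT_push]

end three

end Pool.Agent.Helper78.FW
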