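import Pool.Agent.Helper78.FW.PathG
import Pool.Agent.Helper92.FW.Xg

/-!
# The path for most values of the spectators (ns_notes_58, rows [XG], [PX])

`l` is the law of the array, `Fp` the label of the spectators, `κA w m`, `κC w j` the costs of the levels at the
point `w`.  For most `w` the vectors of one fixed level `m` are short.
-/

set_option autoImplicit false

namespace Pool.Agent.Helper78.FW

open Finset Matrix Pool.Agent.Helper69.RK Pool.Agent.Helper61.GL Pool.Agent.Helper15.VW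
open Pool.Agent.Helper46.WF

variable {N : ℕ}

/-- one level is good for most points -/
theorem level_pick {Λ : Type} [Fintype Λ] (l : Λ → ℝ) (hl : ∀ w, 0 ≤ l w) (M : ℕ) (κ : Λ → ℕ → ℝ)
    (hκ : ∀ w, l w ≠ 0 → ∀ m < M, 0 ≤ κ w m) (θ D : ℝ) (hθ : 0 < θ)
    (hD : ∑ w, l w * ∑ m ∈ range M, κ w m ≤ D) (Sm : Finset ℕ) (hne : Sm.Nonempty) (hSM : ∀ m ∈ Sm, m < M)
    (pm : ℕ → ℝ) :
    ∃ m ∈ Sm, Pw l (fun w => θ < κ w m) + pm m ≤ (D / θ + ∑ m ∈ Sm, pm m) / Sm.card := by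
  classical
  have hc : (0 : ℝ) < Sm.card := by exact_mod_cast hne.card_pos
  have hcm : ∀ m ∈ Sm, Pw l (fun w => θ < κ w m) * θ ≤ ∑ w, l w * κ w m := by
    intro m hm
    unfold Pw
    rw [Finset.sum_mul]
    refine Finset.sum_le_sum fun w _ => ?_
    by_cases h0 : l w = 0
    · simp [h0]
    · have h1 := hκ w h0 m (hSM m hm)
      have h2 := hl w
      split_ifs with h
      · exact mul_le_mul_of_nonneg_left h.le h2
      · rw [zero_mul]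
        exact mul_nonneg h2 h1
  have hsum : ∑ m ∈ Sm, ∑ w, l w * κ w m ≤ D := by
    refine le_trans ?_ hD
    rw [Finset.sum_comm]
    refine Finset.sum_le_sum fun w _ => ?_
    rw [← Finset.mul_sum]
    by_cases h0 : l w = 0
    · simp [h0]
    · refine mul_le_mul_of_nonneg_left ?_ (hl w)
      exact Finset.sum_le_sum_of_subset_of_nonneg (fun m hm => Finset.mem_range.mpr (hSM m hm))
        fun m hm _ => hκ w h0 m (Finset.mem_range.mp hm)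
  by_contra hcon
  push Not at hcon
  have h1 := Finset.sum_lt_sum_of_nonempty hne hcon
  rw [Finset.sum_const, nsmul_eq_mul, mul_div_cancel₀ _ hc.ne', Finset.sum_add_distrib] at h1
  have h2 : ∑ m ∈ Sm, Pw l (fun w => θ < κ w m) ≤ D / θ := by
    rw [le_div_iff₀ hθ, Finset.sum_mul]
    exact (Finset.sum_le_sum hcm).trans hsum
  linarith

/-- **THE PATH FOR MOST VALUES OF THE SPECTATORS** -/
theorem pathA {Λ χ : Type} [Fintype Λ] (l : Λ → ℝ) (hl : ∀ w, 0 ≤ l w) (Fp : Λ → χ)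
    (z : Λ → Fin N → ℝ) (φ B : ℝ) (hφ : 0 < φ) (hφB : φ ≤ B) (g R0 R D : ℕ) (hg : R0 ≤ g)
    (hRR : R ≤ R0) (hB : B ≤ φ * 2 ^ R0) (hR : 1 ≤ R) (hRD : R ≤ D) (c1 : ℝ) (hc1 : cT N N ≤ c1) (M : ℕ)
    (WA WC : Λ → ℕ → Finset (Fin N → ℝ)) (hWA : ∀ w, l w ≠ 0 → ∀ m < M, ∀ v ∈ WA w m, ∀ c, |v c| ≤ B)
    (hWC : ∀ w, l w ≠ 0 → ∀ m < M, ∀ v ∈ WC w m, ∀ c, |v c| ≤ B) (j0 l0 lam I Ke : ℕ)
    (κA κC : Λ → ℕ → ℝ) (hκA : ∀ w, l w ≠ 0 → ∀ m < M, 0 ≤ κA w m)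
    (hκC : ∀ w, l w ≠ 0 → ∀ m < M, 0 ≤ κC w m) (cD K θ : ℝ)
    (hcD : 0 ≤ cD) (hθ : 0 < θ) (hK : 0 < K)
    (hA : ∀ w, l w ≠ 0 → ∀ m < M, l0 ≤ m → ∀ v ∈ WA w m, ∀ G : Finset ℕ, G ⊆ range M →
      ∀ Z : ℕ → Multiset (Fin N → ℝ),
      (∀ t < I, Okb (fam (flr φ)) B R D (WA w) (VG (WC w) G) m (j0 + t * R) v (Z t)) →
      ∑ t ∈ range I, IZ (cw l Fp w) z (fun _ => ()) g R0 (Z t) (((1 : ℝ) / 2) ^ (j0 + t * R) • v) ≤
        c1 * I + κA w m + cD * (range M \ G).card)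
    (hC : ∀ w, l w ≠ 0 → ∀ j < M, j0 ≤ j → ∀ v ∈ WC w j, ∀ G : Finset ℕ, G ⊆ range M → ∀ k < Ke,
      ∀ Z : ℕ → Multiset (Fin N → ℝ),
      (∀ u < lam, Okb (fam (flr φ)) B R D (WC w) (VG (WA w) G) j (l0 + (u + k) * R) v (Z u)) →
      ∑ u ∈ range lam, IZ (cw l Fp w) z (fun _ => ()) g R0 (Z u)
        (((1 : ℝ) / 2) ^ (l0 + (u + k) * R) • v) ≤ c1 * lam + κC w j + cD * (range M \ G).card)
    (s E δ1 δ2 : ℝ) (St : Λ → Prop)
    (hs : ∀ w, l w ≠ 0 → St w → ∀ Z, fam (flr φ) ≤ Z → Adm (fam (flr φ)) B Z → ∀ v ∈ Z, ∀ c, v c ≠ 0 →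
      Real.logb 2 |v c| - s ≤ SZ (cw l Fp w) z (fun _ => ()) Z)
    (hE : ∀ w, l w ≠ 0 → St w → SZ (cw l Fp w) z (fun _ => ()) (fam (flr φ)) ≤ -E)
    (hSt : Pw l (fun w => ¬ St w) ≤ δ1)
    (hKA : ∑ w, l w * ∑ m ∈ range M, κA w m ≤ δ2 * K)
    (hKC : ∑ w, l w * ∑ m ∈ range M, κC w m ≤ δ2 * K)
    (hlam : 0 < lam)
    (hJ : ((1 : ℝ) / 2) ^ (j0 + I * R) * B ≤ φ) (hKe : ((1 : ℝ) / 2) ^ (Ke * R) * B ≤ φ)
    (Sm : Finset ℕ) (hne : Sm.Nonempty) (hSM : ∀ m ∈ Sm, m < M ∧ l0 + lam * R ≤ m)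
    (pm : ℕ → ℝ) (hpm : ∀ m ∈ Sm, 0 ≤ pm m) :
    ∃ m ∈ Sm, pm m ≤ (δ2 * K / θ + ∑ m ∈ Sm, pm m) / Sm.card ∧
      Pw l (fun w => ¬ ∀ v ∈ WA w m, ∀ c,
        |v c| ≤ N * (2 : ℝ) ^ ((j0 : ℝ) + XY N I Ke R lam B φ (cP N) c1 (θ + cD * (K / θ)) s E)) ≤
        δ1 + 2 * δ2 + (δ2 * K / θ + ∑ m ∈ Sm, pm m) / Sm.card := by
  classical
  obtain ⟨m, hm, hpick⟩ := level_pick l hl M κA hκA θ (δ2 * K) hθ hKA Sm hne (fun m hm => (hSM m hm).1) pm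
  have hPn : 0 ≤ Pw l (fun w => θ < κA w m) := by
    unfold Pw
    exact Finset.sum_nonneg fun w _ => by split_ifs <;> [exact hl w; exact le_rfl]
  refine ⟨m, hm, by linarith, ?_⟩
  have hmk : ∀ κ : Λ → ℕ → ℝ, (∀ w, l w ≠ 0 → ∀ m < M, 0 ≤ κ w m) →
      ∑ w, l w * ∑ m ∈ range M, κ w m ≤ δ2 * K → Pw l (fun w => K < ∑ m ∈ range M, κ w m) ≤ δ2 := by
    intro κ hκ hs
    have h1 : Pw l (fun w => K < ∑ m ∈ range M, κ w m) * K ≤ ∑ w, l w * ∑ m ∈ range M, κ w m := by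
      unfold Pw
      rw [Finset.sum_mul]
      refine Finset.sum_le_sum fun w _ => ?_
      by_cases h0 : l w = 0
      · simp [h0]
      · have h1 : 0 ≤ ∑ m ∈ range M, κ w m :=
          Finset.sum_nonneg fun m hm => hκ w h0 m (Finset.mem_range.mp hm)
        split_ifs with h
        · exact mul_le_mul_of_nonneg_left h.le (hl w)
        · rw [zero_mul]
          exact mul_nonneg (hl w) h1
    have h2 := h1.trans hs
    exact le_of_mul_le_mul_right h2 hK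
  have hPA := hmk κA hκA hKA
  have hPC := hmk κC hκC hKC
  have hcov : Pw l (fun w => ¬ ∀ v ∈ WA w m, ∀ c,
      |v c| ≤ N * (2 : ℝ) ^ ((j0 : ℝ) + XY N I Ke R lam B φ (cP N) c1 (θ + cD * (K / θ)) s E)) ≤
      Pw l (fun w => ¬ St w ∨ (K < ∑ m ∈ range M, κA w m ∨ (K < ∑ m ∈ range M, κC w m ∨ θ < κA w m))) := by
    refine Pw_mono l hl fun w h0 hbad => ?_
    by_contra hcon
    push Not at hcon
    obtain ⟨a1, a2, a3, a4⟩ := hcon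
    apply hbad
    have hcwn : ∀ ω, 0 ≤ cw l Fp w ω := fun ω => cw_nonneg l Fp hl w ω
    have hcwm : mass (cw l Fp w) = 1 := cw_sum l Fp hl w h0
    have h1 := pathG (cw l Fp w) hcwn hcwm z (fun _ => ()) φ B hφ hφB g R0 R D hg hRR hB hR hRD c1 hc1 M
      (WA w) (WC w) (hWA w h0) (hWC w h0) j0 l0 lam I Ke (κA w) (κC w) (hκA w h0) (hκC w h0) cD K θ
      hcD hθ a2 a3 (hA w h0) (hC w h0) s E (hs w h0 a1) (hE w h0 a1) hlam hJ hKe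
    exact h1.1 m (hSM m hm).1 (hSM m hm).2 a4
  refine hcov.trans ?_
  have o1 := Pw_or l hl (fun w => ¬ St w)
    (fun w => K < ∑ m ∈ range M, κA w m ∨ (K < ∑ m ∈ range M, κC w m ∨ θ < κA w m))
  have o2 := Pw_or l hl (fun w => K < ∑ m ∈ range M, κA w m)
    (fun w => K < ∑ m ∈ range M, κC w m ∨ θ < κA w m)
  have o3 := Pw_or l hl (fun w => K < ∑ m ∈ range M, κC w m) (fun w => θ < κA w m)
  have hpm' := hpm m hm
  linarith

end Pool.Agent.Helper78.FW
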