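import Pool.Agent.Helper78.FW.Avg

/-!
# The path of bodies with variable costs (ns_notes_58, row [P'])

As `Path.lean`, but the increment of a source vector `fa l i` at the partner level `j0 + t R` is at most
`c1 + ea l t` with an excess `ea l t ≥ 0` whose sum over `t < T` is at most `Γ`.
-/

set_option autoImplicit false

namespace Pool.Agent.Helper78.FW

open Finset Matrix

variable {N : ℕ}

/-- the data of the path, variable costs -/
structure PDV (Fl : Multiset (Fin N → ℝ)) (B φ : ℝ)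
    (inc : Multiset (Fin N → ℝ) → (Fin N → ℝ) → ℝ) (R D T j0 l0 : ℕ) (c1 : ℝ)
    (SA SC : ℕ → (Fin N → ℝ) → Prop) (fa fc : ℕ → Fin N → Fin N → ℝ)
    (ea ec : ℕ → ℕ → ℝ) : Prop where
  hFl : Fl = fam (flr φ)
  hφ : 0 < φ
  hφB : φ ≤ B
  hRD : R ≤ D
  /-- frames are bounded -/
  fab : ∀ l i c, |fa l i c| ≤ B
  fcb : ∀ j i c, |fc j i c| ≤ B
  /-- sources are bounded -/
  sab : ∀ l a, SA l a → ∀ c, |a c| ≤ B
  /-- sources of higher level have small coordinates -/
  cova : ∀ l m a, l ≤ m → SA m a → ∃ x : Fin N → ℝ, a = ∑ k, x k • fa l k ∧ ∀ k, |x k| ≤ 1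
  covc : ∀ j c, SC j c → ∃ x : Fin N → ℝ, c = ∑ k, x k • fc j k ∧ ∀ k, |x k| ≤ 1
  /-- one left source -/
  hA : ∀ l t i, t < T → ∀ Z, Fl ≤ Z → Adm Fl B (Z + {((1 : ℝ) / 2) ^ (j0 + t * R) • fa l i}) →
    (∀ c, SC (j0 + t * R) c → InB Z (((1 : ℝ) / 2) ^ (l + D) • c)) →
    InB Z (((1 : ℝ) / 2) ^ (j0 + t * R + R) • fa l i) →
    inc Z (((1 : ℝ) / 2) ^ (j0 + t * R) • fa l i) ≤ c1 + ea l t
  /-- one right source -/
  hC : ∀ j t i, t < T → ∀ Z, Fl ≤ Z → Adm Fl B (Z + {((1 : ℝ) / 2) ^ (l0 + t * R) • fc j i}) →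
    (∀ a, SA (l0 + t * R) a → InB Z (((1 : ℝ) / 2) ^ (j + D) • a)) →
    InB Z (((1 : ℝ) / 2) ^ (l0 + t * R + R) • fc j i) →
    inc Z (((1 : ℝ) / 2) ^ (l0 + t * R) • fc j i) ≤ c1 + ec j t

section

variable {Fl : Multiset (Fin N → ℝ)} {B : ℝ} {S : Multiset (Fin N → ℝ) → ℝ}
    {inc : Multiset (Fin N → ℝ) → (Fin N → ℝ) → ℝ} {R : ℕ} {c0 c2 : ℝ}
    {φ : ℝ} {D T j0 l0 : ℕ} {c1 : ℝ} {SA SC : ℕ → (Fin N → ℝ) → Prop}
    {fa fc : ℕ → Fin N → Fin N → ℝ} {ea ec : ℕ → ℕ → ℝ}

theorem PDV.flB (d : PDV Fl B φ inc R D T j0 l0 c1 SA SC fa fc ea ec) : ∀ v ∈ Fl, ∀ c, |v c| ≤ B := by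
  classical
  intro v hv c
  rw [d.hFl] at hv
  obtain ⟨i, rfl⟩ := (mem_fam_iff _ _).mp hv
  unfold flr
  have h0 : (0 : ℝ) ≤ B := d.hφ.le.trans d.hφB
  by_cases h : c = i
  · subst h
    rw [Pi.single_eq_same, abs_of_pos d.hφ]
    exact d.hφB
  · rw [Pi.single_eq_of_ne h, abs_zero]
    exact h0

theorem PDV.cardFl (d : PDV Fl B φ inc R D T j0 l0 c1 SA SC fa fc ea ec) : Fl.card = N := by
  rw [d.hFl, card_fam]

/-- admissibility of the families of the path -/
theorem PDV.adm4 (d : PDV Fl B φ inc R D T j0 l0 c1 SA SC fa fc ea ec) (a b c e : ℕ) (l j1 j2 j3 : ℕ) :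
    Adm Fl B (Fl + fam (sc a (fa l)) + fam (sc b (fc j1)) + fam (sc c (fc j2)) +
      fam (sc e (fc j3))) := by
  refine ⟨?_, ?_, ?_⟩
  · rw [add_assoc, add_assoc, add_assoc]
    exact Multiset.le_add_right _ _
  · simp only [Multiset.card_add, card_fam, d.cardFl]
    omega
  · intro v hv i
    simp only [Multiset.mem_add] at hv
    rcases hv with (((hv | hv) | hv) | hv) | hv
    · exact d.flB v hv i
    · exact sc_abs (d.fab l) v hv i
    · exact sc_abs (d.fcb j1) v hv i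
    · exact sc_abs (d.fcb j2) v hv i
    · exact sc_abs (d.fcb j3) v hv i

theorem PDV.adm3 (d : PDV Fl B φ inc R D T j0 l0 c1 SA SC fa fc ea ec) (a a' b : ℕ) (l j1 : ℕ) :
    Adm Fl B (Fl + fam (sc b (fc j1)) + fam (sc a (fa l)) + fam (sc a' (fa l))) := by
  refine ⟨?_, ?_, ?_⟩
  · rw [add_assoc, add_assoc]
    exact Multiset.le_add_right _ _
  · simp only [Multiset.card_add, card_fam, d.cardFl]
    omega
  · intro v hv i
    simp only [Multiset.mem_add] at hv
    rcases hv with ((hv | hv) | hv) | hv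
    · exact d.flB v hv i
    · exact sc_abs (d.fcb j1) v hv i
    · exact sc_abs (d.fab l) v hv i
    · exact sc_abs (d.fab l) v hv i

/-- the bodies of the path are admissible -/
theorem PDV.admK (d : PDV Fl B φ inc R D T j0 l0 c1 SA SC fa fc ea ec) (l j : ℕ) :
    Adm Fl B (KK Fl fa fc l j) := by
  have h := d.adm3 j j l l j
  refine h.sub ?_ (Multiset.le_add_right _ _)
  unfold KK
  rw [add_assoc]
  exact Multiset.le_add_right _ _

/-- STEP A -/
theorem stepAV (h : PF Fl B S inc R c0 c2) (d : PDV Fl B φ inc R D T j0 l0 c1 SA SC fa fc ea ec)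
    (l t : ℕ) (ht : t < T) :
    S (KK Fl fa fc l (j0 + t * R)) ≤
      S (Fl + fam (sc l (fc (j0 + t * R))) + fam (sc (j0 + t * R + R) (fa l))) +
      N * (c1 + ea l t) + (N + 1) * c0 := by
  set j := j0 + t * R with hj
  have hF : Fl ≤ Fl + fam (sc l (fc j)) := Multiset.le_add_right _ _
  have hA := d.adm3 (j + R) j l l j
  refine h.refine (Fl + fam (sc l (fc j))) (fa l) j _ hF hA fun i => ?_
  have hF' : Fl ≤ Fl + fam (sc l (fc j)) + fam (sc (j + R) (fa l)) :=
    hF.trans (Multiset.le_add_right _ _)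
  have hadm := sc_sub_adm i hF' hA
  have hown : InB (Fl + fam (sc l (fc j)) + fam (sc (j + R) (fa l)))
      (((1 : ℝ) / 2) ^ (j + R) • fa l i) :=
    InB.mem i (Multiset.mem_add.mpr (Or.inr (mem_fam (sc (j + R) (fa l)) i)))
  refine d.hA l t i ht _ hF' hadm ?_ hown
  intro c hc
  obtain ⟨x, hx, hx1⟩ := d.covc j c hc
  refine InB.of_coord (fc j) (((1 : ℝ) / 2) ^ l) ?_ x hx fun k => ?_
  · intro i'
    exact Multiset.mem_add.mpr (Or.inl (Multiset.mem_add.mpr (Or.inr (mem_fam (sc l (fc j)) i'))))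
  · rw [abs_mul, abs_half, abs_half]
    have h3 := half_le (show l ≤ l + D by omega)
    have h4 := hx1 k
    have h5 := abs_nonneg (x k)
    have h6 : (0 : ℝ) ≤ (1 / 2) ^ (l + D) := by positivity
    nlinarith

/-- STEP C, one refinement -/
theorem stepC1V (h : PF Fl B S inc R c0 c2) (d : PDV Fl B φ inc R D T j0 l0 c1 SA SC fa fc ea ec)
    (l j t : ℕ) (hl : l ≤ l0 + t * R) (ht : t < T) :
    S (ZC Fl fa fc R l j + fam (sc (l0 + t * R) (fc j))) ≤
      S (ZC Fl fa fc R l j + fam (sc (l0 + t * R + R) (fc j))) +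
      N * (c1 + ec j t) + (N + 1) * c0 := by
  set l' := l0 + t * R with hl'
  have hF : Fl ≤ ZC Fl fa fc R l j := by
    unfold ZC
    rw [add_assoc]
    exact Multiset.le_add_right _ _
  have hA : Adm Fl B (ZC Fl fa fc R l j + fam (sc (l' + R) (fc j)) + fam (sc l' (fc j))) := by
    unfold ZC
    exact d.adm4 (j + R) l (l' + R) l' l (j + R) j j
  refine h.refine (ZC Fl fa fc R l j) (fc j) l' _ hF hA fun i => ?_
  have hF' : Fl ≤ ZC Fl fa fc R l j + fam (sc (l' + R) (fc j)) :=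
    hF.trans (Multiset.le_add_right _ _)
  have hadm := sc_sub_adm i hF' hA
  have hown : InB (ZC Fl fa fc R l j + fam (sc (l' + R) (fc j)))
      (((1 : ℝ) / 2) ^ (l' + R) • fc j i) :=
    InB.mem i (Multiset.mem_add.mpr (Or.inr (mem_fam (sc (l' + R) (fc j)) i)))
  refine d.hC j t i ht _ hF' hadm ?_ hown
  intro a ha
  obtain ⟨x, hx, hx1⟩ := d.cova l l' a hl ha
  refine InB.of_coord (fa l) (((1 : ℝ) / 2) ^ (j + R)) ?_ x hx fun k => ?_
  · intro i'
    refine Multiset.mem_add.mpr (Or.inl ?_)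
    unfold ZC
    exact Multiset.mem_add.mpr (Or.inl (Multiset.mem_add.mpr (Or.inr
      (mem_fam (sc (j + R) (fa l)) i'))))
  · rw [abs_mul, abs_half, abs_half]
    have h3 := half_le (show j + R ≤ j + D by have := d.hRD; omega)
    have h4 := hx1 k
    have h5 := abs_nonneg (x k)
    have h6 : (0 : ℝ) ≤ (1 / 2) ^ (j + D) := by positivity
    nlinarith

/-- STEP C, `K` refinements -/
theorem stepCKV (h : PF Fl B S inc R c0 c2) (d : PDV Fl B φ inc R D T j0 l0 c1 SA SC fa fc ea ec)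
    (u j K : ℕ) (hK : u + K ≤ T) :
    S (ZC Fl fa fc R (l0 + u * R) j + fam (sc (l0 + u * R) (fc j))) ≤
      S (ZC Fl fa fc R (l0 + u * R) j + fam (sc (l0 + (u + K) * R) (fc j))) +
      ∑ k ∈ range K, (N * (c1 + ec j (u + k)) + (N + 1) * c0) := by
  induction K with
  | zero => simp
  | succ K ih =>
    have h0 := ih (by omega)
    have h1 := stepC1V h d (l0 + u * R) j (u + K) (by nlinarith) (by omega)
    rw [Finset.sum_range_succ]
    have h2 : l0 + (u + (K + 1)) * R = l0 + (u + K) * R + R := by ring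
    rw [h2]
    linarith

/-- STEPS A and C together -/
theorem stepACV (h : PF Fl B S inc R c0 c2) (d : PDV Fl B φ inc R D T j0 l0 c1 SA SC fa fc ea ec)
    (u t K : ℕ) (ht : t < T) (hKT : u + K ≤ T)
    (hK : ∀ i, InB (ZC Fl fa fc R (l0 + u * R) (j0 + t * R))
      (sc (l0 + (u + K) * R) (fc (j0 + t * R)) i)) :
    S (KK Fl fa fc (l0 + u * R) (j0 + t * R)) ≤ S (KK Fl fa fc (l0 + u * R) (j0 + t * R + R)) +
      (N * (c1 + ea (l0 + u * R) t) + (3 * N + 1) * c0) +
      ∑ k ∈ range K, (N * (c1 + ec (j0 + t * R) (u + k)) + (N + 1) * c0) := by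
  have h1 := stepAV h d (l0 + u * R) t ht
  set l := l0 + u * R with hl
  set j := j0 + t * R with hj
  -- insertion of the next frame
  have hF : Fl ≤ Fl + fam (sc l (fc j)) + fam (sc (j + R) (fa l)) := by
    rw [add_assoc]
    exact Multiset.le_add_right _ _
  have e1 : Fl + fam (sc l (fc j)) + fam (sc (j + R) (fa l)) + fam (sc l (fc (j + R))) =
      ZC Fl fa fc R l j + fam (sc l (fc j)) := by
    unfold ZC
    abel
  have hA1 : Adm Fl B (Fl + fam (sc l (fc j)) + fam (sc (j + R) (fa l)) + fam (sc l (fc (j + R)))) := by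
    rw [e1]
    unfold ZC
    exact (d.adm4 (j + R) l l l l (j + R) j j).sub
      (by rw [add_assoc, add_assoc]; exact Multiset.le_add_right _ _) (Multiset.le_add_right _ _)
  have h2 := h.mono_fam _ (sc l (fc (j + R))) hA1 hF
  rw [e1] at h2
  have h3 := stepCKV h d u j K hKT
  rw [← hl] at h3
  -- absorption of the refined frame
  have hF3 : Fl ≤ ZC Fl fa fc R l j := by
    unfold ZC
    rw [add_assoc]
    exact Multiset.le_add_right _ _
  have hA3 : Adm Fl B (ZC Fl fa fc R l j + fam (sc (l0 + (u + K) * R) (fc j))) := by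
    unfold ZC
    exact (d.adm4 (j + R) l (l0 + (u + K) * R) l l (j + R) j j).sub
      (by rw [add_assoc, add_assoc]; exact Multiset.le_add_right _ _) (Multiset.le_add_right _ _)
  have h4 := h.abs_fam (ZC Fl fa fc R l j) (sc (l0 + (u + K) * R) (fc j)) hA3 hF3 hK
  have e2 : KK Fl fa fc l (j + R) = ZC Fl fa fc R l j := by
    unfold KK ZC
    abel
  rw [e2]
  linarith

/-- the last part of the path -/
theorem stepEV (h : PF Fl B S inc R c0 c2) (d : PDV Fl B φ inc R D T j0 l0 c1 SA SC fa fc ea ec)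
    (u J K : ℕ) (hKT : u + K ≤ T) (hJ : ((1 : ℝ) / 2) ^ J * B ≤ φ)
    (hK : ((1 : ℝ) / 2) ^ (l0 + (u + K) * R) * B ≤ φ) :
    S (KK Fl fa fc (l0 + u * R) J) ≤ S Fl + 2 * N * c0 +
      ∑ k ∈ range K, (N * (c1 + ec J (u + k)) + (N + 1) * c0) := by
  have hB0 : 0 ≤ B := d.hφ.le.trans d.hφB
  set l := l0 + u * R with hl
  have hF1 : Fl ≤ Fl + fam (sc l (fc J)) := Multiset.le_add_right _ _
  have hA1 : Adm Fl B (Fl + fam (sc l (fc J)) + fam (sc J (fa l))) :=
    (d.adm3 J J l l J).sub (by rw [add_assoc]; exact Multiset.le_add_right _ _)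
      (Multiset.le_add_right _ _)
  have hFl0 : fam (flr (N := N) φ) ≤ Fl := by rw [d.hFl]
  have h1 := h.abs_fam (Fl + fam (sc l (fc J))) (sc J (fa l)) hA1 hF1 (fun i => by
    refine InB.flr d.hφ (hFl0.trans hF1) fun c => ?_
    unfold sc
    rw [Pi.smul_apply, smul_eq_mul, abs_mul, abs_of_nonneg (by positivity)]
    have h2 := d.fab l i c
    have h3 : (0 : ℝ) ≤ (1 / 2) ^ J := by positivity
    nlinarith)
  have hAd : ∀ a b : ℕ, Adm Fl B (Fl + fam (sc a (fc J)) + fam (sc b (fc J))) := by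
    intro a b
    have h3 := d.adm4 0 a b 0 l J J J
    refine h3.sub (by rw [add_assoc]; exact Multiset.le_add_right _ _) ?_
    have e1 : Fl + fam (sc 0 (fa l)) + fam (sc a (fc J)) + fam (sc b (fc J)) + fam (sc 0 (fc J)) =
        Fl + fam (sc a (fc J)) + fam (sc b (fc J)) + (fam (sc 0 (fa l)) + fam (sc 0 (fc J))) := by
      abel
    rw [e1]
    exact Multiset.le_add_right _ _
  have key : ∀ K : ℕ, u + K ≤ T → S (Fl + fam (sc l (fc J))) ≤
      S (Fl + fam (sc (l0 + (u + K) * R) (fc J))) +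
      ∑ k ∈ range K, (N * (c1 + ec J (u + k)) + (N + 1) * c0) := by
    intro K
    induction K with
    | zero => simp [hl]
    | succ K ih =>
      intro hKT'
      have ih' := ih (by omega)
      rw [Finset.sum_range_succ]
      have e2 : l0 + (u + (K + 1)) * R = l0 + (u + K) * R + R := by ring
      rw [e2]
      set l' := l0 + (u + K) * R with hl'
      have h4 : S (Fl + fam (sc l' (fc J))) ≤ S (Fl + fam (sc (l' + R) (fc J))) +
          N * (c1 + ec J (u + K)) + (N + 1) * c0 := by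
        refine h.refine Fl (fc J) l' _ le_rfl (hAd _ _) fun i => ?_
        have hF' : Fl ≤ Fl + fam (sc (l' + R) (fc J)) := Multiset.le_add_right _ _
        have hadm := sc_sub_adm i hF' (hAd (l' + R) l')
        have hown : InB (Fl + fam (sc (l' + R) (fc J))) (((1 : ℝ) / 2) ^ (l' + R) • fc J i) :=
          InB.mem i (Multiset.mem_add.mpr (Or.inr (mem_fam (sc (l' + R) (fc J)) i)))
        refine d.hC J (u + K) i (by omega) _ hF' hadm ?_ hown
        intro a ha
        refine InB.flr d.hφ (hFl0.trans hF') fun c => ?_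
        rw [Pi.smul_apply, smul_eq_mul, abs_mul, abs_of_nonneg (by positivity)]
        have h2 := d.sab l' a ha c
        have h3 := half_le (show J ≤ J + D by omega)
        have h5 : (0 : ℝ) ≤ (1 / 2) ^ (J + D) := by positivity
        calc ((1 : ℝ) / 2) ^ (J + D) * |a c| ≤ (1 / 2) ^ (J + D) * B :=
              mul_le_mul_of_nonneg_left h2 h5
          _ ≤ (1 / 2) ^ J * B := mul_le_mul_of_nonneg_right h3 hB0
          _ ≤ φ := hJ
      linarith
  have h5 := key K hKT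
  have h6 := h.abs_fam Fl (sc (l0 + (u + K) * R) (fc J))
    ((hAd (l0 + (u + K) * R) 0).sub (Multiset.le_add_right _ _) (Multiset.le_add_right _ _)) le_rfl
    (fun i => by
      refine InB.flr d.hφ hFl0 fun c => ?_
      unfold sc
      rw [Pi.smul_apply, smul_eq_mul, abs_mul, abs_of_nonneg (by positivity)]
      have h2 := d.fcb J i c
      have h3 : (0 : ℝ) ≤ (1 / 2) ^ (l0 + (u + K) * R) := by positivity
      nlinarith)
  have e3 : S (KK Fl fa fc l J) = S (Fl + fam (sc l (fc J)) + fam (sc J (fa l))) := rfl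
  rw [e3]
  linarith

/-- **THE PATH**, for one root `l0 + u R` -/
theorem pathV (h : PF Fl B S inc R c0 c2) (d : PDV Fl B φ inc R D T j0 l0 c1 SA SC fa fc ea ec)
    (u I Ke : ℕ) (Ki : ℕ → ℕ) (hI : I ≤ T) (hKe : u + Ke ≤ T) (hKT : ∀ i < I, u + Ki i ≤ T)
    (hKi : ∀ i < I, ∀ i', InB (ZC Fl fa fc R (l0 + u * R) (j0 + i * R))
      (sc (l0 + (u + Ki i) * R) (fc (j0 + i * R)) i'))
    (hJ : ((1 : ℝ) / 2) ^ (j0 + I * R) * B ≤ φ) (hK : ((1 : ℝ) / 2) ^ (l0 + (u + Ke) * R) * B ≤ φ) :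
    S (KK Fl fa fc (l0 + u * R) j0) ≤ S Fl +
      (∑ i ∈ range I, ((N * (c1 + ea (l0 + u * R) i) + (3 * N + 1) * c0) +
        ∑ k ∈ range (Ki i), (N * (c1 + ec (j0 + i * R) (u + k)) + (N + 1) * c0))) +
      (2 * N * c0 +
        ∑ k ∈ range Ke, (N * (c1 + ec (j0 + I * R) (u + k)) + (N + 1) * c0)) := by
  have key : ∀ I' ≤ I, S (KK Fl fa fc (l0 + u * R) j0) ≤
      S (KK Fl fa fc (l0 + u * R) (j0 + I' * R)) +
      (∑ i ∈ range I', ((N * (c1 + ea (l0 + u * R) i) + (3 * N + 1) * c0) +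
        ∑ k ∈ range (Ki i), (N * (c1 + ec (j0 + i * R) (u + k)) + (N + 1) * c0))) := by
    intro I' hI'
    induction I' with
    | zero => simp
    | succ I' ih =>
      have h1 := ih (by omega)
      have h2 := stepACV h d u I' (Ki I') (by omega) (hKT I' (by omega)) (hKi I' (by omega))
      have e1 : j0 + (I' + 1) * R = j0 + I' * R + R := by ring
      rw [Finset.sum_range_succ, e1]
      linarith
  have h1 := key I le_rfl
  have h2 := stepEV h d u (j0 + I * R) Ke hKe hJ hK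
  linarith

end

end Pool.Agent.Helper78.FW
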