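import Pool.Agent.Helper78.FW.AvgV

/-!
# The path of bodies with exact costs (ns_notes_58, row [P'])

As `Path.lean`; the increments of the path are kept as they are.
-/

set_option autoImplicit false

namespace Pool.Agent.Helper78.FW

open Finset Matrix

variable {N : ℕ}

/-- the data of the path, exact costs -/
structure PDW (Fl : Multiset (Fin N → ℝ)) (B φ : ℝ) (fa fc : ℕ → Fin N → Fin N → ℝ) : Prop where
  hFl : Fl = fam (flr φ)
  hφ : 0 < φ
  hφB : φ ≤ B
  /-- frames are bounded -/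
  fab : ∀ l i c, |fa l i c| ≤ B
  fcb : ∀ j i c, |fc j i c| ≤ B

section

variable {Fl : Multiset (Fin N → ℝ)} {B : ℝ} {S : Multiset (Fin N → ℝ) → ℝ}
    {inc : Multiset (Fin N → ℝ) → (Fin N → ℝ) → ℝ} {R : ℕ} {c0 c2 : ℝ}
    {φ : ℝ} {fa fc : ℕ → Fin N → Fin N → ℝ}

theorem PDW.flB (d : PDW Fl B φ fa fc) : ∀ v ∈ Fl, ∀ c, |v c| ≤ B := by
  classical
  intro v hv c
  rw [d.hFl] at hv
  obtain ⟨i, rfl⟩ := (mem_fam_iff _ _).mp hv
  unfold flr
  have h0 : (0 : ℝ) ≤ B := d.hφ.le.trans d.hφB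
  by_cases h : c = i
  · subst h
    rw [Pi.single_eq_same, abs_of_pos d.hφ]
    exact d.hφB
  · rw [Pi.single_eq_of_ne h, abs_zero]
    exact h0

theorem PDW.cardFl (d : PDW Fl B φ fa fc) : Fl.card = N := by
  rw [d.hFl, card_fam]

/-- admissibility of the families of the path -/
theorem PDW.adm4 (d : PDW Fl B φ fa fc) (a b c e : ℕ) (l j1 j2 j3 : ℕ) :
    Adm Fl B (Fl + fam (sc a (fa l)) + fam (sc b (fc j1)) + fam (sc c (fc j2)) +
      fam (sc e (fc j3))) := by
  refine ⟨?_, ?_, ?_⟩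
  · rw [add_assoc, add_assoc, add_assoc]
    exact Multiset.le_add_right _ _
  · simp only [Multiset.card_add, card_fam, d.cardFl]
    omega
  · intro v hv i
    simp only [Multiset.mem_add] at hv
    rcases hv with (((hv | hv) | hv) | hv) | hv
    · exact d.flB v hv i
    · exact sc_abs (d.fab l) v hv i
    · exact sc_abs (d.fcb j1) v hv i
    · exact sc_abs (d.fcb j2) v hv i
    · exact sc_abs (d.fcb j3) v hv i

theorem PDW.adm3 (d : PDW Fl B φ fa fc) (a a' b : ℕ) (l j1 : ℕ) :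
    Adm Fl B (Fl + fam (sc b (fc j1)) + fam (sc a (fa l)) + fam (sc a' (fa l))) := by
  refine ⟨?_, ?_, ?_⟩
  · rw [add_assoc, add_assoc]
    exact Multiset.le_add_right _ _
  · simp only [Multiset.card_add, card_fam, d.cardFl]
    omega
  · intro v hv i
    simp only [Multiset.mem_add] at hv
    rcases hv with ((hv | hv) | hv) | hv
    · exact d.flB v hv i
    · exact sc_abs (d.fcb j1) v hv i
    · exact sc_abs (d.fab l) v hv i
    · exact sc_abs (d.fab l) v hv i

theorem PDW.adm2 (d : PDW Fl B φ fa fc) (a b j1 j2 : ℕ) :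
    Adm Fl B (Fl + fam (sc a (fc j1)) + fam (sc b (fc j2))) := by
  refine ⟨?_, ?_, ?_⟩
  · rw [add_assoc]
    exact Multiset.le_add_right _ _
  · simp only [Multiset.card_add, card_fam, d.cardFl]
    omega
  · intro v hv i
    simp only [Multiset.mem_add] at hv
    rcases hv with (hv | hv) | hv
    · exact d.flB v hv i
    · exact sc_abs (d.fcb j1) v hv i
    · exact sc_abs (d.fcb j2) v hv i

/-- the bodies of the path are admissible -/
theorem PDW.admK (d : PDW Fl B φ fa fc) (l j : ℕ) : Adm Fl B (KK Fl fa fc l j) := by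
  have h := d.adm3 j j l l j
  refine h.sub ?_ (Multiset.le_add_right _ _)
  unfold KK
  rw [add_assoc]
  exact Multiset.le_add_right _ _

/-- one refinement of a scaled frame, exact cost -/
theorem PF.refineW (h : PF Fl B S inc R c0 c2) (Z : Multiset (Fin N → ℝ)) (w : Fin N → Fin N → ℝ)
    (k : ℕ) (hF : Fl ≤ Z) (hA : Adm Fl B (Z + fam (sc (k + R) w) + fam (sc k w))) :
    S (Z + fam (sc k w)) ≤ S (Z + fam (sc (k + R) w)) +
      ∑ i, inc (Z + fam (sc (k + R) w)) (((1 : ℝ) / 2) ^ k • w i) + (N + 1) * c0 := by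
  have hA1 : Adm Fl B (Z + fam (sc k w) + fam (sc (k + R) w)) := by
    rw [add_right_comm]
    exact hA
  have h1 := h.mono_fam (Z + fam (sc k w)) (sc (k + R) w) hA1 (hF.trans (Multiset.le_add_right _ _))
  have h2 := h.kv (Z + fam (sc (k + R) w)) (sc k w) hA (hF.trans (Multiset.le_add_right _ _))
  have h3 : ∑ i, inc (Z + fam (sc (k + R) w)) (sc k w i) =
      ∑ i, inc (Z + fam (sc (k + R) w)) (((1 : ℝ) / 2) ^ k • w i) := rfl
  rw [add_right_comm] at h1
  linarith

/-- the body of STEP A -/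
noncomputable def YA (Fl : Multiset (Fin N → ℝ)) (fa fc : ℕ → Fin N → Fin N → ℝ) (R l j : ℕ) :
    Multiset (Fin N → ℝ) := Fl + fam (sc l (fc j)) + fam (sc (j + R) (fa l))

/-- the bodies of STEP C -/
noncomputable def YC (Fl : Multiset (Fin N → ℝ)) (fa fc : ℕ → Fin N → Fin N → ℝ) (R l j l' : ℕ) :
    Multiset (Fin N → ℝ) := ZC Fl fa fc R l j + fam (sc (l' + R) (fc j))

/-- the bodies of the last step -/
noncomputable def YE (Fl : Multiset (Fin N → ℝ)) (fc : ℕ → Fin N → Fin N → ℝ) (R J l' : ℕ) :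
    Multiset (Fin N → ℝ) := Fl + fam (sc (l' + R) (fc J))

/-- STEP A -/
theorem stepAW (h : PF Fl B S inc R c0 c2) (d : PDW Fl B φ fa fc) (l j : ℕ) :
    S (KK Fl fa fc l j) ≤ S (YA Fl fa fc R l j) +
      ∑ i, inc (YA Fl fa fc R l j) (((1 : ℝ) / 2) ^ j • fa l i) + (N + 1) * c0 := by
  have hF : Fl ≤ Fl + fam (sc l (fc j)) := Multiset.le_add_right _ _
  exact h.refineW (Fl + fam (sc l (fc j))) (fa l) j hF (d.adm3 (j + R) j l l j)

/-- STEP C, one refinement -/
theorem stepC1W (h : PF Fl B S inc R c0 c2) (d : PDW Fl B φ fa fc) (l j l' : ℕ) :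
    S (ZC Fl fa fc R l j + fam (sc l' (fc j))) ≤
      S (ZC Fl fa fc R l j + fam (sc (l' + R) (fc j))) +
      ∑ i, inc (YC Fl fa fc R l j l') (((1 : ℝ) / 2) ^ l' • fc j i) + (N + 1) * c0 := by
  have hF : Fl ≤ ZC Fl fa fc R l j := by
    unfold ZC
    rw [add_assoc]
    exact Multiset.le_add_right _ _
  have hA : Adm Fl B (ZC Fl fa fc R l j + fam (sc (l' + R) (fc j)) + fam (sc l' (fc j))) := by
    unfold ZC
    exact d.adm4 (j + R) l (l' + R) l' l (j + R) j j
  exact h.refineW (ZC Fl fa fc R l j) (fc j) l' hF hA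

/-- STEP C, `K` refinements -/
theorem stepCKW (h : PF Fl B S inc R c0 c2) (d : PDW Fl B φ fa fc) (l j K : ℕ) :
    S (ZC Fl fa fc R l j + fam (sc l (fc j))) ≤
      S (ZC Fl fa fc R l j + fam (sc (l + K * R) (fc j))) +
      ∑ k ∈ range K, (∑ i, inc (YC Fl fa fc R l j (l + k * R))
        (((1 : ℝ) / 2) ^ (l + k * R) • fc j i) + (N + 1) * c0) := by
  induction K with
  | zero => simp
  | succ K ih =>
    have h1 := stepC1W h d l j (l + K * R)
    rw [Finset.sum_range_succ]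
    have h2 : l + (K + 1) * R = l + K * R + R := by ring
    rw [h2]
    linarith

/-- STEPS A and C together -/
theorem stepACW (h : PF Fl B S inc R c0 c2) (d : PDW Fl B φ fa fc) (l j K : ℕ)
    (hK : ∀ i, InB (ZC Fl fa fc R l j) (sc (l + K * R) (fc j) i)) :
    S (KK Fl fa fc l j) ≤ S (KK Fl fa fc l (j + R)) +
      (∑ i, inc (YA Fl fa fc R l j) (((1 : ℝ) / 2) ^ j • fa l i) + (3 * N + 1) * c0) +
      ∑ k ∈ range K, (∑ i, inc (YC Fl fa fc R l j (l + k * R))
        (((1 : ℝ) / 2) ^ (l + k * R) • fc j i) + (N + 1) * c0) := by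
  have h1 := stepAW h d l j
  -- insertion of the next frame
  have hF : Fl ≤ YA Fl fa fc R l j := by
    unfold YA
    rw [add_assoc]
    exact Multiset.le_add_right _ _
  have e1 : YA Fl fa fc R l j + fam (sc l (fc (j + R))) =
      ZC Fl fa fc R l j + fam (sc l (fc j)) := by
    unfold YA ZC
    abel
  have hA1 : Adm Fl B (YA Fl fa fc R l j + fam (sc l (fc (j + R)))) := by
    rw [e1]
    unfold ZC
    exact (d.adm4 (j + R) l l l l (j + R) j j).sub
      (by rw [add_assoc, add_assoc]; exact Multiset.le_add_right _ _) (Multiset.le_add_right _ _)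
  have h2 := h.mono_fam _ (sc l (fc (j + R))) hA1 hF
  rw [e1] at h2
  have h3 := stepCKW h d l j K
  -- absorption of the refined frame
  have hF3 : Fl ≤ ZC Fl fa fc R l j := by
    unfold ZC
    rw [add_assoc]
    exact Multiset.le_add_right _ _
  have hA3 : Adm Fl B (ZC Fl fa fc R l j + fam (sc (l + K * R) (fc j))) := by
    unfold ZC
    exact (d.adm4 (j + R) l (l + K * R) l l (j + R) j j).sub
      (by rw [add_assoc, add_assoc]; exact Multiset.le_add_right _ _) (Multiset.le_add_right _ _)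
  have h4 := h.abs_fam (ZC Fl fa fc R l j) (sc (l + K * R) (fc j)) hA3 hF3 hK
  have e2 : KK Fl fa fc l (j + R) = ZC Fl fa fc R l j := by
    unfold KK ZC
    abel
  rw [e2]
  linarith

/-- the last part of the path -/
theorem stepEW (h : PF Fl B S inc R c0 c2) (d : PDW Fl B φ fa fc)
    (l J K : ℕ) (hJ : ((1 : ℝ) / 2) ^ J * B ≤ φ) (hK : ((1 : ℝ) / 2) ^ (l + K * R) * B ≤ φ) :
    S (KK Fl fa fc l J) ≤ S Fl + 2 * N * c0 +
      ∑ k ∈ range K, (∑ i, inc (YE Fl fc R J (l + k * R))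
        (((1 : ℝ) / 2) ^ (l + k * R) • fc J i) + (N + 1) * c0) := by
  have hB0 : 0 ≤ B := d.hφ.le.trans d.hφB
  have hF1 : Fl ≤ Fl + fam (sc l (fc J)) := Multiset.le_add_right _ _
  have hA1 : Adm Fl B (Fl + fam (sc l (fc J)) + fam (sc J (fa l))) :=
    (d.adm3 J J l l J).sub (by rw [add_assoc]; exact Multiset.le_add_right _ _)
      (Multiset.le_add_right _ _)
  have hFl0 : fam (flr (N := N) φ) ≤ Fl := by rw [d.hFl]
  have h1 := h.abs_fam (Fl + fam (sc l (fc J))) (sc J (fa l)) hA1 hF1 (fun i => by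
    refine InB.flr d.hφ (hFl0.trans hF1) fun c => ?_
    unfold sc
    rw [Pi.smul_apply, smul_eq_mul, abs_mul, abs_of_nonneg (by positivity)]
    have h2 := d.fab l i c
    have h3 : (0 : ℝ) ≤ (1 / 2) ^ J := by positivity
    nlinarith)
  have key : ∀ K : ℕ, S (Fl + fam (sc l (fc J))) ≤
      S (Fl + fam (sc (l + K * R) (fc J))) +
      ∑ k ∈ range K, (∑ i, inc (YE Fl fc R J (l + k * R))
        (((1 : ℝ) / 2) ^ (l + k * R) • fc J i) + (N + 1) * c0) := by
    intro K
    induction K with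
    | zero => simp
    | succ K ih =>
      rw [Finset.sum_range_succ]
      have e2 : l + (K + 1) * R = l + K * R + R := by ring
      rw [e2]
      have h4 := h.refineW Fl (fc J) (l + K * R) le_rfl (d.adm2 _ _ _ _)
      have e3 : (∑ i, inc (Fl + fam (sc (l + K * R + R) (fc J))) (((1 : ℝ) / 2) ^ (l + K * R) • fc J i)) =
          ∑ i, inc (YE Fl fc R J (l + K * R)) (((1 : ℝ) / 2) ^ (l + K * R) • fc J i) := rfl
      rw [e3] at h4
      linarith
  have h5 := key K
  have h6 := h.abs_fam Fl (sc (l + K * R) (fc J))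
    ((d.adm2 (l + K * R) 0 J J).sub (Multiset.le_add_right _ _) (Multiset.le_add_right _ _)) le_rfl
    (fun i => by
      refine InB.flr d.hφ hFl0 fun c => ?_
      unfold sc
      rw [Pi.smul_apply, smul_eq_mul, abs_mul, abs_of_nonneg (by positivity)]
      have h2 := d.fcb J i c
      have h3 : (0 : ℝ) ≤ (1 / 2) ^ (l + K * R) := by positivity
      nlinarith)
  have e3 : S (KK Fl fa fc l J) = S (Fl + fam (sc l (fc J)) + fam (sc J (fa l))) := rfl
  rw [e3]
  linarith

/-- **THE PATH**, for one root `l`, exact costs -/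
theorem pathW (h : PF Fl B S inc R c0 c2) (d : PDW Fl B φ fa fc)
    (l j0 I Ke : ℕ) (Ki : ℕ → ℕ)
    (hKi : ∀ i < I, ∀ i', InB (ZC Fl fa fc R l (j0 + i * R)) (sc (l + Ki i * R) (fc (j0 + i * R)) i'))
    (hJ : ((1 : ℝ) / 2) ^ (j0 + I * R) * B ≤ φ) (hK : ((1 : ℝ) / 2) ^ (l + Ke * R) * B ≤ φ) :
    S (KK Fl fa fc l j0) ≤ S Fl +
      (∑ i ∈ range I, ((∑ i', inc (YA Fl fa fc R l (j0 + i * R))
          (((1 : ℝ) / 2) ^ (j0 + i * R) • fa l i') + (3 * N + 1) * c0) +
        ∑ k ∈ range (Ki i), (∑ i', inc (YC Fl fa fc R l (j0 + i * R) (l + k * R))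
          (((1 : ℝ) / 2) ^ (l + k * R) • fc (j0 + i * R) i') + (N + 1) * c0))) +
      (2 * N * c0 +
        ∑ k ∈ range Ke, (∑ i', inc (YE Fl fc R (j0 + I * R) (l + k * R))
          (((1 : ℝ) / 2) ^ (l + k * R) • fc (j0 + I * R) i') + (N + 1) * c0)) := by
  have key : ∀ I' ≤ I, S (KK Fl fa fc l j0) ≤ S (KK Fl fa fc l (j0 + I' * R)) +
      (∑ i ∈ range I', ((∑ i', inc (YA Fl fa fc R l (j0 + i * R))
          (((1 : ℝ) / 2) ^ (j0 + i * R) • fa l i') + (3 * N + 1) * c0) +
        ∑ k ∈ range (Ki i), (∑ i', inc (YC Fl fa fc R l (j0 + i * R) (l + k * R))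
          (((1 : ℝ) / 2) ^ (l + k * R) • fc (j0 + i * R) i') + (N + 1) * c0))) := by
    intro I' hI'
    induction I' with
    | zero => simp
    | succ I' ih =>
      have h1 := ih (by omega)
      have h2 := stepACW h d l (j0 + I' * R) (Ki I') (hKi I' (by omega))
      have e1 : j0 + (I' + 1) * R = j0 + I' * R + R := by ring
      rw [Finset.sum_range_succ, e1]
      linarith
  have h1 := key I le_rfl
  have h2 := stepEW h d l (j0 + I * R) Ke hJ hK
  linarith

end

end Pool.Agent.Helper78.FW
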