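import Pool.Agent.Helper78.FW.AvgV

/-!
# The path for one law (ns_notes_58, row [P'])

`VA m`, `VC j` are the source vectors of the left level `m` and of the right level `j` (empty for bad
levels), `xa m v t`, `xc j v t` the excess of the cost of the source vector `v` at the partner level
`j0 + t R`, resp. `l0 + t R`.  If the functional is at most `-E` on the floor and at least the logarithm of
the longest vector minus `s`, then all source vectors of high level are short.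
-/

set_option autoImplicit false

namespace Pool.Agent.Helper78.FW

open Finset Matrix

variable {N : ℕ}

/-- the source vectors of level at least `l`, and the floor -/
def PS (φ : ℝ) (V : ℕ → Finset (Fin N → ℝ)) (l : ℕ) : Set (Fin N → ℝ) :=
  {v | (∃ m, l ≤ m ∧ v ∈ V m) ∨ ∃ i, flr φ i = v}

theorem PS_finite (φ : ℝ) (V : ℕ → Finset (Fin N → ℝ)) (L : ℕ) (hL : ∀ m, L ≤ m → V m = ∅) (l : ℕ) :
    (PS φ V l).Finite := by
  classical
  have h1 : PS φ V l ⊆ (((range L).biUnion V ∪ univ.image (flr φ) : Finset (Fin N → ℝ)) :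
      Set (Fin N → ℝ)) := by
    intro v hv
    rw [Finset.mem_coe, Finset.mem_union]
    rcases hv with ⟨m, _, hm⟩ | ⟨i, hi⟩
    · left
      rw [Finset.mem_biUnion]
      refine ⟨m, ?_, hm⟩
      rw [Finset.mem_range]
      by_contra hcon
      rw [hL m (by omega)] at hm
      exact absurd hm (Finset.notMem_empty v)
    · right
      exact Finset.mem_image.mpr ⟨i, Finset.mem_univ i, hi⟩
  exact (Finset.finite_toSet _).subset h1

theorem PS_frame (φ : ℝ) (V : ℕ → Finset (Fin N → ℝ)) (L : ℕ) (hL : ∀ m, L ≤ m → V m = ∅) (l : ℕ) :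
    ∃ w, IsFr w (PS φ V l) :=
  exists_isFr _ (PS_finite φ V L hL l) (flr φ) fun i => Or.inr ⟨i, rfl⟩

theorem PS_anti (φ : ℝ) (V : ℕ → Finset (Fin N → ℝ)) {l l' : ℕ} (h : l ≤ l') : PS φ V l' ⊆ PS φ V l := by
  rintro v (⟨m, hm, hv⟩ | hv)
  · exact Or.inl ⟨m, h.trans hm, hv⟩
  · exact Or.inr hv

theorem PS_det {φ : ℝ} (hφ : 0 < φ) (V : ℕ → Finset (Fin N → ℝ)) {l : ℕ} {w : Fin N → Fin N → ℝ}
    (hw : IsFr w (PS φ V l)) : φ ^ N ≤ |(Matrix.of w).det| := by
  have h1 := hw.2 (flr φ) fun i => Or.inr ⟨i, rfl⟩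
  rw [det_flr, abs_of_pos (by positivity)] at h1
  exact h1

theorem PS_bd {φ B : ℝ} (hφ : 0 < φ) (hφB : φ ≤ B) (V : ℕ → Finset (Fin N → ℝ))
    (hV : ∀ m, ∀ v ∈ V m, ∀ c, |v c| ≤ B) {l : ℕ} {v : Fin N → ℝ} (hv : v ∈ PS φ V l) (c : Fin N) :
    |v c| ≤ B := by
  classical
  rcases hv with ⟨m, _, hm⟩ | ⟨i, rfl⟩
  · exact hV m v hm c
  · unfold flr
    by_cases h : c = i
    · subst h
      rw [Pi.single_eq_same, abs_of_pos hφ]
      exact hφB
    · rw [Pi.single_eq_of_ne h, abs_zero]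
      exact hφ.le.trans hφB

theorem det_le_bd {B : ℝ} (w : Fin N → Fin N → ℝ) (hw : ∀ i c, |w i c| ≤ B) :
    |(Matrix.of w).det| ≤ N.factorial * B ^ N := by
  have h1 := Matrix.det_le (A := Matrix.of w) (abv := AbsoluteValue.abs) (x := B) (fun i j => hw i j)
  rw [Fintype.card_fin, nsmul_eq_mul] at h1
  exact h1

/-- the number of steps of the path -/
noncomputable def KTX (N I Ke R : ℕ) (B φ : ℝ) : ℝ :=
  I + (Real.logb 2 N.factorial + N * Real.logb 2 (B / φ)) / R + Ke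

/-- the exponent of the path -/
noncomputable def XX (N I Ke R lam : ℕ) (B φ c0 c1 Γ s E : ℝ) : ℝ :=
  s - E + (I + 1) * (N * c1 + (3 * N + 1) * c0) + KTX N I Ke R B φ * (N * c1 + (N + 1) * c0) +
    N * (N * Γ) * (1 + KTX N I Ke R B φ / lam)

/-- **THE PATH FOR ONE LAW** -/
theorem pathX (φ B : ℝ) (hφ : 0 < φ) (hφB : φ ≤ B) (S : Multiset (Fin N → ℝ) → ℝ)
    (inc : Multiset (Fin N → ℝ) → (Fin N → ℝ) → ℝ) (R D : ℕ) (hR : 1 ≤ R) (hRD : R ≤ D)
    (c0 c1 c2 : ℝ) (h : PF (fam (flr φ)) B S inc R c0 c2) (h0 : PF (fam (flr φ)) B S inc 0 c0 c1)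
    (L : ℕ) (VA VC : ℕ → Finset (Fin N → ℝ)) (hLA : ∀ m, L ≤ m → VA m = ∅)
    (hLC : ∀ m, L ≤ m → VC m = ∅) (hVA : ∀ m, ∀ v ∈ VA m, ∀ c, |v c| ≤ B)
    (hVC : ∀ m, ∀ v ∈ VC m, ∀ c, |v c| ≤ B) (T j0 l0 : ℕ)
    (xa xc : ℕ → (Fin N → ℝ) → ℕ → ℝ) (hxa : ∀ m v t, 0 ≤ xa m v t) (hxc : ∀ m v t, 0 ≤ xc m v t)
    (hA : ∀ m, ∀ v ∈ VA m, ∀ t < T, ∀ Z, fam (flr φ) ≤ Z →
      Adm (fam (flr φ)) B (Z + {((1 : ℝ) / 2) ^ (j0 + t * R) • v}) →
      (∀ j', j0 + t * R ≤ j' → ∀ w ∈ VC j', InB Z (((1 : ℝ) / 2) ^ (m + D) • w)) →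
      InB Z (((1 : ℝ) / 2) ^ (j0 + t * R + R) • v) →
      inc Z (((1 : ℝ) / 2) ^ (j0 + t * R) • v) ≤ c1 + xa m v t)
    (hC : ∀ j, ∀ v ∈ VC j, ∀ t < T, ∀ Z, fam (flr φ) ≤ Z →
      Adm (fam (flr φ)) B (Z + {((1 : ℝ) / 2) ^ (l0 + t * R) • v}) →
      (∀ l', l0 + t * R ≤ l' → ∀ w ∈ VA l', InB Z (((1 : ℝ) / 2) ^ (j + D) • w)) →
      InB Z (((1 : ℝ) / 2) ^ (l0 + t * R + R) • v) →
      inc Z (((1 : ℝ) / 2) ^ (l0 + t * R) • v) ≤ c1 + xc j v t)
    (Γ : ℝ) (hΓ : 0 ≤ Γ) (hΓA : ∀ m, ∀ v ∈ VA m, ∑ t ∈ range T, xa m v t ≤ Γ)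
    (hΓC : ∀ j, ∀ v ∈ VC j, ∑ t ∈ range T, xc j v t ≤ Γ)
    (s E : ℝ) (hs : ∀ Z, fam (flr φ) ≤ Z → Adm (fam (flr φ)) B Z → ∀ v ∈ Z, ∀ c, v c ≠ 0 →
      Real.logb 2 |v c| - s ≤ S Z) (hE : S (fam (flr φ)) ≤ -E)
    (lam I Ke : ℕ) (hlam : 0 < lam) (hI : I ≤ T) (hT : lam + Ke ≤ T)
    (hJ : ((1 : ℝ) / 2) ^ (j0 + I * R) * B ≤ φ) (hK : ((1 : ℝ) / 2) ^ (Ke * R) * B ≤ φ) :
    ∃ u < lam,
      (∀ m, l0 + u * R ≤ m → ∀ v ∈ VA m, ∀ c,
        |v c| ≤ N * (2 : ℝ) ^ ((j0 : ℝ) + XX N I Ke R lam B φ c0 c1 Γ s E)) ∧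
      (∀ j, j0 ≤ j → ∀ v ∈ VC j, ∀ c,
        |v c| ≤ N * (2 : ℝ) ^ (((l0 + u * R : ℕ) : ℝ) + XX N I Ke R lam B φ c0 c1 Γ s E)) := by
  classical
  have hB : 0 < B := hφ.trans_le hφB
  have hc0 : 0 ≤ c0 := h.c0_nonneg
  have hc1 : 0 ≤ c1 := h0.c2_nonneg
  have hN0 : (0 : ℝ) ≤ N := Nat.cast_nonneg N
  choose fa hfa using PS_frame φ VA L hLA
  choose fc hfc using PS_frame φ VC L hLC
  have hda : ∀ l, (Matrix.of (fa l)).det ≠ 0 := fun l =>
    abs_pos.mp ((pow_pos hφ N).trans_le (PS_det hφ VA (hfa l)))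
  have hdc : ∀ l, (Matrix.of (fc l)).det ≠ 0 := fun l =>
    abs_pos.mp ((pow_pos hφ N).trans_le (PS_det hφ VC (hfc l)))
  -- the excess of a frame vector
  set ga : ℕ → ℕ → Fin N → ℝ := fun l t i =>
    if q : ∃ m, l ≤ m ∧ fa l i ∈ VA m then xa q.choose (fa l i) t else 0 with hga
  set gc : ℕ → ℕ → Fin N → ℝ := fun l t i =>
    if q : ∃ m, l ≤ m ∧ fc l i ∈ VC m then xc q.choose (fc l i) t else 0 with hgc
  have hga0 : ∀ l t i, 0 ≤ ga l t i := by
    intro l t i
    simp only [hga]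
    split_ifs
    · exact hxa _ _ _
    · exact le_rfl
  have hgc0 : ∀ l t i, 0 ≤ gc l t i := by
    intro l t i
    simp only [hgc]
    split_ifs
    · exact hxc _ _ _
    · exact le_rfl
  have hgaS : ∀ l i, ∑ t ∈ range T, ga l t i ≤ Γ := by
    intro l i
    by_cases q : ∃ m, l ≤ m ∧ fa l i ∈ VA m
    · simp only [hga, dif_pos q]
      exact hΓA _ _ q.choose_spec.2
    · simp only [hga, dif_neg q, Finset.sum_const_zero]
      exact hΓ
  have hgcS : ∀ l i, ∑ t ∈ range T, gc l t i ≤ Γ := by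
    intro l i
    by_cases q : ∃ m, l ≤ m ∧ fc l i ∈ VC m
    · simp only [hgc, dif_pos q]
      exact hΓC _ _ q.choose_spec.2
    · simp only [hgc, dif_neg q, Finset.sum_const_zero]
      exact hΓ
  have d : PDV (fam (flr (N := N) φ)) B φ inc R D T j0 l0 c1
      (fun l a => ∃ m, l ≤ m ∧ a ∈ VA m) (fun l a => ∃ m, l ≤ m ∧ a ∈ VC m) fa fc
      (fun l t => ∑ i, ga l t i) (fun l t => ∑ i, gc l t i) := by
    refine ⟨rfl, hφ, hφB, hRD, ?_, ?_, ?_, ?_, ?_, ?_, ?_⟩
    · exact fun l i c => PS_bd hφ hφB VA hVA ((hfa l).1 i) c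
    · exact fun l i c => PS_bd hφ hφB VC hVC ((hfc l).1 i) c
    · rintro l a ⟨m, _, ha⟩ c
      exact hVA m a ha c
    · rintro l m a hlm ⟨m', hm', ha⟩
      obtain ⟨x, hx, hx1⟩ := (hfa l).coord (hfa l).1 (hda l) (v := a)
        (Or.inl ⟨m', hlm.trans hm', ha⟩)
      rw [div_self (abs_ne_zero.mpr (hda l))] at hx1
      exact ⟨x, hx, hx1⟩
    · rintro j a ⟨m', hm', ha⟩
      obtain ⟨x, hx, hx1⟩ := (hfc j).coord (hfc j).1 (hdc j) (v := a) (Or.inl ⟨m', hm', ha⟩)
      rw [div_self (abs_ne_zero.mpr (hdc j))] at hx1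
      exact ⟨x, hx, hx1⟩
    · intro l t i ht Z hZ hadm herr hown
      have hle : ga l t i ≤ ∑ i', ga l t i' :=
        Finset.single_le_sum (f := fun i' => ga l t i') (fun i' _ => hga0 l t i') (Finset.mem_univ i)
      by_cases q : ∃ m, l ≤ m ∧ fa l i ∈ VA m
      · have h1 := hA q.choose (fa l i) q.choose_spec.2 t ht Z hZ hadm (by
          intro j' hj' w hw
          exact (herr w ⟨j', hj', hw⟩).half (by have := q.choose_spec.1; omega)) hown
        have h2 : ga l t i = xa q.choose (fa l i) t := by simp only [hga, dif_pos q]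
        rw [h2] at hle
        linarith
      · rcases (hfa l).1 i with q' | ⟨i', hi'⟩
        · exact absurd q' q
        · have h1 := h0.triv Z (((1 : ℝ) / 2) ^ (j0 + t * R) • fa l i) hadm hZ (by
            rw [pow_zero, one_smul]
            refine InB.flr hφ hZ fun c => ?_
            rw [← hi', Pi.smul_apply, smul_eq_mul, abs_mul, abs_of_nonneg (by positivity)]
            have h3 : |flr φ i' c| ≤ φ := by
              unfold flr
              by_cases hc : c = i'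
              · subst hc
                rw [Pi.single_eq_same, abs_of_pos hφ]
              · rw [Pi.single_eq_of_ne hc, abs_zero]
                exact hφ.le
            have h4 : ((1 : ℝ) / 2) ^ (j0 + t * R) ≤ 1 := pow_le_one₀ (by norm_num) (by norm_num)
            have h5 : (0 : ℝ) ≤ (1 / 2) ^ (j0 + t * R) := by positivity
            nlinarith [abs_nonneg (flr φ i' c)])
          have h2 := hga0 l t i
          linarith
    · intro l t i ht Z hZ hadm herr hown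
      have hle : gc l t i ≤ ∑ i', gc l t i' :=
        Finset.single_le_sum (f := fun i' => gc l t i') (fun i' _ => hgc0 l t i') (Finset.mem_univ i)
      by_cases q : ∃ m, l ≤ m ∧ fc l i ∈ VC m
      · have h1 := hC q.choose (fc l i) q.choose_spec.2 t ht Z hZ hadm (by
          intro j' hj' w hw
          exact (herr w ⟨j', hj', hw⟩).half (by have := q.choose_spec.1; omega)) hown
        have h2 : gc l t i = xc q.choose (fc l i) t := by simp only [hgc, dif_pos q]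
        rw [h2] at hle
        linarith
      · rcases (hfc l).1 i with q' | ⟨i', hi'⟩
        · exact absurd q' q
        · have h1 := h0.triv Z (((1 : ℝ) / 2) ^ (l0 + t * R) • fc l i) hadm hZ (by
            rw [pow_zero, one_smul]
            refine InB.flr hφ hZ fun c => ?_
            rw [← hi', Pi.smul_apply, smul_eq_mul, abs_mul, abs_of_nonneg (by positivity)]
            have h3 : |flr φ i' c| ≤ φ := by
              unfold flr
              by_cases hc : c = i'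
              · subst hc
                rw [Pi.single_eq_same, abs_of_pos hφ]
              · rw [Pi.single_eq_of_ne hc, abs_zero]
                exact hφ.le
            have h4 : ((1 : ℝ) / 2) ^ (l0 + t * R) ≤ 1 := pow_le_one₀ (by norm_num) (by norm_num)
            have h5 : (0 : ℝ) ≤ (1 / 2) ^ (l0 + t * R) := by positivity
            nlinarith [abs_nonneg (flr φ i' c)])
          have h2 := hgc0 l t i
          linarith
  have hsum : ∀ g : ℕ → ℕ → Fin N → ℝ, (∀ l i, ∑ t ∈ range T, g l t i ≤ Γ) → ∀ l,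
      ∑ t ∈ range T, ∑ i, g l t i ≤ N * Γ := by
    intro g hg l
    rw [Finset.sum_comm]
    calc ∑ i : Fin N, ∑ t ∈ range T, g l t i ≤ ∑ _i : Fin N, Γ := Finset.sum_le_sum fun i _ => hg l i
      _ = N * Γ := by rw [Finset.sum_const, Finset.card_fin, nsmul_eq_mul]
  obtain ⟨u, hu, hpath⟩ := path_avgV h d hc1 hR (PS φ VC) (fun j => PS_anti φ VC (by omega)) hfc hdc
    (N * Γ) (fun l t => Finset.sum_nonneg fun i _ => hga0 l t i)
    (fun l t => Finset.sum_nonneg fun i _ => hgc0 l t i)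
    (hsum ga hgaS) (hsum gc hgcS) lam I Ke hlam hI hT hJ hK
  refine ⟨u, hu, ?_⟩
  -- the number of steps
  have hlam0 : (0 : ℝ) < lam := by exact_mod_cast hlam
  have hR0 : (0 : ℝ) < R := by exact_mod_cast hR
  have hKT : (∑ i ∈ range I, (Km fc R Ke (j0 + i * R) : ℝ)) + Ke ≤ KTX N I Ke R B φ := by
    have h1 : (∑ i ∈ range I, (Km fc R Ke (j0 + i * R) : ℝ)) ≤
        ∑ i ∈ range I, (Kn fc R (j0 + i * R) : ℝ) :=
      Finset.sum_le_sum fun i _ => by
        exact_mod_cast (min_le_left (Kn fc R (j0 + i * R)) Ke)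
    have h2 := sum_Kn_le fc R j0 I hR hdc (fun j =>
      (hfc j).2 (fc (j + R)) fun i => PS_anti φ VC (by omega) ((hfc (j + R)).1 i))
    have h3 : Real.logb 2 |(Matrix.of (fc j0)).det| ≤ Real.logb 2 N.factorial + N * Real.logb 2 B := by
      have h4 := det_le_bd (fc j0) (fun i c => PS_bd hφ hφB VC hVC ((hfc j0).1 i) c)
      have h5 := Real.logb_le_logb_of_le (b := 2) (by norm_num) (abs_pos.mpr (hdc j0)) h4
      rw [Real.logb_mul (by exact_mod_cast N.factorial_ne_zero) (by positivity),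
        Real.logb_pow] at h5
      exact h5
    have h6 : N * Real.logb 2 φ ≤ Real.logb 2 |(Matrix.of (fc (j0 + I * R))).det| := by
      have h4 := PS_det hφ VC (hfc (j0 + I * R))
      have h5 := Real.logb_le_logb_of_le (b := 2) (by norm_num) (pow_pos hφ N) h4
      rw [Real.logb_pow] at h5
      exact h5
    have h7 : (Real.logb 2 |(Matrix.of (fc j0)).det| -
        Real.logb 2 |(Matrix.of (fc (j0 + I * R))).det|) / R ≤
        (Real.logb 2 N.factorial + N * Real.logb 2 (B / φ)) / R := by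
      refine div_le_div_of_nonneg_right ?_ hR0.le
      rw [Real.logb_div hB.ne' hφ.ne']
      linarith
    unfold KTX
    linarith
  set KT : ℝ := (∑ i ∈ range I, (Km fc R Ke (j0 + i * R) : ℝ)) + Ke with hKTdef
  have hcc : 0 ≤ N * c1 + (N + 1) * c0 := by positivity
  have hX : S (KK (fam (flr φ)) fa fc (l0 + u * R) j0) + s ≤ XX N I Ke R lam B φ c0 c1 Γ s E := by
    have h1 : KT * (N * c1 + (N + 1) * c0) ≤ KTX N I Ke R B φ * (N * c1 + (N + 1) * c0) :=
      mul_le_mul_of_nonneg_right hKT hcc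
    have h2 : N * (N * Γ) * (1 + KT / lam) ≤ N * (N * Γ) * (1 + KTX N I Ke R B φ / lam) := by
      refine mul_le_mul_of_nonneg_left ?_ (by positivity)
      have h3 := div_le_div_of_nonneg_right hKT hlam0.le
      linarith
    unfold XX
    linarith
  have hKadm := d.admK (l0 + u * R) j0
  have hFK : fam (flr φ) ≤ KK (fam (flr φ)) fa fc (l0 + u * R) j0 := by
    unfold KK
    rw [add_assoc]
    exact Multiset.le_add_right _ _
  have hlen : ∀ (w : Fin N → ℝ) (k : ℕ), ((1 : ℝ) / 2) ^ k • w ∈ KK (fam (flr φ)) fa fc (l0 + u * R) j0 →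
      ∀ c, |w c| ≤ (2 : ℝ) ^ ((k : ℝ) + XX N I Ke R lam B φ c0 c1 Γ s E) := by
    intro w k hw c
    by_cases hwc : w c = 0
    · rw [hwc, abs_zero]
      positivity
    · have h1 := hs _ hFK hKadm _ hw c (by
        rw [Pi.smul_apply, smul_eq_mul]
        exact mul_ne_zero (by positivity) hwc)
      rw [Pi.smul_apply, smul_eq_mul, abs_mul, abs_half,
        Real.logb_mul (by positivity) (abs_ne_zero.mpr hwc), Real.logb_pow] at h1
      have h2 : Real.logb 2 ((1 : ℝ) / 2) = -1 := by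
        rw [one_div, Real.logb_inv, Real.logb_self_eq_one (by norm_num)]
      rw [h2] at h1
      have h3 : Real.logb 2 |w c| ≤ (k : ℝ) + XX N I Ke R lam B φ c0 c1 Γ s E := by linarith
      rw [Real.logb_le_iff_le_rpow (by norm_num) (abs_pos.mpr hwc)] at h3
      exact h3
  have hbox : ∀ (w : Fin N → Fin N → ℝ) (M : ℝ) (_ : ∀ i c, |w i c| ≤ M) (v : Fin N → ℝ)
      (x : Fin N → ℝ) (_ : v = ∑ k, x k • w k) (_ : ∀ k, |x k| ≤ 1) (c : Fin N), |v c| ≤ N * M := by
    intro w M hw v x hv hx c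
    rw [hv, Finset.sum_apply]
    calc |∑ k, (x k • w k) c| ≤ ∑ k, |(x k • w k) c| := Finset.abs_sum_le_sum_abs _ _
      _ ≤ ∑ _k : Fin N, M := by
          refine Finset.sum_le_sum fun k _ => ?_
          rw [Pi.smul_apply, smul_eq_mul, abs_mul]
          have h1 := hw k c
          have h2 := hx k
          have h3 := abs_nonneg (w k c)
          have h4 := abs_nonneg (x k)
          nlinarith
      _ = N * M := by rw [Finset.sum_const, Finset.card_fin, nsmul_eq_mul]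
  constructor
  · intro m hm v hv c
    obtain ⟨x, hx, hx1⟩ := (hfa (l0 + u * R)).coord (hfa (l0 + u * R)).1 (hda _) (v := v)
      (Or.inl ⟨m, hm, hv⟩)
    rw [div_self (abs_ne_zero.mpr (hda _))] at hx1
    refine hbox (fa (l0 + u * R)) _ (fun i c => hlen _ j0 ?_ c) v x hx hx1 c
    unfold KK
    exact Multiset.mem_add.mpr (Or.inr (mem_fam (sc j0 (fa (l0 + u * R))) i))
  · intro j hj v hv c
    obtain ⟨x, hx, hx1⟩ := (hfc j0).coord (hfc j0).1 (hdc _) (v := v) (Or.inl ⟨j, hj, hv⟩)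
    rw [div_self (abs_ne_zero.mpr (hdc _))] at hx1
    refine hbox (fc j0) _ (fun i c => hlen _ (l0 + u * R) ?_ c) v x hx hx1 c
    unfold KK
    exact Multiset.mem_add.mpr (Or.inl (Multiset.mem_add.mpr (Or.inr
      (mem_fam (sc (l0 + u * R) (fc j0)) i))))

end Pool.Agent.Helper78.FW
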