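import Pool.Agent.Helper78.FW.PathW
import Pool.Agent.Helper78.FW.PathX

/-!
# The path for one law, costs summed over progressions of partner levels (ns_notes_58, row [P'])

`VA m`, `VC j` are the source vectors of the left level `m` and of the right level `j` (empty for bad
levels).  `Okb` lists what a body `Z` used with the source vector `v` of level `m` and the partner level `j`
satisfies.  The hypotheses `hA`, `hC` bound the sums of the increments of ONE source vector along a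
progression of partner levels, the bodies being arbitrary.  If the functional is at most `-E` on the floor
and at least the logarithm of the longest vector minus `s`, then all source vectors of high level are short.
-/

set_option autoImplicit false

namespace Pool.Agent.Helper78.FW

open Finset Matrix

variable {N : ℕ}

/-- `Z` is a good body for the source vector `v` of level `m` and the partner level `j`; `V` are the source
vectors of the same side, `W` those of the other side -/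
structure Okb (Fl : Multiset (Fin N → ℝ)) (B : ℝ) (R D : ℕ) (V W : ℕ → Finset (Fin N → ℝ)) (m j : ℕ)
    (v : Fin N → ℝ) (Z : Multiset (Fin N → ℝ)) : Prop where
  fl : Fl ≤ Z
  adm : Adm Fl B (Z + {((1 : ℝ) / 2) ^ j • v})
  err : ∀ j', j ≤ j' → ∀ w ∈ W j', InB Z (((1 : ℝ) / 2) ^ (m + D) • w)
  own : ∀ w ∈ V m, InB Z (((1 : ℝ) / 2) ^ (j + R) • w)

/-- the exponent of the path -/
noncomputable def XY (N I Ke R lam : ℕ) (B φ c0 c1 Γ s E : ℝ) : ℝ :=
  s - E + N * (c1 * I + Γ) + I * (3 * N + 1) * c0 + 2 * N * c0 +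
    KTX N I Ke R B φ * (N * (c1 + Γ / lam) + (N + 1) * c0)

theorem err_of_coord {Z : Multiset (Fin N → ℝ)} (f : Fin N → Fin N → ℝ) (k k' : ℕ) (hk : k ≤ k')
    (hZ : fam (sc k f) ≤ Z) {w : Fin N → ℝ} {x : Fin N → ℝ} (hw : w = ∑ i, x i • f i)
    (hx : ∀ i, |x i| ≤ 1) : InB Z (((1 : ℝ) / 2) ^ k' • w) := by
  refine InB.of_coord f (((1 : ℝ) / 2) ^ k) (fun i => Multiset.mem_of_le hZ (mem_fam (sc k f) i)) x hw
    fun i => ?_
  rw [abs_mul, abs_half, abs_half]
  have h3 := half_le hk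
  have h4 := hx i
  have h5 := abs_nonneg (x i)
  have h6 : (0 : ℝ) ≤ (1 / 2) ^ k' := by positivity
  nlinarith

theorem own_of_mem {Z : Multiset (Fin N → ℝ)} (f : Fin N → Fin N → ℝ) (k : ℕ) (i : Fin N)
    (hZ : fam (sc k f) ≤ Z) : InB Z (((1 : ℝ) / 2) ^ k • f i) :=
  InB.mem i (Multiset.mem_of_le hZ (mem_fam (sc k f) i))

/-- a floor vector costs at most `c1` -/
theorem inc_flr {B φ c0 c1 : ℝ} {inc : Multiset (Fin N → ℝ) → (Fin N → ℝ) → ℝ}
    {S : Multiset (Fin N → ℝ) → ℝ} (hφ : 0 < φ) (h0 : PF (fam (flr φ)) B S inc 0 c0 c1)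
    (Z : Multiset (Fin N → ℝ)) (k : ℕ) (i : Fin N) (hZ : fam (flr (N := N) φ) ≤ Z)
    (hadm : Adm (fam (flr φ)) B (Z + {((1 : ℝ) / 2) ^ k • flr φ i})) :
    inc Z (((1 : ℝ) / 2) ^ k • flr φ i) ≤ c1 := by
  classical
  refine h0.triv Z _ hadm hZ ?_
  rw [pow_zero, one_smul]
  refine InB.flr hφ hZ fun c => ?_
  rw [Pi.smul_apply, smul_eq_mul, abs_mul, abs_of_nonneg (by positivity)]
  have h3 : |flr φ i c| ≤ φ := by
    unfold flr
    by_cases hc : c = i
    · subst hc
      rw [Pi.single_eq_same, abs_of_pos hφ]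
    · rw [Pi.single_eq_of_ne hc, abs_zero]
      exact hφ.le
  have h4 : ((1 : ℝ) / 2) ^ k ≤ 1 := pow_le_one₀ (by norm_num) (by norm_num)
  have h5 : (0 : ℝ) ≤ (1 / 2) ^ k := by positivity
  nlinarith [abs_nonneg (flr φ i c)]

/-- **THE PATH FOR ONE LAW**, costs summed over progressions -/
theorem pathY (φ B : ℝ) (hφ : 0 < φ) (hφB : φ ≤ B) (S : Multiset (Fin N → ℝ) → ℝ)
    (inc : Multiset (Fin N → ℝ) → (Fin N → ℝ) → ℝ) (R D : ℕ) (hR : 1 ≤ R) (hRD : R ≤ D)
    (c0 c1 c2 : ℝ) (h : PF (fam (flr φ)) B S inc R c0 c2) (h0 : PF (fam (flr φ)) B S inc 0 c0 c1)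
    (L : ℕ) (VA VC : ℕ → Finset (Fin N → ℝ)) (hLA : ∀ m, L ≤ m → VA m = ∅)
    (hLC : ∀ m, L ≤ m → VC m = ∅) (hVA : ∀ m, ∀ v ∈ VA m, ∀ c, |v c| ≤ B)
    (hVC : ∀ m, ∀ v ∈ VC m, ∀ c, |v c| ≤ B) (j0 l0 lam I Ke : ℕ) (Γ : ℝ) (hΓ : 0 ≤ Γ)
    (hA : ∀ m, l0 ≤ m → ∀ v ∈ VA m, ∀ Z : ℕ → Multiset (Fin N → ℝ),
      (∀ t < I, Okb (fam (flr φ)) B R D VA VC m (j0 + t * R) v (Z t)) →
      ∑ t ∈ range I, inc (Z t) (((1 : ℝ) / 2) ^ (j0 + t * R) • v) ≤ c1 * I + Γ)
    (hC : ∀ j, j0 ≤ j → ∀ v ∈ VC j, ∀ k < Ke, ∀ Z : ℕ → Multiset (Fin N → ℝ),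
      (∀ u < lam, Okb (fam (flr φ)) B R D VC VA j (l0 + (u + k) * R) v (Z u)) →
      ∑ u ∈ range lam, inc (Z u) (((1 : ℝ) / 2) ^ (l0 + (u + k) * R) • v) ≤ c1 * lam + Γ)
    (s E : ℝ) (hs : ∀ Z, fam (flr φ) ≤ Z → Adm (fam (flr φ)) B Z → ∀ v ∈ Z, ∀ c, v c ≠ 0 →
      Real.logb 2 |v c| - s ≤ S Z) (hE : S (fam (flr φ)) ≤ -E)
    (hlam : 0 < lam)
    (hJ : ((1 : ℝ) / 2) ^ (j0 + I * R) * B ≤ φ) (hK : ((1 : ℝ) / 2) ^ (Ke * R) * B ≤ φ) :
    ∃ u < lam,
      (∀ m, l0 + u * R ≤ m → ∀ v ∈ VA m, ∀ c,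
        |v c| ≤ N * (2 : ℝ) ^ ((j0 : ℝ) + XY N I Ke R lam B φ c0 c1 Γ s E)) ∧
      (∀ j, j0 ≤ j → ∀ v ∈ VC j, ∀ c,
        |v c| ≤ N * (2 : ℝ) ^ (((l0 + u * R : ℕ) : ℝ) + XY N I Ke R lam B φ c0 c1 Γ s E)) := by
  classical
  have hB : 0 < B := hφ.trans_le hφB
  have hc0 : 0 ≤ c0 := h.c0_nonneg
  have hc1 : 0 ≤ c1 := h0.c2_nonneg
  have hN0 : (0 : ℝ) ≤ N := Nat.cast_nonneg N
  have hlam0 : (0 : ℝ) < lam := by exact_mod_cast hlam
  have hR0 : (0 : ℝ) < R := by exact_mod_cast hR
  choose fa hfa using PS_frame φ VA L hLA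
  choose fc hfc using PS_frame φ VC L hLC
  have hda : ∀ l, (Matrix.of (fa l)).det ≠ 0 := fun l =>
    abs_pos.mp ((pow_pos hφ N).trans_le (PS_det hφ VA (hfa l)))
  have hdc : ∀ l, (Matrix.of (fc l)).det ≠ 0 := fun l =>
    abs_pos.mp ((pow_pos hφ N).trans_le (PS_det hφ VC (hfc l)))
  set Fl : Multiset (Fin N → ℝ) := fam (flr φ) with hFl
  have d : PDW Fl B φ fa fc := ⟨rfl, hφ, hφB, fun l i c => PS_bd hφ hφB VA hVA ((hfa l).1 i) c,
    fun l i c => PS_bd hφ hφB VC hVC ((hfc l).1 i) c⟩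
  have hcova : ∀ l m a, l ≤ m → a ∈ VA m → ∃ x : Fin N → ℝ, a = ∑ k, x k • fa l k ∧ ∀ k, |x k| ≤ 1 := by
    intro l m a hlm ha
    obtain ⟨x, hx, hx1⟩ := (hfa l).coord (hfa l).1 (hda l) (v := a) (Or.inl ⟨m, hlm, ha⟩)
    rw [div_self (abs_ne_zero.mpr (hda l))] at hx1
    exact ⟨x, hx, hx1⟩
  have hcovc : ∀ l m a, l ≤ m → a ∈ VC m → ∃ x : Fin N → ℝ, a = ∑ k, x k • fc l k ∧ ∀ k, |x k| ≤ 1 := by
    intro l m a hlm ha
    obtain ⟨x, hx, hx1⟩ := (hfc l).coord (hfc l).1 (hdc l) (v := a) (Or.inl ⟨m, hlm, ha⟩)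
    rw [div_self (abs_ne_zero.mpr (hdc l))] at hx1
    exact ⟨x, hx, hx1⟩
  -- the sums of one left frame vector
  have sumA : ∀ u i', ∑ i ∈ range I, inc (YA Fl fa fc R (l0 + u * R) (j0 + i * R))
      (((1 : ℝ) / 2) ^ (j0 + i * R) • fa (l0 + u * R) i') ≤ c1 * I + Γ := by
    intro u i'
    set l := l0 + u * R with hl
    have hadm : ∀ j, Adm Fl B (YA Fl fa fc R l j + {((1 : ℝ) / 2) ^ j • fa l i'}) := fun j => by
      have h1 := d.adm3 (j + R) j l l j
      exact sc_sub_adm i' (by unfold YA; rw [add_assoc]; exact Multiset.le_add_right _ _) h1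
    have hflY : ∀ j, Fl ≤ YA Fl fa fc R l j := fun j => by
      unfold YA
      rw [add_assoc]
      exact Multiset.le_add_right _ _
    rcases (hfa l).1 i' with ⟨m, hlm, hm⟩ | ⟨i'', hi''⟩
    · refine hA m (by omega) (fa l i') hm (fun t => YA Fl fa fc R l (j0 + t * R)) fun t _ =>
        ⟨hflY _, hadm _, ?_, ?_⟩
      · intro j' hj' w hw
        obtain ⟨x, hx, hx1⟩ := hcovc (j0 + t * R) j' w hj' hw
        refine err_of_coord (fc (j0 + t * R)) l (m + D) (by omega) ?_ hx hx1
        unfold YA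
        calc fam (sc l (fc (j0 + t * R))) ≤ Fl + fam (sc l (fc (j0 + t * R))) :=
              Multiset.le_add_left _ _
          _ ≤ _ := Multiset.le_add_right _ _
      · intro w hw
        obtain ⟨x, hx, hx1⟩ := hcova l m w hlm hw
        exact err_of_coord (fa l) (j0 + t * R + R) (j0 + t * R + R) le_rfl
          (by unfold YA; exact Multiset.le_add_left _ _) hx hx1
    · have h1 : ∀ i ∈ range I, inc (YA Fl fa fc R l (j0 + i * R))
          (((1 : ℝ) / 2) ^ (j0 + i * R) • fa l i') ≤ c1 := by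
        intro i _
        have h2 := hadm (j0 + i * R)
        rw [← hi''] at h2 ⊢
        exact inc_flr hφ h0 _ _ _ (hflY _) h2
      calc _ ≤ ∑ _i ∈ range I, c1 := Finset.sum_le_sum h1
        _ = c1 * I := by rw [Finset.sum_const, Finset.card_range, nsmul_eq_mul, mul_comm]
        _ ≤ c1 * I + Γ := by linarith
  -- the sums of one right frame vector
  have sumC : ∀ i k, k < Ke → ∀ i', ∑ u ∈ range lam,
      inc (YC Fl fa fc R (l0 + u * R) (j0 + i * R) (l0 + u * R + k * R))
      (((1 : ℝ) / 2) ^ (l0 + u * R + k * R) • fc (j0 + i * R) i') ≤ c1 * lam + Γ := by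
    intro i k hk i'
    set j := j0 + i * R with hj
    have eL : ∀ u : ℕ, l0 + u * R + k * R = l0 + (u + k) * R := fun u => by ring
    have hflY : ∀ l l', Fl ≤ YC Fl fa fc R l j l' := fun l l' => by
      unfold YC ZC
      rw [add_assoc, add_assoc]
      exact Multiset.le_add_right _ _
    have hadm : ∀ l l', Adm Fl B (YC Fl fa fc R l j l' + {((1 : ℝ) / 2) ^ l' • fc j i'}) := fun l l' => by
      have h1 := d.adm4 (j + R) l (l' + R) l' l (j + R) j j
      exact sc_sub_adm i' (hflY l l') (by unfold YC ZC; exact h1)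
    rcases (hfc j).1 i' with ⟨m, hlm, hm⟩ | ⟨i'', hi''⟩
    · have h1 := hC m (by omega) (fc j i') hm k hk
        (fun u => YC Fl fa fc R (l0 + u * R) j (l0 + (u + k) * R)) fun u _ =>
        ⟨hflY _ _, hadm _ _, ?_, ?_⟩
      · calc _ = ∑ u ∈ range lam, inc (YC Fl fa fc R (l0 + u * R) j (l0 + (u + k) * R))
              (((1 : ℝ) / 2) ^ (l0 + (u + k) * R) • fc j i') := by
              refine Finset.sum_congr rfl fun u _ => ?_
              rw [eL u]
          _ ≤ _ := h1
      · intro l' hl' w hw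
        obtain ⟨x, hx, hx1⟩ := hcova (l0 + u * R) l' w
          (by have : l0 + (u + k) * R = l0 + u * R + k * R := by ring
              omega) hw
        refine err_of_coord (fa (l0 + u * R)) (j + R) (m + D) (by omega) ?_ hx hx1
        unfold YC ZC
        calc fam (sc (j + R) (fa (l0 + u * R))) ≤ Fl + fam (sc (j + R) (fa (l0 + u * R))) :=
              Multiset.le_add_left _ _
          _ ≤ Fl + fam (sc (j + R) (fa (l0 + u * R))) + fam (sc (l0 + u * R) (fc (j + R))) :=
              Multiset.le_add_right _ _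
          _ ≤ _ := Multiset.le_add_right _ _
      · intro w hw
        obtain ⟨x, hx, hx1⟩ := hcovc j m w hlm hw
        exact err_of_coord (fc j) (l0 + (u + k) * R + R) (l0 + (u + k) * R + R) le_rfl
          (by unfold YC; exact Multiset.le_add_left _ _) hx hx1
    · have h1 : ∀ u ∈ range lam, inc (YC Fl fa fc R (l0 + u * R) j (l0 + u * R + k * R))
          (((1 : ℝ) / 2) ^ (l0 + u * R + k * R) • fc j i') ≤ c1 := by
        intro u _
        have h2 := hadm (l0 + u * R) (l0 + u * R + k * R)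
        rw [← hi''] at h2 ⊢
        exact inc_flr hφ h0 _ _ _ (hflY _ _) h2
      calc _ ≤ ∑ _u ∈ range lam, c1 := Finset.sum_le_sum h1
        _ = c1 * lam := by rw [Finset.sum_const, Finset.card_range, nsmul_eq_mul, mul_comm]
        _ ≤ c1 * lam + Γ := by linarith
  have sumE : ∀ k, k < Ke → ∀ i', ∑ u ∈ range lam,
      inc (YE Fl fc R (j0 + I * R) (l0 + u * R + k * R))
      (((1 : ℝ) / 2) ^ (l0 + u * R + k * R) • fc (j0 + I * R) i') ≤ c1 * lam + Γ := by
    intro k hk i'
    set j := j0 + I * R with hj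
    have eL : ∀ u : ℕ, l0 + u * R + k * R = l0 + (u + k) * R := fun u => by ring
    have hflY : ∀ l', Fl ≤ YE Fl fc R j l' := fun l' => by
      unfold YE
      exact Multiset.le_add_right _ _
    have hadm : ∀ l', Adm Fl B (YE Fl fc R j l' + {((1 : ℝ) / 2) ^ l' • fc j i'}) := fun l' =>
      sc_sub_adm i' (hflY l') (by unfold YE; exact d.adm2 _ _ _ _)
    rcases (hfc j).1 i' with ⟨m, hlm, hm⟩ | ⟨i'', hi''⟩
    · have h1 := hC m (by omega) (fc j i') hm k hk
        (fun u => YE Fl fc R j (l0 + (u + k) * R)) fun u _ =>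
        ⟨hflY _, hadm _, ?_, ?_⟩
      · calc _ = ∑ u ∈ range lam, inc (YE Fl fc R j (l0 + (u + k) * R))
              (((1 : ℝ) / 2) ^ (l0 + (u + k) * R) • fc j i') := by
              refine Finset.sum_congr rfl fun u _ => ?_
              rw [eL u]
          _ ≤ _ := h1
      · intro l' hl' w hw
        refine InB.flr hφ (hflY _) fun c => ?_
        rw [Pi.smul_apply, smul_eq_mul, abs_mul, abs_of_nonneg (by positivity)]
        have h2 := hVA l' w hw c
        have h3 := half_le (show j ≤ m + D by omega)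
        have h5 : (0 : ℝ) ≤ (1 / 2) ^ (m + D) := by positivity
        calc ((1 : ℝ) / 2) ^ (m + D) * |w c| ≤ (1 / 2) ^ (m + D) * B :=
              mul_le_mul_of_nonneg_left h2 h5
          _ ≤ (1 / 2) ^ j * B := mul_le_mul_of_nonneg_right h3 hB.le
          _ ≤ φ := hJ
      · intro w hw
        obtain ⟨x, hx, hx1⟩ := hcovc j m w hlm hw
        exact err_of_coord (fc j) (l0 + (u + k) * R + R) (l0 + (u + k) * R + R) le_rfl
          (by unfold YE; exact Multiset.le_add_left _ _) hx hx1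
    · have h1 : ∀ u ∈ range lam, inc (YE Fl fc R j (l0 + u * R + k * R))
          (((1 : ℝ) / 2) ^ (l0 + u * R + k * R) • fc j i') ≤ c1 := by
        intro u _
        have h2 := hadm (l0 + u * R + k * R)
        rw [← hi''] at h2 ⊢
        exact inc_flr hφ h0 _ _ _ (hflY _) h2
      calc _ ≤ ∑ _u ∈ range lam, c1 := Finset.sum_le_sum h1
        _ = c1 * lam := by rw [Finset.sum_const, Finset.card_range, nsmul_eq_mul, mul_comm]
        _ ≤ c1 * lam + Γ := by linarith
  -- the number of steps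
  set KT : ℝ := (∑ i ∈ range I, (Km fc R Ke (j0 + i * R) : ℝ)) + Ke with hKTdef
  have hKT : KT ≤ KTX N I Ke R B φ := by
    have h1 : (∑ i ∈ range I, (Km fc R Ke (j0 + i * R) : ℝ)) ≤
        ∑ i ∈ range I, (Kn fc R (j0 + i * R) : ℝ) :=
      Finset.sum_le_sum fun i _ => by
        exact_mod_cast (min_le_left (Kn fc R (j0 + i * R)) Ke)
    have h2 := sum_Kn_le fc R j0 I hR hdc (fun j =>
      (hfc j).2 (fc (j + R)) fun i => PS_anti φ VC (by omega) ((hfc (j + R)).1 i))
    have h3 : Real.logb 2 |(Matrix.of (fc j0)).det| ≤ Real.logb 2 N.factorial + N * Real.logb 2 B := by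
      have h4 := det_le_bd (fc j0) (fun i c => PS_bd hφ hφB VC hVC ((hfc j0).1 i) c)
      have h5 := Real.logb_le_logb_of_le (b := 2) (by norm_num) (abs_pos.mpr (hdc j0)) h4
      rw [Real.logb_mul (by exact_mod_cast N.factorial_ne_zero) (by positivity),
        Real.logb_pow] at h5
      exact h5
    have h6 : N * Real.logb 2 φ ≤ Real.logb 2 |(Matrix.of (fc (j0 + I * R))).det| := by
      have h4 := PS_det hφ VC (hfc (j0 + I * R))
      have h5 := Real.logb_le_logb_of_le (b := 2) (by norm_num) (pow_pos hφ N) h4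
      rw [Real.logb_pow] at h5
      exact h5
    have h7 : (Real.logb 2 |(Matrix.of (fc j0)).det| -
        Real.logb 2 |(Matrix.of (fc (j0 + I * R))).det|) / R ≤
        (Real.logb 2 N.factorial + N * Real.logb 2 (B / φ)) / R := by
      refine div_le_div_of_nonneg_right ?_ hR0.le
      rw [Real.logb_div hB.ne' hφ.ne']
      linarith
    unfold KTX
    linarith
  have hKm : ∀ j, Km fc R Ke j ≤ Ke := fun j => min_le_right _ _
  -- the average over the root
  set bc : ℕ → ℝ := fun u => (∑ i ∈ range I, ∑ k ∈ range (Km fc R Ke (j0 + i * R)),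
      ∑ i', inc (YC Fl fa fc R (l0 + u * R) (j0 + i * R) (l0 + u * R + k * R))
        (((1 : ℝ) / 2) ^ (l0 + u * R + k * R) • fc (j0 + i * R) i')) +
      ∑ k ∈ range Ke, ∑ i', inc (YE Fl fc R (j0 + I * R) (l0 + u * R + k * R))
        (((1 : ℝ) / 2) ^ (l0 + u * R + k * R) • fc (j0 + I * R) i') with hbc
  have havg : ∃ u ∈ range lam, bc u * lam ≤ KT * (N * (c1 * lam + Γ)) := by
    by_contra hcon
    push Not at hcon
    have h1 : ∑ u ∈ range lam, KT * (N * (c1 * lam + Γ)) < ∑ u ∈ range lam, bc u * lam := by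
      refine Finset.sum_lt_sum_of_nonempty ?_ hcon
      rw [Finset.nonempty_range_iff]
      omega
    rw [Finset.sum_const, Finset.card_range, nsmul_eq_mul, ← Finset.sum_mul] at h1
    have h2 : ∑ u ∈ range lam, bc u ≤ KT * (N * (c1 * lam + Γ)) := by
      rw [hbc]
      simp only
      rw [Finset.sum_add_distrib, Finset.sum_comm]
      have h5 : ∑ i ∈ range I, ∑ u ∈ range lam, ∑ k ∈ range (Km fc R Ke (j0 + i * R)),
          ∑ i', inc (YC Fl fa fc R (l0 + u * R) (j0 + i * R) (l0 + u * R + k * R))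
            (((1 : ℝ) / 2) ^ (l0 + u * R + k * R) • fc (j0 + i * R) i') ≤
          ∑ i ∈ range I, (Km fc R Ke (j0 + i * R) : ℝ) * (N * (c1 * lam + Γ)) := by
        refine Finset.sum_le_sum fun i _ => ?_
        rw [Finset.sum_comm]
        calc ∑ k ∈ range (Km fc R Ke (j0 + i * R)), ∑ u ∈ range lam,
              ∑ i', inc (YC Fl fa fc R (l0 + u * R) (j0 + i * R) (l0 + u * R + k * R))
                (((1 : ℝ) / 2) ^ (l0 + u * R + k * R) • fc (j0 + i * R) i')
            ≤ ∑ _k ∈ range (Km fc R Ke (j0 + i * R)), N * (c1 * lam + Γ) := by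
              refine Finset.sum_le_sum fun k hk => ?_
              rw [Finset.sum_comm]
              calc _ ≤ ∑ _i' : Fin N, (c1 * lam + Γ) := Finset.sum_le_sum fun i' _ =>
                    sumC i k ((Finset.mem_range.mp hk).trans_le (hKm _)) i'
                _ = N * (c1 * lam + Γ) := by
                    rw [Finset.sum_const, Finset.card_fin, nsmul_eq_mul]
          _ = (Km fc R Ke (j0 + i * R) : ℝ) * (N * (c1 * lam + Γ)) := by
              rw [Finset.sum_const, Finset.card_range, nsmul_eq_mul]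
      have h6 : ∑ u ∈ range lam, ∑ k ∈ range Ke,
          ∑ i', inc (YE Fl fc R (j0 + I * R) (l0 + u * R + k * R))
            (((1 : ℝ) / 2) ^ (l0 + u * R + k * R) • fc (j0 + I * R) i') ≤
          Ke * (N * (c1 * lam + Γ)) := by
        rw [Finset.sum_comm]
        calc _ ≤ ∑ _k ∈ range Ke, N * (c1 * lam + Γ) := by
              refine Finset.sum_le_sum fun k hk => ?_
              rw [Finset.sum_comm]
              calc _ ≤ ∑ _i' : Fin N, (c1 * lam + Γ) := Finset.sum_le_sum fun i' _ =>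
                    sumE k (Finset.mem_range.mp hk) i'
                _ = N * (c1 * lam + Γ) := by
                    rw [Finset.sum_const, Finset.card_fin, nsmul_eq_mul]
          _ = Ke * (N * (c1 * lam + Γ)) := by
              rw [Finset.sum_const, Finset.card_range, nsmul_eq_mul]
      rw [← Finset.sum_mul] at h5
      rw [hKTdef, add_mul]
      linarith
    nlinarith
  obtain ⟨u, hu, hbu⟩ := havg
  rw [Finset.mem_range] at hu
  have hFl0 : fam (flr (N := N) φ) ≤ Fl := le_rfl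
  have hK' : ((1 : ℝ) / 2) ^ (l0 + u * R + Ke * R) * B ≤ φ := by
    have h1 := half_le (show Ke * R ≤ l0 + u * R + Ke * R by omega)
    calc ((1 : ℝ) / 2) ^ (l0 + u * R + Ke * R) * B ≤ (1 / 2) ^ (Ke * R) * B :=
          mul_le_mul_of_nonneg_right h1 hB.le
      _ ≤ φ := hK
  have hp := pathW h d (l0 + u * R) j0 I Ke (fun i => Km fc R Ke (j0 + i * R)) ?_ hJ hK'
  · refine ⟨u, hu, ?_⟩
    have e1 : (∑ i ∈ range I, ((∑ i', inc (YA Fl fa fc R (l0 + u * R) (j0 + i * R))
          (((1 : ℝ) / 2) ^ (j0 + i * R) • fa (l0 + u * R) i') + (3 * N + 1) * c0) +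
        ∑ k ∈ range (Km fc R Ke (j0 + i * R)),
          (∑ i', inc (YC Fl fa fc R (l0 + u * R) (j0 + i * R) (l0 + u * R + k * R))
            (((1 : ℝ) / 2) ^ (l0 + u * R + k * R) • fc (j0 + i * R) i') + (N + 1) * c0))) +
      (2 * N * c0 +
        ∑ k ∈ range Ke, (∑ i', inc (YE Fl fc R (j0 + I * R) (l0 + u * R + k * R))
          (((1 : ℝ) / 2) ^ (l0 + u * R + k * R) • fc (j0 + I * R) i') + (N + 1) * c0)) =
        ∑ i', ∑ i ∈ range I, inc (YA Fl fa fc R (l0 + u * R) (j0 + i * R))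
          (((1 : ℝ) / 2) ^ (j0 + i * R) • fa (l0 + u * R) i') + I * (3 * N + 1) * c0 +
        KT * ((N + 1) * c0) + 2 * N * c0 + bc u := by
      have e2 : ∀ (K : ℕ) (f : ℕ → ℝ), ∑ k ∈ range K, (f k + (N + 1) * c0) =
          K * ((N + 1) * c0) + ∑ k ∈ range K, f k := by
        intro K f
        rw [Finset.sum_add_distrib, Finset.sum_const, Finset.card_range, nsmul_eq_mul, add_comm]
      simp_rw [e2]
      rw [Finset.sum_add_distrib, Finset.sum_add_distrib, Finset.sum_add_distrib,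
        Finset.sum_const, Finset.card_range, ← Finset.sum_mul, hKTdef, hbc, Finset.sum_comm]
      simp only [nsmul_eq_mul]
      ring
    have h1 : ∑ i', ∑ i ∈ range I, inc (YA Fl fa fc R (l0 + u * R) (j0 + i * R))
          (((1 : ℝ) / 2) ^ (j0 + i * R) • fa (l0 + u * R) i') ≤ N * (c1 * I + Γ) := by
      calc _ ≤ ∑ _i' : Fin N, (c1 * I + Γ) := Finset.sum_le_sum fun i' _ => sumA u i'
        _ = N * (c1 * I + Γ) := by rw [Finset.sum_const, Finset.card_fin, nsmul_eq_mul]
    have h2 : bc u ≤ KT * (N * (c1 + Γ / lam)) := by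
      have h3 : bc u ≤ KT * (N * (c1 * lam + Γ)) / lam := by
        rw [le_div_iff₀ hlam0]
        exact hbu
      have h4 : KT * (N * (c1 * lam + Γ)) / lam = KT * (N * (c1 + Γ / lam)) := by
        field_simp
      rw [h4] at h3
      exact h3
    have hcc : 0 ≤ N * (c1 + Γ / lam) + (N + 1) * c0 := by positivity
    have hX : S (KK Fl fa fc (l0 + u * R) j0) + s ≤ XY N I Ke R lam B φ c0 c1 Γ s E := by
      have h3 : KT * (N * (c1 + Γ / lam) + (N + 1) * c0) ≤
          KTX N I Ke R B φ * (N * (c1 + Γ / lam) + (N + 1) * c0) :=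
        mul_le_mul_of_nonneg_right hKT hcc
      rw [add_assoc, e1] at hp
      unfold XY
      rw [mul_add] at h3
      linarith
    have hKadm := d.admK (l0 + u * R) j0
    have hFK : Fl ≤ KK Fl fa fc (l0 + u * R) j0 := by
      unfold KK
      rw [add_assoc]
      exact Multiset.le_add_right _ _
    have hlen : ∀ (w : Fin N → ℝ) (k : ℕ), ((1 : ℝ) / 2) ^ k • w ∈ KK Fl fa fc (l0 + u * R) j0 →
        ∀ c, |w c| ≤ (2 : ℝ) ^ ((k : ℝ) + XY N I Ke R lam B φ c0 c1 Γ s E) := by
      intro w k hw c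
      by_cases hwc : w c = 0
      · rw [hwc, abs_zero]
        positivity
      · have h1 := hs _ hFK hKadm _ hw c (by
          rw [Pi.smul_apply, smul_eq_mul]
          exact mul_ne_zero (by positivity) hwc)
        rw [Pi.smul_apply, smul_eq_mul, abs_mul, abs_half,
          Real.logb_mul (by positivity) (abs_ne_zero.mpr hwc), Real.logb_pow] at h1
        have h2 : Real.logb 2 ((1 : ℝ) / 2) = -1 := by
          rw [one_div, Real.logb_inv, Real.logb_self_eq_one (by norm_num)]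
        rw [h2] at h1
        have h3 : Real.logb 2 |w c| ≤ (k : ℝ) + XY N I Ke R lam B φ c0 c1 Γ s E := by linarith
        rw [Real.logb_le_iff_le_rpow (by norm_num) (abs_pos.mpr hwc)] at h3
        exact h3
    have hbox : ∀ (w : Fin N → Fin N → ℝ) (M : ℝ) (_ : ∀ i c, |w i c| ≤ M) (v : Fin N → ℝ)
        (x : Fin N → ℝ) (_ : v = ∑ k, x k • w k) (_ : ∀ k, |x k| ≤ 1) (c : Fin N), |v c| ≤ N * M := by
      intro w M hw v x hv hx c
      rw [hv, Finset.sum_apply]
      calc |∑ k, (x k • w k) c| ≤ ∑ k, |(x k • w k) c| := Finset.abs_sum_le_sum_abs _ _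
        _ ≤ ∑ _k : Fin N, M := by
            refine Finset.sum_le_sum fun k _ => ?_
            rw [Pi.smul_apply, smul_eq_mul, abs_mul]
            have h1 := hw k c
            have h2 := hx k
            have h3 := abs_nonneg (w k c)
            have h4 := abs_nonneg (x k)
            nlinarith
        _ = N * M := by rw [Finset.sum_const, Finset.card_fin, nsmul_eq_mul]
    constructor
    · intro m hm v hv c
      obtain ⟨x, hx, hx1⟩ := hcova (l0 + u * R) m v hm hv
      refine hbox (fa (l0 + u * R)) _ (fun i c => hlen _ j0 ?_ c) v x hx hx1 c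
      unfold KK
      exact Multiset.mem_add.mpr (Or.inr (mem_fam (sc j0 (fa (l0 + u * R))) i))
    · intro j hj v hv c
      obtain ⟨x, hx, hx1⟩ := hcovc j0 j v hj hv
      refine hbox (fc j0) _ (fun i c => hlen _ (l0 + u * R) ?_ c) v x hx hx1 c
      unfold KK
      exact Multiset.mem_add.mpr (Or.inl (Multiset.mem_add.mpr (Or.inr
        (mem_fam (sc (l0 + u * R) (fc j0)) i))))
  · intro i _ i'
    by_cases hmin : Kn fc R (j0 + i * R) ≤ Ke
    · have e0 : Km fc R Ke (j0 + i * R) = Kn fc R (j0 + i * R) := min_eq_left hmin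
      rw [e0]
      obtain ⟨x, hx, hx1⟩ := (hfc (j0 + i * R)).coord (w' := fc (j0 + i * R + R))
        (fun k => PS_anti φ VC (by omega) ((hfc (j0 + i * R + R)).1 k)) (hdc _)
        ((hfc (j0 + i * R)).1 i')
      have hx2 := fun k => (hx1 k).trans (ratio_le_Kn fc R _ hR (hdc _) (hdc _))
      set K := Kn fc R (j0 + i * R) with hKdef
      unfold sc
      refine InB.of_coord (fc (j0 + i * R + R)) (((1 : ℝ) / 2) ^ (l0 + u * R)) ?_ x hx fun k => ?_
      · intro i''
        unfold ZC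
        exact Multiset.mem_add.mpr (Or.inr (mem_fam (sc (l0 + u * R) (fc (j0 + i * R + R))) i''))
      · rw [abs_mul, abs_half, abs_half, pow_add]
        have h5 := hx2 k
        have h6 : ((1 : ℝ) / 2) ^ (K * R) * 2 ^ (K * R) = 1 := by
          rw [← mul_pow]
          norm_num
        have h7 : (0 : ℝ) ≤ (1 / 2) ^ (l0 + u * R) := by positivity
        have h8 : (0 : ℝ) ≤ (1 / 2) ^ (K * R) := by positivity
        calc ((1 : ℝ) / 2) ^ (l0 + u * R) * (1 / 2) ^ (K * R) * |x k|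
            ≤ ((1 : ℝ) / 2) ^ (l0 + u * R) * (1 / 2) ^ (K * R) * 2 ^ (K * R) :=
              mul_le_mul_of_nonneg_left h5 (mul_nonneg h7 h8)
          _ = (1 / 2) ^ (l0 + u * R) := by rw [mul_assoc, h6, mul_one]
    · have e0 : Km fc R Ke (j0 + i * R) = Ke := min_eq_right (by omega)
      rw [e0]
      refine InB.flr hφ ?_ fun c => ?_
      · unfold ZC
        rw [add_assoc]
        exact Multiset.le_add_right _ _
      · unfold sc
        rw [Pi.smul_apply, smul_eq_mul, abs_mul, abs_of_nonneg (by positivity)]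
        calc ((1 : ℝ) / 2) ^ (l0 + u * R + Ke * R) * |fc (j0 + i * R) i' c|
            ≤ (1 / 2) ^ (l0 + u * R + Ke * R) * B :=
              mul_le_mul_of_nonneg_left (d.fcb _ _ _) (by positivity)
          _ ≤ φ := hK'

end Pool.Agent.Helper78.FW
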