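import Pool.Agent.Helper78.FW.PathY
import Pool.Agent.Helper15.VW.Pf

/-!
# The path for one law: instance for the functional `SZ` and its increment `IZ`, and the size of the exponent
-/

set_option autoImplicit false

namespace Pool.Agent.Helper78.FW

open Finset Matrix

variable {N : ℕ}

theorem PF.weaken {Fl : Multiset (Fin N → ℝ)} {B : ℝ} {S : Multiset (Fin N → ℝ) → ℝ}
    {inc : Multiset (Fin N → ℝ) → (Fin N → ℝ) → ℝ} {R : ℕ} {c0 c2 c2' : ℝ}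
    (h : PF Fl B S inc R c0 c2) (hc : c2 ≤ c2') : PF Fl B S inc R c0 c2' :=
  ⟨h.mono, h.abs, h.kv, fun Z v hA hF hI => (h.triv Z v hA hF hI).trans hc, h.c0_nonneg,
    h.c2_nonneg.trans hc⟩

/-- **THE PATH FOR ONE LAW**, for the functional of helper15 -/
theorem pathZ {Ω δ : Type} [Fintype Ω] (μ : Ω → ℝ) (hμ : ∀ ω, 0 ≤ μ ω)
    (hm : Helper69.RK.mass μ = 1) (z : Ω → Fin N → ℝ) (Y : Ω → δ)
    (φ B : ℝ) (hφ : 0 < φ) (hφB : φ ≤ B) (g R0 R D : ℕ) (hg : R0 ≤ g) (hRR : R ≤ R0)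
    (hB : B ≤ φ * 2 ^ R0) (hR : 1 ≤ R) (hRD : R ≤ D)
    (c1 : ℝ) (hc1 : Helper15.VW.cT N N ≤ c1)
    (L : ℕ) (VA VC : ℕ → Finset (Fin N → ℝ)) (hLA : ∀ m, L ≤ m → VA m = ∅)
    (hLC : ∀ m, L ≤ m → VC m = ∅) (hVA : ∀ m, ∀ v ∈ VA m, ∀ c, |v c| ≤ B)
    (hVC : ∀ m, ∀ v ∈ VC m, ∀ c, |v c| ≤ B) (j0 l0 lam I Ke : ℕ) (Γ : ℝ) (hΓ : 0 ≤ Γ)
    (hA : ∀ m, l0 ≤ m → ∀ v ∈ VA m, ∀ Z : ℕ → Multiset (Fin N → ℝ),
      (∀ t < I, Okb (fam (flr φ)) B R D VA VC m (j0 + t * R) v (Z t)) →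
      ∑ t ∈ range I, Helper15.VW.IZ μ z Y g R0 (Z t) (((1 : ℝ) / 2) ^ (j0 + t * R) • v) ≤ c1 * I + Γ)
    (hC : ∀ j, j0 ≤ j → ∀ v ∈ VC j, ∀ k < Ke, ∀ Z : ℕ → Multiset (Fin N → ℝ),
      (∀ u < lam, Okb (fam (flr φ)) B R D VC VA j (l0 + (u + k) * R) v (Z u)) →
      ∑ u ∈ range lam, Helper15.VW.IZ μ z Y g R0 (Z u) (((1 : ℝ) / 2) ^ (l0 + (u + k) * R) • v) ≤
        c1 * lam + Γ)
    (s E : ℝ) (hs : ∀ Z, fam (flr φ) ≤ Z → Adm (fam (flr φ)) B Z → ∀ v ∈ Z, ∀ c, v c ≠ 0 →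
      Real.logb 2 |v c| - s ≤ Helper15.VW.SZ μ z Y Z) (hE : Helper15.VW.SZ μ z Y (fam (flr φ)) ≤ -E)
    (hlam : 0 < lam)
    (hJ : ((1 : ℝ) / 2) ^ (j0 + I * R) * B ≤ φ) (hK : ((1 : ℝ) / 2) ^ (Ke * R) * B ≤ φ) :
    ∃ u < lam,
      (∀ m, l0 + u * R ≤ m → ∀ v ∈ VA m, ∀ c,
        |v c| ≤ N * (2 : ℝ) ^ ((j0 : ℝ) + XY N I Ke R lam B φ (Helper15.VW.cP N) c1 Γ s E)) ∧
      (∀ j, j0 ≤ j → ∀ v ∈ VC j, ∀ c,
        |v c| ≤ N * (2 : ℝ) ^ (((l0 + u * R : ℕ) : ℝ) +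
          XY N I Ke R lam B φ (Helper15.VW.cP N) c1 Γ s E)) := by
  have h := Helper15.VW.pf_inst μ hμ hm z Y φ B hφ g R0 R hg hRR hB
  have h0 := Helper15.VW.pf_inst μ hμ hm z Y φ B hφ g R0 0 hg (by omega) hB
  have h0' : PF (fam (flr (N := N) φ)) B (Helper15.VW.SZ μ z Y) (Helper15.VW.IZ μ z Y g R0) 0
      (Helper15.VW.cP N) c1 := by
    refine PF.weaken h0 ?_
    rw [Nat.cast_zero, zero_add]
    exact hc1
  exact pathY φ B hφ hφB (Helper15.VW.SZ μ z Y) (Helper15.VW.IZ μ z Y g R0) R D hR hRD _ c1 _ h h0' L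
    VA VC hLA hLC hVA hVC j0 l0 lam I Ke Γ hΓ hA hC s E hs hE hlam hJ hK

/-- **SIZE OF THE EXPONENT** -/
theorem XY_le (I Ke R lam F b : ℕ) (c0 c1 Γ s E : ℝ) (hR : 1 ≤ R) (hlam : 1 ≤ lam)
    (hc0 : 0 ≤ c0) (hc1 : 0 ≤ c1) (hΓ : 0 ≤ Γ) (hI : I * R ≤ F + b + R) (hKe : Ke * R ≤ F + b + R) :
    XY N I Ke R lam (2 ^ b) ((1 / 2) ^ F) c0 c1 Γ s E ≤ s - E + N * Γ + 2 * N * c0 +
      (((N + 2) * (F + b) + Real.logb 2 N.factorial) / R + 2) *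
        (2 * N * c1 + (4 * N + 2) * c0 + N * Γ / lam) := by
  have hR0 : (0 : ℝ) < R := by exact_mod_cast hR
  have hlam0 : (0 : ℝ) < lam := by exact_mod_cast hlam
  have hN0 : (0 : ℝ) ≤ N := Nat.cast_nonneg N
  have hlf : 0 ≤ Real.logb 2 N.factorial :=
    Real.logb_nonneg (by norm_num) (by exact_mod_cast N.factorial_pos)
  have hlog : Real.logb 2 (2 ^ b / (1 / 2) ^ F) = F + b := by
    have e1 : (2 : ℝ) ^ b / (1 / 2) ^ F = 2 ^ (F + b) := by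
      rw [one_div, inv_pow, div_inv_eq_mul, ← pow_add, add_comm]
    rw [e1, Real.logb_pow, Real.logb_self_eq_one (by norm_num)]
    push_cast
    ring
  have hI' : (I : ℝ) ≤ (F + b) / R + 1 := by
    have h1 : (I : ℝ) * R ≤ F + b + R := by exact_mod_cast hI
    rw [← sub_le_iff_le_add, le_div_iff₀ hR0]
    linarith
  have hKe' : (Ke : ℝ) ≤ (F + b) / R + 1 := by
    have h1 : (Ke : ℝ) * R ≤ F + b + R := by exact_mod_cast hKe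
    rw [← sub_le_iff_le_add, le_div_iff₀ hR0]
    linarith
  set W : ℝ := ((N + 2) * (F + b) + Real.logb 2 N.factorial) / R + 2 with hW
  have hWe : W = (F + b) / R + 1 + (Real.logb 2 N.factorial + N * (F + b)) / R + ((F + b) / R + 1) := by
    rw [hW]
    field_simp
    ring
  have hp : (0 : ℝ) ≤ (Real.logb 2 N.factorial + N * (F + b)) / R := by positivity
  have hq : (0 : ℝ) ≤ (F + b) / R := by positivity
  have hKT : KTX N I Ke R (2 ^ b) ((1 / 2) ^ F) ≤ W := by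
    unfold KTX
    rw [hlog, hWe]
    linarith
  have hIW : (I : ℝ) ≤ W := by
    rw [hWe]
    linarith
  unfold XY
  have h1 : KTX N I Ke R (2 ^ b) ((1 / 2) ^ F) * (N * (c1 + Γ / lam) + (N + 1) * c0) ≤
      W * (N * (c1 + Γ / lam) + (N + 1) * c0) :=
    mul_le_mul_of_nonneg_right hKT (by positivity)
  have h2 : (I : ℝ) * (N * c1 + (3 * N + 1) * c0) ≤ W * (N * c1 + (3 * N + 1) * c0) :=
    mul_le_mul_of_nonneg_right hIW (by positivity)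
  have h3 : N * (c1 * I + Γ) + I * (3 * N + 1) * c0 = I * (N * c1 + (3 * N + 1) * c0) + N * Γ := by ring
  have h4 : W * (2 * N * c1 + (4 * N + 2) * c0 + N * Γ / lam) =
      W * (N * c1 + (3 * N + 1) * c0) + W * (N * (c1 + Γ / lam) + (N + 1) * c0) := by ring
  rw [h4]
  linarith

end Pool.Agent.Helper78.FW
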